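import Pool.Agent.J6H20.LES.Stress

set_option autoImplicit false

open MeasureTheory Set Filter Topology
open scoped ContDiff ENNReal NNReal Manifold

namespace Pool.Agent.J6H20.LES

/-- smooth cutoff -/
theorem exists_cutoff {K D : Set X} (hK : IsCompact K) (hD : IsOpen D) (hKD : K ⊆ D) :
    ∃ χ : X → ℝ, Cc D χ ∧ (∀ z ∈ K, χ z = 1) ∧ ∀ z, 0 ≤ χ z ∧ χ z ≤ 1 := by
  obtain ⟨V, hV, hKV, hVD, hVc⟩ := exists_open_between_and_isCompact_closure hK hD hKD
  obtain ⟨f, hf0, hf1, hf⟩ := exists_contMDiffMap_zero_one_of_isClosed (n := (⊤ : ℕ∞)) 𝓘(ℝ, X)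
    (s := Vᶜ) (t := K) hV.isClosed_compl hK.isClosed
    (disjoint_left.2 fun x hx hx' => hx (hKV hx'))
  have hsup : tsupport (fun z => f z) ⊆ closure V := by
    refine closure_mono fun z hz => ?_
    by_contra hzV
    exact hz (hf0 hzV)
  refine ⟨fun z => f z, ⟨?_, ?_, hsup.trans hVD⟩, fun z hz => hf1 hz, fun z => ?_⟩
  · exact contMDiff_iff_contDiff.1 f.contMDiff
  · exact hVc.of_isClosed_subset (isClosed_tsupport _) hsup
  · exact hf z

theorem int_abs_sub_le {u g : X → ℝ} (hd : Integrable (fun z => u z - g z)) {ε : ℝ} (hε : 0 ≤ ε)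
    (h : eLpNorm (u - g) 1 volume ≤ ENNReal.ofReal ε) : ∫ z, |u z - g z| ≤ ε := by
  have h1 := eLpNorm_one_eq_lintegral_enorm (f := fun z => u z - g z) (μ := (volume : Measure X))
  have h2 := integral_norm_eq_lintegral_enorm hd.1
  simp only [Real.norm_eq_abs] at h2
  rw [h2, ← h1]
  exact ENNReal.toReal_le_of_le_ofReal hε h

/-- `L¹` functions vanishing off an open set are limits of smooth functions with compact support
in the set. -/
theorem approx {D : Set X} (hD : IsOpen D) {R : X → ℝ} (hR : Integrable R)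
    (hs : ∀ z, z ∉ D → R z = 0) {ε : ℝ} (hε : 0 < ε) :
    ∃ u, Cc D u ∧ ∫ z, |R z - u z| ≤ ε := by
  set μ : Measure X := volume.withDensity (fun z => ‖R z‖ₑ) with hμ
  have hfin : IsFiniteMeasure μ := by
    constructor
    rw [hμ, withDensity_apply _ MeasurableSet.univ, Measure.restrict_univ]
    exact hR.2
  obtain ⟨K, hKD, hKc, hK⟩ := hD.measurableSet.exists_isCompact_sdiff_lt (μ := μ)
    (measure_ne_top μ D) (ε := ENNReal.ofReal (ε / 2)) (by simpa using by positivity)
  obtain ⟨χ, hχ, hχ1, hχ01⟩ := exists_cutoff hKc hD hKD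
  obtain ⟨u, hu1, hu2, hu3⟩ := MemLp.exist_eLpNorm_sub_le (p := 1) (by simp) le_rfl
    (memLp_one_iff_integrable.2 hR) (show 0 < ε / 2 by positivity)
  have hcc : Cc univ u := ⟨hu2, hu1, subset_univ _⟩
  have hdi : Integrable (fun z => R z - u z) := hR.sub hcc.integrable
  have hd := int_abs_sub_le hdi (by positivity) hu3
  refine ⟨fun z => χ z * u z, hχ.mul hu2, ?_⟩
  have hDK : MeasurableSet (D \ K) := hD.measurableSet.diff hKc.measurableSet
  have hbound : ∀ z, |R z - χ z * u z| ≤ (D \ K).indicator (fun z => |R z|) z + |R z - u z| := by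
    intro z
    have e1 : R z - χ z * u z = (1 - χ z) * R z + χ z * (R z - u z) := by ring
    have h1 : |χ z * (R z - u z)| ≤ |R z - u z| := by
      rw [abs_mul, abs_of_nonneg (hχ01 z).1]
      have := mul_le_mul_of_nonneg_right (hχ01 z).2 (abs_nonneg (R z - u z))
      linarith
    have h2 : |(1 - χ z) * R z| ≤ (D \ K).indicator (fun z => |R z|) z := by
      by_cases hz : z ∈ D \ K
      · rw [indicator_of_mem hz, abs_mul, abs_of_nonneg (by linarith [(hχ01 z).2])]
        have := mul_le_mul_of_nonneg_right (show 1 - χ z ≤ 1 by linarith [(hχ01 z).1])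
          (abs_nonneg (R z))
        linarith
      · rw [indicator_of_notMem hz]
        by_cases hzD : z ∈ D
        · have hzK : z ∈ K := by
            by_contra h; exact hz ⟨hzD, h⟩
          rw [hχ1 z hzK]; simp
        · rw [hs z hzD]; simp
    rw [e1]
    exact (abs_add_le _ _).trans (add_le_add h2 h1)
  have hi1 : Integrable ((D \ K).indicator (fun z => |R z|)) := hR.abs.indicator hDK
  calc ∫ z, |R z - χ z * u z| ≤ ∫ z, ((D \ K).indicator (fun z => |R z|) z + |R z - u z|) := by
        refine integral_mono (hR.sub (hχ.mul hu2).integrable).abs (hi1.add hdi.abs) hbound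
    _ = (∫ z, (D \ K).indicator (fun z => |R z|) z) + ∫ z, |R z - u z| :=
        integral_add hi1 hdi.abs
    _ ≤ ε / 2 + ε / 2 := by
        refine add_le_add ?_ hd
        rw [integral_indicator hDK]
        have h2 := integral_norm_eq_lintegral_enorm (hR.restrict (s := D \ K)).1
        simp only [Real.norm_eq_abs] at h2
        rw [h2]
        refine ENNReal.toReal_le_of_le_ofReal (by positivity) ?_
        rw [hμ, withDensity_apply _ hDK] at hK
        exact hK.le
    _ = ε := by ring

end Pool.Agent.J6H20.LES
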