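import Mathlib

set_option autoImplicit false

open MeasureTheory Set Filter Topology
open scoped ContDiff ENNReal NNReal

namespace Pool.Agent.J6H20.LES

/-- Space-time `ℝ × ℝ³`. -/
abbrev X := ℝ × (Fin 3 → ℝ)

/-- The `j`-th spatial direction. -/
def ex (j : Fin 3) : X := (0, Pi.single j 1)

/-- The time direction. -/
def et : X := (1, 0)

/-- Directional derivative of a scalar function. -/
noncomputable def dd (v : X) (u : X → ℝ) (z : X) : ℝ := fderiv ℝ u z v

/-- Smooth compactly supported function with support in `D`. -/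
structure Cc (D : Set X) (u : X → ℝ) : Prop where
  smooth : ContDiff ℝ ∞ u
  compact : HasCompactSupport u
  supp : tsupport u ⊆ D

theorem Cc.continuous {D : Set X} {u : X → ℝ} (h : Cc D u) : Continuous u := h.smooth.continuous

theorem Cc.differentiable {D : Set X} {u : X → ℝ} (h : Cc D u) : Differentiable ℝ u :=
  h.smooth.differentiable (by simp)

theorem Cc.integrable {D : Set X} {u : X → ℝ} (h : Cc D u) : Integrable u :=
  h.continuous.integrable_of_hasCompactSupport h.compact

theorem Cc.zero {D : Set X} {u : X → ℝ} (h : Cc D u) {z : X} (hz : z ∉ D) : u z = 0 := by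
  by_contra hne
  exact hz (h.supp (subset_tsupport u hne))

theorem contDiff_dd {u : X → ℝ} (h : ContDiff ℝ ∞ u) (v : X) : ContDiff ℝ ∞ (dd v u) := by
  unfold dd
  have h1 : ContDiff ℝ ∞ (fderiv ℝ u) := h.fderiv_right (by simp)
  exact h1.clm_apply contDiff_const

theorem tsupport_dd (u : X → ℝ) (v : X) : tsupport (dd v u) ⊆ tsupport u := by
  have h1 : Function.support (dd v u) ⊆ Function.support (fderiv ℝ u) := by
    intro z hz
    simp only [Function.mem_support, dd] at hz ⊢
    intro h
    exact hz (by rw [h]; simp)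
  exact (closure_mono h1).trans (tsupport_fderiv_subset ℝ)

theorem Cc.dd {D : Set X} {u : X → ℝ} (h : Cc D u) (v : X) : Cc D (dd v u) where
  smooth := contDiff_dd h.smooth v
  compact := by
    refine HasCompactSupport.intro (K := tsupport u) h.compact ?_
    intro z hz
    by_contra hne
    exact hz (tsupport_dd u v (subset_tsupport _ hne))
  supp := (tsupport_dd u v).trans h.supp

theorem Cc.mul {D : Set X} {u g : X → ℝ} (h : Cc D u) (hg : ContDiff ℝ ∞ g) :
    Cc D (fun z => u z * g z) where
  smooth := h.smooth.mul hg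
  compact := h.compact.mul_right
  supp := (closure_mono (by
    intro z hz
    simp only [Function.mem_support] at hz ⊢
    exact left_ne_zero_of_mul hz)).trans h.supp

theorem Cc.const_mul {D : Set X} {u : X → ℝ} (h : Cc D u) (c : ℝ) :
    Cc D (fun z => c * u z) where
  smooth := contDiff_const.mul h.smooth
  compact := h.compact.mul_left
  supp := (closure_mono (by
    intro z hz
    simp only [Function.mem_support] at hz ⊢
    exact right_ne_zero_of_mul hz)).trans h.supp

theorem Cc.add {D : Set X} {u g : X → ℝ} (h : Cc D u) (hg : Cc D g) :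
    Cc D (fun z => u z + g z) where
  smooth := h.smooth.add hg.smooth
  compact := h.compact.add hg.compact
  supp := by
    have h1 : tsupport (fun z => u z + g z) ⊆ tsupport u ∪ tsupport g := tsupport_add u g
    exact h1.trans (union_subset h.supp hg.supp)

theorem Cc.sub {D : Set X} {u g : X → ℝ} (h : Cc D u) (hg : Cc D g) :
    Cc D (fun z => u z - g z) := by
  have := h.add (hg.const_mul (-1))
  convert this using 2
  ring

theorem Cc.fzero (D : Set X) : Cc D (fun _ => (0 : ℝ)) where
  smooth := contDiff_const
  compact := HasCompactSupport.zero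
  supp := by
    have : tsupport (fun _ : X => (0 : ℝ)) = ∅ := by
      simp [tsupport, Function.support]
    rw [this]; exact empty_subset _

theorem Cc.sum {D : Set X} {ι : Type*} (s : Finset ι) {u : ι → X → ℝ} (h : ∀ i ∈ s, Cc D (u i)) :
    Cc D (fun z => ∑ i ∈ s, u i z) := by
  classical
  induction s using Finset.induction_on with
  | empty => simpa using Cc.fzero D
  | insert a s ha ih =>
    have h1 : Cc D (fun z => u a z + ∑ i ∈ s, u i z) :=
      (h a (Finset.mem_insert_self a s)).add (ih (fun i hi => h i (Finset.mem_insert_of_mem hi)))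
    convert h1 using 2
    rw [Finset.sum_insert ha]

theorem Cc.bdd {D : Set X} {u : X → ℝ} (h : Cc D u) : ∃ C, 0 ≤ C ∧ ∀ z, |u z| ≤ C := by
  obtain ⟨C, hC⟩ := h.compact.exists_bound_of_continuous h.continuous
  exact ⟨max C 0, le_max_right _ _, fun z => (by
    rw [← Real.norm_eq_abs]; exact (hC z).trans (le_max_left _ _))⟩

theorem haarX : (volume : Measure X).IsAddHaarMeasure := by
  rw [Measure.volume_eq_prod]; infer_instance

/-- integration by parts, one factor smooth and compactly supported. -/
theorem ibp {D : Set X} {u g : X → ℝ} (hu : Cc D u) (hg : ContDiff ℝ 1 g) (v : X) :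
    ∫ z, u z * dd v g z = - ∫ z, dd v u z * g z := by
  have hgd : Continuous (fun z => dd v g z) := by
    unfold LES.dd
    exact (hg.continuous_fderiv (by simp)).clm_apply continuous_const
  have := haarX
  refine integral_mul_fderiv_eq_neg_fderiv_mul_of_integrable ?_ ?_ ?_ ?_ ?_
  · have h1 : Continuous (fun z => dd v u z * g z) := (hu.dd v).continuous.mul hg.continuous
    exact h1.integrable_of_hasCompactSupport ((hu.dd v).compact.mul_right)
  · have h1 : Continuous (fun z => u z * dd v g z) := hu.continuous.mul hgd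
    exact h1.integrable_of_hasCompactSupport (hu.compact.mul_right)
  · have h1 : Continuous (fun z => u z * g z) := hu.continuous.mul hg.continuous
    exact h1.integrable_of_hasCompactSupport (hu.compact.mul_right)
  · intro x _; exact hu.differentiable x
  · intro x _; exact hg.differentiable (by simp) x

theorem dd_mul {u g : X → ℝ} (hu : Differentiable ℝ u) (hg : Differentiable ℝ g) (v z : X) :
    dd v (fun z => u z * g z) z = dd v u z * g z + u z * dd v g z := by
  unfold dd
  have := fderiv_mul (hu z) (hg z)
  have h2 : fderiv ℝ (fun z => u z * g z) z = u z • fderiv ℝ g z + g z • fderiv ℝ u z := by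
    exact this
  rw [h2]
  simp only [add_apply, smul_apply, smul_eq_mul]
  ring

theorem dd_add {u g : X → ℝ} (hu : Differentiable ℝ u) (hg : Differentiable ℝ g) (v z : X) :
    dd v (fun z => u z + g z) z = dd v u z + dd v g z := by
  unfold dd
  have h2 : fderiv ℝ (fun z => u z + g z) z = fderiv ℝ u z + fderiv ℝ g z :=
    fderiv_add (hu z) (hg z)
  rw [h2]; rfl

theorem dd_const_mul {u : X → ℝ} (hu : Differentiable ℝ u) (c : ℝ) (v z : X) :
    dd v (fun z => c * u z) z = c * dd v u z := by
  unfold dd
  have h2 : fderiv ℝ (fun z => c * u z) z = c • fderiv ℝ u z := by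
    exact fderiv_const_mul (hu z) c
  rw [h2]; rfl

theorem dd_sum {ι : Type*} (s : Finset ι) {u : ι → X → ℝ} (hu : ∀ i ∈ s, Differentiable ℝ (u i))
    (v z : X) : dd v (fun z => ∑ i ∈ s, u i z) z = ∑ i ∈ s, dd v (u i) z := by
  unfold dd
  have h2 : fderiv ℝ (fun z => ∑ i ∈ s, u i z) z = ∑ i ∈ s, fderiv ℝ (u i) z :=
    fderiv_fun_sum (fun i hi => hu i hi z)
  rw [h2]
  simp

theorem dd_comm {u : X → ℝ} (hu : ContDiff ℝ ∞ u) (v w z : X) :
    dd v (dd w u) z = dd w (dd v u) z := by
  have hsym : IsSymmSndFDerivAt ℝ u z := by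
    apply ContDiffAt.isSymmSndFDerivAt (hu.contDiffAt (x := z))
    simp only [minSmoothness_of_isRCLikeNormedField]
    have h2 : ((2 : ℕ∞) : WithTop ℕ∞) ≤ ((⊤ : ℕ∞) : WithTop ℕ∞) := WithTop.coe_le_coe.2 le_top
    exact h2
  have hd : DifferentiableAt ℝ (fderiv ℝ u) z :=
    ((hu.fderiv_right (m := ∞) (by simp)).differentiable (by simp)) z
  have key : ∀ a b : X, dd a (dd b u) z = fderiv ℝ (fderiv ℝ u) z a b := by
    intro a b
    unfold dd
    have : fderiv ℝ (fun y => fderiv ℝ u y b) z = (fderiv ℝ (fderiv ℝ u) z).flip b := by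
      have h1 := fderiv_clm_apply hd (differentiableAt_const b)
      rw [h1]; simp
    rw [this]; rfl
  rw [key, key]
  exact hsym v w

end Pool.Agent.J6H20.LES
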