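import Pool.Agent.J6H20.LES.Approx

set_option autoImplicit false

open MeasureTheory Set Filter Topology
open scoped ContDiff ENNReal NNReal

namespace Pool.Agent.J6H20.LES

variable {Ω : Set (Fin 3 → ℝ)} {T : ℝ}

/-- the nine directions -/
def kv (p : Fin 3 × Fin 3) : Fin 3 → ℝ := fun m =>
  if p.1 = p.2 then (if m = p.1 then 1 else 0)
  else if p.1 < p.2 then (if m = p.1 then 1 else if m = p.2 then 1 else 0)
  else (if m = p.1 then 1 else if m = p.2 then -1 else 0)

/-- wave coordinate -/
def lv (p : Fin 3 × Fin 3) : Fin 3 := if p.1 = p.2 then p.1 + 1 else -(p.1 + p.2)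

theorem kv_le (p : Fin 3 × Fin 3) (m : Fin 3) : |kv p m| ≤ 1 := by
  unfold kv
  split_ifs <;> simp

theorem kv_lv (p : Fin 3 × Fin 3) : kv p (lv p) = 0 := by
  obtain ⟨i, j⟩ := p
  unfold kv lv
  fin_cases i <;> fin_cases j <;> simp <;> (try decide)

/-- coefficients -/
noncomputable def co (σ : ℝ) (S : Fin 3 → Fin 3 → ℝ) (p : Fin 3 × Fin 3) : ℝ :=
  if p.1 = p.2 then σ + S p.1 p.2
  else if p.1 < p.2 then (σ + S p.1 p.2) / 2
  else (σ - S p.1 p.2) / 2

theorem co_sum (σ : ℝ) {S : Fin 3 → Fin 3 → ℝ} (hS : ∀ i j, S i j = S j i) (i j : Fin 3) :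
    ∑ p : Fin 3 × Fin 3, co σ S p * (kv p i * kv p j) = S i j + (if i = j then 3 * σ else 0) := by
  rw [Fintype.sum_prod_type]
  simp only [Fin.sum_univ_three]
  have h01 := hS 0 1
  have h02 := hS 0 2
  have h12 := hS 1 2
  fin_cases i <;> fin_cases j <;> simp [co, kv] <;> linarith

theorem co_pos {σ : ℝ} {S : Fin 3 → Fin 3 → ℝ} (h : ∀ i j, |S i j| < σ) (p : Fin 3 × Fin 3) :
    0 < co σ S p ∧ co σ S p ≤ 2 * σ := by
  have := abs_lt.1 (h p.1 p.2)
  unfold co
  split_ifs <;> constructor <;> linarith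

theorem pair_scalar {φ : X → Fin 3 → ℝ} (hφ : Test Ω T φ) {ρ : X → ℝ} (hρ : Integrable ρ)
    (hs : ∀ z, z ∉ dom Ω T → ρ z = 0) :
    pair (fun z i j => if i = j then ρ z else 0) φ = 0 := by
  unfold pair
  have h1 : ∀ i j, ∫ z, (if i = j then ρ z else 0) * dd (ex j) (fun y => φ y i) z =
      if i = j then ∫ z, ρ z * dd (ex j) (fun y => φ y i) z else 0 := by
    intro i j
    by_cases hij : i = j
    · simp only [hij, if_true]
    · simp [hij]
  simp only [h1, Finset.sum_ite_eq, Finset.mem_univ, if_true]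
  rw [← integral_finsetSum]
  · have : ∀ z, ∑ i, ρ z * dd (ex i) (fun y => φ y i) z = 0 := by
      intro z
      rw [← Finset.mul_sum]
      by_cases hz : z ∈ dom Ω T
      · rw [hφ.div z hz.1.1, mul_zero]
      · rw [hs z hz, zero_mul]
    simp [this]
  · intro i _
    exact integrable_mul_cc hρ ((hφ.comp i).dd _)

theorem pair_sum {φ : X → Fin 3 → ℝ} (hφ : Test Ω T φ) {ι : Type*} (s : Finset ι)
    {R : ι → X → Fin 3 → Fin 3 → ℝ} (hR : ∀ p ∈ s, ∀ i j, Integrable (fun z => R p z i j)) :
    ∑ p ∈ s, pair (R p) φ = pair (fun z i j => ∑ p ∈ s, R p z i j) φ := by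
  unfold pair
  rw [Finset.sum_comm]
  refine Finset.sum_congr rfl fun i _ => ?_
  rw [Finset.sum_comm]
  refine Finset.sum_congr rfl fun j _ => ?_
  rw [← integral_finsetSum]
  · congr 1; ext z
    rw [Finset.sum_mul]
  · intro p hp
    exact integrable_mul_cc (hR p hp i j) ((hφ.comp i).dd _)

/-- Decomposition of a stress in rank one pieces. -/
theorem decomp (hΩ : IsOpen Ω) {R : X → Fin 3 → Fin 3 → ℝ} (hR : Stress Ω T R) {ε : ℝ}
    (hε : 0 < ε) :
    ∃ a : Fin 3 × Fin 3 → X → ℝ, (∀ p, Cc (dom Ω T) (a p)) ∧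
      (∀ p, ∫ z, a p z ^ 2 ≤ 2 * (nrm R + 2 * ε)) ∧
      Small Ω T (fun ψ => pair R ψ -
        ∑ p, pair (fun z i j => a p z ^ 2 * (kv p i * kv p j)) ψ) ε := by
  classical
  have hD := isOpen_dom hΩ T
  choose u hu hue using fun i j => approx hD (hR.int i j) (fun z hz => hR.supp z hz i j)
    (show 0 < ε / 9 by positivity)
  set S : Fin 3 → Fin 3 → X → ℝ := fun i j z => (1 / 2) * (u i j z + u j i z) with hS
  have hSc : ∀ i j, Cc (dom Ω T) (S i j) := fun i j => ((hu i j).add (hu j i)).const_mul _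
  have hSsym : ∀ i j z, S i j z = S j i z := fun i j z => by simp only [hS]; ring
  have hSe : ∀ i j, ∫ z, |R z i j - S i j z| ≤ ε / 9 := by
    intro i j
    have i1 : Integrable (fun z => R z i j - u i j z) := (hR.int i j).sub (hu i j).integrable
    have i2 : Integrable (fun z => R z j i - u j i z) := (hR.int j i).sub (hu j i).integrable
    calc ∫ z, |R z i j - S i j z|
        ≤ ∫ z, ((1 / 2) * |R z i j - u i j z| + (1 / 2) * |R z j i - u j i z|) := by
          refine integral_mono ((hR.int i j).sub (hSc i j).integrable).abs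
            ((i1.abs.const_mul _).add (i2.abs.const_mul _)) fun z => ?_
          have e1 : R z i j - S i j z = (1 / 2) * (R z i j - u i j z) +
              (1 / 2) * (R z j i - u j i z) := by
            simp only [hS]; rw [hR.symm z j i]; ring
          simp only
          rw [e1]
          refine (abs_add_le _ _).trans (le_of_eq ?_)
          rw [abs_mul, abs_mul, abs_of_pos (by norm_num : (0 : ℝ) < 1 / 2)]
      _ = (1 / 2) * (∫ z, |R z i j - u i j z|) + (1 / 2) * ∫ z, |R z j i - u j i z| := by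
          rw [integral_add (i1.abs.const_mul _) (i2.abs.const_mul _), integral_const_mul,
            integral_const_mul]
      _ ≤ ε / 9 := by linarith [hue i j, hue j i]
  -- the cutoff
  set K : Set X := ⋃ i, ⋃ j, tsupport (u i j) with hK
  have hKc : IsCompact K := isCompact_iUnion fun i => isCompact_iUnion fun j => (hu i j).compact
  have hKD : K ⊆ dom Ω T := iUnion_subset fun i => iUnion_subset fun j => (hu i j).supp
  obtain ⟨χ, hχ, hχ1, hχ01⟩ := exists_cutoff hKc hD hKD
  have hχS : ∀ i j z, χ z ^ 2 * S i j z = S i j z := by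
    intro i j z
    by_cases hz : z ∈ K
    · rw [hχ1 z hz]; ring
    · have h1 : ∀ i j, u i j z = 0 := by
        intro i j
        apply image_eq_zero_of_notMem_tsupport
        intro h; exact hz (mem_iUnion.2 ⟨i, mem_iUnion.2 ⟨j, h⟩⟩)
      simp only [hS, h1]; ring
  have hχ2 : Cc (dom Ω T) (fun z => χ z ^ 2) := by
    have := hχ.mul hχ.smooth
    convert this using 2
    ring
  set Iχ : ℝ := ∫ z, χ z ^ 2 with hIχ
  have hIχ0 : 0 ≤ Iχ := integral_nonneg fun z => sq_nonneg _
  set δ : ℝ := ε / (Iχ + 1) with hδ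
  have hδ0 : 0 < δ := by positivity
  have hδI : δ * Iχ ≤ ε := by
    rw [hδ, div_mul_eq_mul_div, div_le_iff₀ (by positivity)]
    nlinarith
  set Q : X → ℝ := fun z => δ ^ 2 + ∑ i, ∑ j, S i j z ^ 2 with hQ
  have hQ0 : ∀ z, 0 < Q z := fun z => by
    have : 0 ≤ ∑ i, ∑ j, S i j z ^ 2 :=
      Finset.sum_nonneg fun _ _ => Finset.sum_nonneg fun _ _ => sq_nonneg _
    simp only [hQ]; positivity
  have hQs : ContDiff ℝ ∞ Q := by
    refine contDiff_const.add (ContDiff.sum fun i _ => ContDiff.sum fun j _ => ?_)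
    exact (hSc i j).smooth.pow 2
  set σ : X → ℝ := fun z => Real.sqrt (Q z) with hσ
  have hσs : ContDiff ℝ ∞ σ := hQs.sqrt fun z => (hQ0 z).ne'
  have hSσ : ∀ z i j, |S i j z| < σ z := by
    intro z i j
    rw [hσ, ← Real.sqrt_sq_eq_abs]
    refine Real.sqrt_lt_sqrt (sq_nonneg _) ?_
    have h1 : S i j z ^ 2 ≤ ∑ j, S i j z ^ 2 :=
      Finset.single_le_sum (f := fun j => S i j z ^ 2) (fun _ _ => sq_nonneg _) (Finset.mem_univ j)
    have h2 : ∑ j, S i j z ^ 2 ≤ ∑ i, ∑ j, S i j z ^ 2 :=
      Finset.single_le_sum (f := fun i => ∑ j, S i j z ^ 2)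
        (fun _ _ => Finset.sum_nonneg fun _ _ => sq_nonneg _) (Finset.mem_univ i)
    simp only [hQ]
    nlinarith [sq_nonneg δ, pow_pos hδ0 2]
  have hσle : ∀ z, σ z ≤ δ + ∑ i, ∑ j, |S i j z| := by
    intro z
    have hs0 : 0 ≤ ∑ i, ∑ j, |S i j z| :=
      Finset.sum_nonneg fun _ _ => Finset.sum_nonneg fun _ _ => abs_nonneg _
    rw [hσ]
    refine Real.sqrt_le_iff.2 ⟨by positivity, ?_⟩
    have h1 : ∀ i j, S i j z ^ 2 ≤ |S i j z| * ∑ i, ∑ j, |S i j z| := by
      intro i j
      have h2 : |S i j z| ≤ ∑ j, |S i j z| :=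
        Finset.single_le_sum (f := fun j => |S i j z|) (fun _ _ => abs_nonneg _) (Finset.mem_univ j)
      have h3 : ∑ j, |S i j z| ≤ ∑ i, ∑ j, |S i j z| :=
        Finset.single_le_sum (f := fun i => ∑ j, |S i j z|)
          (fun _ _ => Finset.sum_nonneg fun _ _ => abs_nonneg _) (Finset.mem_univ i)
      rw [← sq_abs, sq]
      exact mul_le_mul_of_nonneg_left (h2.trans h3) (abs_nonneg _)
    have h4 : ∑ i, ∑ j, S i j z ^ 2 ≤ (∑ i, ∑ j, |S i j z|) ^ 2 := by
      calc ∑ i, ∑ j, S i j z ^ 2 ≤ ∑ i, ∑ j, |S i j z| * ∑ i, ∑ j, |S i j z| :=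
            Finset.sum_le_sum fun i _ => Finset.sum_le_sum fun j _ => h1 i j
        _ = (∑ i, ∑ j, |S i j z|) ^ 2 := by
            simp only [← Finset.sum_mul]; ring
    simp only [hQ]
    nlinarith
  have hco := fun z => co_pos (S := fun i j => S i j z) (hSσ z)
  have hcos : ∀ p, ContDiff ℝ ∞ (fun z => co (σ z) (fun i j => S i j z) p) := by
    intro p
    unfold co
    split_ifs
    · exact hσs.add (hSc _ _).smooth
    · exact (hσs.add (hSc _ _).smooth).div_const _
    · exact (hσs.sub (hSc _ _).smooth).div_const _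
  set a : Fin 3 × Fin 3 → X → ℝ := fun p z =>
    χ z * Real.sqrt (co (σ z) (fun i j => S i j z) p) with ha
  have hac : ∀ p, Cc (dom Ω T) (a p) := fun p =>
    hχ.mul ((hcos p).sqrt fun z => ((hco z p).1).ne')
  have ha2 : ∀ p z, a p z ^ 2 = χ z ^ 2 * co (σ z) (fun i j => S i j z) p := by
    intro p z
    simp only [ha]
    rw [mul_pow, Real.sq_sqrt (hco z p).1.le]
  have hasq : ∀ p, Cc (dom Ω T) (fun z => a p z ^ 2) := fun p => by
    have := (hac p).mul (hac p).smooth
    convert this using 2
    ring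
  refine ⟨a, hac, fun p => ?_, ?_⟩
  · -- the size of the coefficients
    have hi : Integrable (fun z => 2 * δ * χ z ^ 2 + 2 * ∑ i, ∑ j, |S i j z|) :=
      (hχ2.integrable.const_mul _).add ((integrable_finsetSum _ fun i _ =>
        integrable_finsetSum _ fun j _ => (hSc i j).integrable.abs).const_mul _)
    have hSn : ∀ i j, ∫ z, |S i j z| ≤ (∫ z, |R z i j|) + ε / 9 := by
      intro i j
      have hsub : Integrable (fun z => R z i j - S i j z) := (hR.int i j).sub (hSc i j).integrable
      have : ∫ z, |S i j z| ≤ ∫ z, (|R z i j| + |R z i j - S i j z|) := by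
        refine integral_mono (hSc i j).integrable.abs ((hR.int i j).abs.add hsub.abs) fun z => ?_
        have := abs_sub (R z i j) (R z i j - S i j z)
        simp only [sub_sub_cancel] at this
        exact this
      rw [integral_add (hR.int i j).abs hsub.abs] at this
      linarith [hSe i j]
    calc ∫ z, a p z ^ 2 ≤ ∫ z, (2 * δ * χ z ^ 2 + 2 * ∑ i, ∑ j, |S i j z|) := by
          refine integral_mono (hasq p).integrable hi fun z => ?_
          simp only
          rw [ha2]
          have h1 : co (σ z) (fun i j => S i j z) p ≤ 2 * (δ + ∑ i, ∑ j, |S i j z|) :=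
            (hco z p).2.trans (by linarith [hσle z])
          have h2 : χ z ^ 2 ≤ 1 := by
            have := hχ01 z
            nlinarith
          have h3 : 0 ≤ ∑ i, ∑ j, |S i j z| :=
            Finset.sum_nonneg fun _ _ => Finset.sum_nonneg fun _ _ => abs_nonneg _
          have h4 := mul_le_mul_of_nonneg_left h1 (sq_nonneg (χ z))
          nlinarith
      _ = 2 * δ * Iχ + 2 * ∑ i, ∑ j, ∫ z, |S i j z| := by
          rw [integral_add (hχ2.integrable.const_mul _) ((integrable_finsetSum _ fun i _ =>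
            integrable_finsetSum _ fun j _ => (hSc i j).integrable.abs).const_mul _),
            integral_const_mul, integral_const_mul, integral_finsetSum _ (fun i _ =>
            integrable_finsetSum _ fun j _ => (hSc i j).integrable.abs)]
          congr 2
          refine Finset.sum_congr rfl fun i _ => ?_
          rw [integral_finsetSum _ fun j _ => (hSc i j).integrable.abs]
      _ ≤ 2 * ε + 2 * ∑ i : Fin 3, ∑ j : Fin 3, ((∫ z, |R z i j|) + ε / 9) := by
          refine add_le_add ?_ (mul_le_mul_of_nonneg_left (Finset.sum_le_sum fun i _ =>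
            Finset.sum_le_sum fun j _ => hSn i j) (by norm_num))
          linarith
      _ = 2 * (nrm R + 2 * ε) := by
          unfold nrm
          simp only [Finset.sum_add_distrib]
          simp
          ring
  · -- the remainder
    have st : Stress Ω T (fun z i j => R z i j - S i j z) :=
      ⟨fun i j => (hR.int i j).sub (hSc i j).integrable, fun z i j => by
        rw [hR.symm z i j, hSsym i j z], fun z hz i j => by
        rw [hR.supp z hz, (hSc i j).zero hz]; ring⟩
    have hn : nrm (fun z i j => R z i j - S i j z) ≤ ε := by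
      unfold nrm
      calc ∑ i, ∑ j, ∫ z, |R z i j - S i j z| ≤ ∑ i : Fin 3, ∑ j : Fin 3, ε / 9 :=
            Finset.sum_le_sum fun i _ => Finset.sum_le_sum fun j _ => hSe i j
        _ = ε := by simp; ring
    refine ((small_sym st).mono hn).congr fun φ hφ => ?_
    have hρ : Cc (dom Ω T) (fun z => χ z ^ 2 * (3 * σ z)) := hχ2.mul (contDiff_const.mul hσs)
    have e1 : ∑ p, pair (fun z i j => a p z ^ 2 * (kv p i * kv p j)) φ =
        pair (fun z i j => S i j z + if i = j then χ z ^ 2 * (3 * σ z) else 0) φ := by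
      rw [pair_sum hφ _ (fun p _ i j => (hasq p).integrable.mul_const _)]
      congr 1
      ext z i j
      have := co_sum (σ z) (S := fun i j => S i j z) (fun i j => hSsym i j z) i j
      have e2 : ∀ p, a p z ^ 2 * (kv p i * kv p j) =
          χ z ^ 2 * (co (σ z) (fun i j => S i j z) p * (kv p i * kv p j)) := by
        intro p; rw [ha2]; ring
      simp only [e2]
      rw [← Finset.mul_sum, this, mul_add, hχS]
      congr 1
      split_ifs <;> ring
    have iρ : ∀ i j : Fin 3, Integrable (fun z => if i = j then χ z ^ 2 * (3 * σ z) else 0) := by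
      intro i j
      by_cases h : i = j
      · simp only [h, if_true]; exact hρ.integrable
      · simp only [h, if_false]; exact integrable_zero _ _ _
    rw [e1, pair_add (fun i j => (hSc i j).integrable) iρ hφ, pair_scalar hφ hρ.integrable
      (fun z hz => hρ.zero hz), add_zero]
    have e3 : pair R φ = pair (fun z i j => R z i j - S i j z) φ + pair (fun z i j => S i j z) φ := by
      rw [← pair_add st.int (fun i j => (hSc i j).integrable) hφ]
      congr 1
      ext z i j
      ring
    rw [e3]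
    ring

end Pool.Agent.J6H20.LES
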