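import Pool.Agent.J6H20.LES.Osc

set_option autoImplicit false

open MeasureTheory Set Filter Topology
open scoped ContDiff ENNReal NNReal

namespace Pool.Agent.J6H20.LES

variable {Ω : Set (Fin 3 → ℝ)} {T : ℝ}

/-- The functional of the weak formulation. -/
noncomputable def Nf (ν κ : ℝ) (f w : X → Fin 3 → ℝ) (G : X → Fin 3 → Fin 3 → ℝ)
    (φ : X → Fin 3 → ℝ) : ℝ :=
  (∑ i, - ∫ z, w z i * dd et (fun y => φ y i) z)
  + (∑ i, ∫ z, (∑ l, G z i l * w z l) * φ z i)
  + ν * (∑ i, ∑ l, ∫ z, G z i l * dd (ex l) (fun y => φ y i) z)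
  - κ * (∑ i, ∑ j, ∫ z, (∑ l, G z i l * G z j l) * dd (ex j) (fun y => φ y i) z)
  - ∑ i, ∫ z, f z i * φ z i

/-- Square integrable fields with support in the domain. -/
structure State (Ω : Set (Fin 3 → ℝ)) (T : ℝ) (w : X → Fin 3 → ℝ)
    (G : X → Fin 3 → Fin 3 → ℝ) : Prop where
  mw : ∀ i, MemLp (fun z => w z i) 2
  mG : ∀ i j, MemLp (fun z => G z i j) 2
  sw : ∀ z, z ∉ dom Ω T → ∀ i, w z i = 0
  sG : ∀ z, z ∉ dom Ω T → ∀ i j, G z i j = 0

theorem int_of_memLp {D : Set X} (hD : volume D < ⊤) {u : X → ℝ} (hu : MemLp u 2)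
    (hs : ∀ z, z ∉ D → u z = 0) : Integrable u := by
  have h1 : IsFiniteMeasure (volume.restrict D) := ⟨by rwa [Measure.restrict_apply_univ]⟩
  have h2 : Integrable u (volume.restrict D) := (hu.restrict D).integrable (by norm_num)
  have h3 : IntegrableOn u D := h2
  rwa [integrableOn_iff_integrable_of_support_subset] at h3
  intro z hz
  by_contra h
  exact hz (hs z h)

theorem vol_dom (hb : Bornology.IsBounded Ω) (T : ℝ) : volume (dom Ω T) < ⊤ := by
  have : Bornology.IsBounded (dom Ω T) := (Metric.isBounded_Ioo 0 T).prod hb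
  exact this.measure_lt_top

theorem Cc.memLp {D : Set X} {u : X → ℝ} (h : Cc D u) : MemLp u 2 :=
  h.continuous.memLp_of_hasCompactSupport h.compact

/-- the gradient field of a smooth field -/
noncomputable def gr (v : X → Fin 3 → ℝ) (z : X) (i l : Fin 3) : ℝ := dd (ex l) (fun y => v y i) z

theorem State.add {w : X → Fin 3 → ℝ} {G : X → Fin 3 → Fin 3 → ℝ} (h : State Ω T w G) {v : X → Fin 3 → ℝ}
    (hv : ∀ i, Cc (dom Ω T) (fun z => v z i)) :
    State Ω T (fun z i => w z i + v z i) (fun z i l => G z i l + gr v z i l) where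
  mw i := (h.mw i).add (hv i).memLp
  mG i j := (h.mG i j).add ((hv i).dd (ex j)).memLp
  sw z hz i := by rw [h.sw z hz, (hv i).zero hz, add_zero]
  sG z hz i j := by
    have := ((hv i).dd (ex j)).zero hz
    rw [h.sG z hz]
    unfold gr
    rw [this, add_zero]

theorem zero_transpose {v φ : X → Fin 3 → ℝ} (hv : ∀ i, Cc (dom Ω T) (fun z => v z i))
    (hφ : Test Ω T φ) :
    ∑ i, ∑ l, ∫ z, gr v z l i * dd (ex l) (fun y => φ y i) z = 0 := by
  have hc : ∀ i l, ContDiff ℝ ∞ (dd (ex l) (fun y => φ y i)) := fun i l =>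
    contDiff_dd (hφ.comp i).smooth _
  have h1 : ∀ i l, ∫ z, gr v z l i * dd (ex l) (fun y => φ y i) z =
      - ∫ z, v z l * dd (ex l) (dd (ex i) (fun y => φ y i)) z := by
    intro i l
    have := ibp (hv l) (g := dd (ex l) (fun y => φ y i)) ((hc i l).of_le (by simp)) (ex i)
    have e2 : ∫ z, v z l * dd (ex l) (dd (ex i) (fun y => φ y i)) z =
        ∫ z, v z l * dd (ex i) (dd (ex l) (fun y => φ y i)) z := by
      congr 1; ext z; rw [dd_comm (hφ.comp i).smooth]
    rw [e2, this, neg_neg]
    rfl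
  simp only [h1]
  rw [Finset.sum_comm]
  refine Finset.sum_eq_zero fun l _ => ?_
  rw [Finset.sum_neg_distrib, neg_eq_zero, ← integral_finsetSum]
  · have : ∀ z, ∑ i, v z l * dd (ex l) (dd (ex i) (fun y => φ y i)) z = 0 := by
      intro z
      by_cases hz : z ∈ dom Ω T
      · rw [← Finset.mul_sum, ← dd_sum Finset.univ (u := fun i => dd (ex i) (fun y => φ y i))
          (fun i _ => ((hφ.comp i).dd _).differentiable)]
        have e3 : (fun z => ∑ i, dd (ex i) (fun y => φ y i) z) =ᶠ[𝓝 z] fun _ => 0 := by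
          have hopen : IsOpen {z : X | 0 < z.1} := isOpen_lt continuous_const continuous_fst
          filter_upwards [hopen.mem_nhds (show z ∈ {z : X | 0 < z.1} from hz.1.1)] with y hy
          exact hφ.div y hy
        unfold dd at e3 ⊢
        rw [e3.fderiv_eq]
        simp
      · refine Finset.sum_eq_zero fun i _ => ?_
        rw [(hv l).zero hz, zero_mul]
    simp [this]
  · intro i _
    exact integrable_mul_cc (hv l).integrable (((hφ.comp i).dd _).dd _)

theorem Nf_diff (hb : Bornology.IsBounded Ω) {ν κ : ℝ} {f w : X → Fin 3 → ℝ}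
    {G : X → Fin 3 → Fin 3 → ℝ} (h : State Ω T w G) {v : X → Fin 3 → ℝ}
    (hv : ∀ i, Cc (dom Ω T) (fun z => v z i)) {φ : X → Fin 3 → ℝ} (hφ : Test Ω T φ) :
    Nf ν κ f (fun z i => w z i + v z i) (fun z i l => G z i l + gr v z i l) φ =
      Nf ν κ f w G φ + (∑ i, ∫ z, dd et (fun y => v y i) z * φ z i) +
      (∑ i, ∫ z, (∑ l, ((G z i l + gr v z i l) * (w z l + v z l) - G z i l * w z l)) * φ z i) +
      pair (fun z i l => ν * (gr v z i l + gr v z l i)) φ +
      pair (fun z i j => - κ * ∑ l, ((G z i l + gr v z i l) * (G z j l + gr v z j l) -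
        G z i l * G z j l)) φ := by
  have h' := h.add hv
  have hD := vol_dom hb T
  have iw : ∀ i, Integrable (fun z => w z i) := fun i =>
    int_of_memLp hD (h.mw i) (fun z hz => h.sw z hz i)
  have iG : ∀ i l, Integrable (fun z => G z i l) := fun i l =>
    int_of_memLp hD (h.mG i l) (fun z hz => h.sG z hz i l)
  have ig : ∀ i l, Integrable (fun z => gr v z i l) := fun i l => ((hv i).dd (ex l)).integrable
  have iGw : ∀ i, Integrable (fun z => ∑ l, G z i l * w z l) := fun i =>
    integrable_finsetSum _ fun l _ => (h.mG i l).integrable_mul (h.mw l)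
  have iGw' : ∀ i, Integrable (fun z => ∑ l, (G z i l + gr v z i l) * (w z l + v z l)) := fun i =>
    integrable_finsetSum _ fun l _ => (h'.mG i l).integrable_mul (h'.mw l)
  have iGG : ∀ i j, Integrable (fun z => ∑ l, G z i l * G z j l) := fun i j =>
    integrable_finsetSum _ fun l _ => (h.mG i l).integrable_mul (h.mG j l)
  have iGG' : ∀ i j, Integrable
      (fun z => ∑ l, (G z i l + gr v z i l) * (G z j l + gr v z j l)) := fun i j =>
    integrable_finsetSum _ fun l _ => (h'.mG i l).integrable_mul (h'.mG j l)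
  -- term 1
  have t1 : (∑ i, - ∫ z, (w z i + v z i) * dd et (fun y => φ y i) z) =
      (∑ i, - ∫ z, w z i * dd et (fun y => φ y i) z) +
      ∑ i, ∫ z, dd et (fun y => v y i) z * φ z i := by
    rw [← Finset.sum_add_distrib]
    refine Finset.sum_congr rfl fun i _ => ?_
    have e1 : ∫ z, v z i * dd et (fun y => φ y i) z = - ∫ z, dd et (fun y => v y i) z * φ z i :=
      ibp (hv i) ((hφ.comp i).smooth.of_le (by simp)) et
    have e2 : ∫ z, (w z i + v z i) * dd et (fun y => φ y i) z =
        (∫ z, w z i * dd et (fun y => φ y i) z) + ∫ z, v z i * dd et (fun y => φ y i) z := by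
      rw [← integral_add (integrable_mul_cc (iw i) ((hφ.comp i).dd _))
        (integrable_mul_cc (hv i).integrable ((hφ.comp i).dd _))]
      congr 1; ext z; ring
    rw [e2, e1]; ring
  -- term 2
  have t2 : (∑ i, ∫ z, (∑ l, (G z i l + gr v z i l) * (w z l + v z l)) * φ z i) =
      (∑ i, ∫ z, (∑ l, G z i l * w z l) * φ z i) +
      ∑ i, ∫ z, (∑ l, ((G z i l + gr v z i l) * (w z l + v z l) - G z i l * w z l)) * φ z i := by
    rw [← Finset.sum_add_distrib]
    refine Finset.sum_congr rfl fun i _ => ?_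
    have e1 : ∀ z, (∑ l, ((G z i l + gr v z i l) * (w z l + v z l) - G z i l * w z l)) * φ z i =
        (∑ l, (G z i l + gr v z i l) * (w z l + v z l)) * φ z i -
        (∑ l, G z i l * w z l) * φ z i := by
      intro z; rw [Finset.sum_sub_distrib]; ring
    simp only [e1]
    rw [integral_sub (integrable_mul_cc (iGw' i) (hφ.comp i))
      (integrable_mul_cc (iGw i) (hφ.comp i))]
    ring
  -- term 3
  have t3 : ν * (∑ i, ∑ l, ∫ z, (G z i l + gr v z i l) * dd (ex l) (fun y => φ y i) z) =
      ν * (∑ i, ∑ l, ∫ z, G z i l * dd (ex l) (fun y => φ y i) z) +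
      pair (fun z i l => ν * (gr v z i l + gr v z l i)) φ := by
    have e1 : ∑ i, ∑ l, ∫ z, (G z i l + gr v z i l) * dd (ex l) (fun y => φ y i) z =
        (∑ i, ∑ l, ∫ z, G z i l * dd (ex l) (fun y => φ y i) z) +
        ∑ i, ∑ l, ∫ z, gr v z i l * dd (ex l) (fun y => φ y i) z := by
      rw [← Finset.sum_add_distrib]
      refine Finset.sum_congr rfl fun i _ => ?_
      rw [← Finset.sum_add_distrib]
      refine Finset.sum_congr rfl fun l _ => ?_
      rw [← integral_add (integrable_mul_cc (iG i l) ((hφ.comp i).dd _))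
        (integrable_mul_cc (ig i l) ((hφ.comp i).dd _))]
      congr 1; ext z; ring
    have e2 : pair (fun z i l => ν * (gr v z i l + gr v z l i)) φ =
        ν * (∑ i, ∑ l, ∫ z, gr v z i l * dd (ex l) (fun y => φ y i) z) +
        ν * ∑ i, ∑ l, ∫ z, gr v z l i * dd (ex l) (fun y => φ y i) z := by
      unfold pair
      rw [← mul_add, ← Finset.sum_add_distrib, Finset.mul_sum]
      refine Finset.sum_congr rfl fun i _ => ?_
      rw [← Finset.sum_add_distrib, Finset.mul_sum]
      refine Finset.sum_congr rfl fun l _ => ?_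
      rw [← integral_add (integrable_mul_cc (ig i l) ((hφ.comp i).dd _))
        (integrable_mul_cc (ig l i) ((hφ.comp i).dd _)), ← integral_const_mul]
      congr 1; ext z; ring
    rw [e1, e2, zero_transpose hv hφ]
    ring
  -- term 4
  have t4 : κ * (∑ i, ∑ j, ∫ z, (∑ l, (G z i l + gr v z i l) * (G z j l + gr v z j l)) *
        dd (ex j) (fun y => φ y i) z) =
      κ * (∑ i, ∑ j, ∫ z, (∑ l, G z i l * G z j l) * dd (ex j) (fun y => φ y i) z) -
      pair (fun z i j => - κ * ∑ l, ((G z i l + gr v z i l) * (G z j l + gr v z j l) -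
        G z i l * G z j l)) φ := by
    unfold pair
    rw [eq_sub_iff_add_eq, Finset.mul_sum, Finset.mul_sum, ← Finset.sum_add_distrib]
    refine Finset.sum_congr rfl fun i _ => ?_
    rw [Finset.mul_sum, Finset.mul_sum, ← Finset.sum_add_distrib]
    refine Finset.sum_congr rfl fun j _ => ?_
    have e1 : ∀ z, (- κ * ∑ l, ((G z i l + gr v z i l) * (G z j l + gr v z j l) -
        G z i l * G z j l)) * dd (ex j) (fun y => φ y i) z =
        κ * ((∑ l, G z i l * G z j l) * dd (ex j) (fun y => φ y i) z -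
        (∑ l, (G z i l + gr v z i l) * (G z j l + gr v z j l)) * dd (ex j) (fun y => φ y i) z) := by
      intro z; rw [Finset.sum_sub_distrib]; ring
    simp only [e1]
    rw [integral_const_mul, integral_sub (integrable_mul_cc (iGG i j) ((hφ.comp i).dd _))
      (integrable_mul_cc (iGG' i j) ((hφ.comp i).dd _))]
    ring
  unfold Nf
  rw [t1, t2, t3, t4]
  ring

end Pool.Agent.J6H20.LES
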