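import Pool.Agent.J6H20.LES.SliceConv

set_option autoImplicit false

open MeasureTheory Set Filter Topology
open scoped ContDiff ENNReal NNReal

namespace Pool.Agent.J6H20.LES

variable {Ω : Set Y} {T : ℝ}

theorem slice_member (hΩ : IsOpen Ω) (hb : Bornology.IsBounded Ω) {w0 : Y → Fin 3 → ℝ}
    {G0 : Y → Fin 3 → Fin 3 → ℝ} (h : W0 2 Ω w0 G0) {v : ℕ → X → Fin 3 → ℝ}
    (hv : ∀ k i, Cc (dom Ω T) (fun z => v k z i)) (hvb : ∀ k z i, |v k z i| ≤ (1 / 4) ^ k)
    {G : X → Fin 3 → Fin 3 → ℝ} {t : ℝ} (ht : t ∈ Ioo 0 T)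
    (h1 : ∀ i l, MemLp (fun x : Y => G (t, x) i l) 2)
    (h2 : ∀ i l, Tendsto (fun k => eLpNorm (fun x : Y => (Gi Ω T G0 (t, x) i l +
        ∑ j ∈ Finset.range k, gr (v j) (t, x) i l) - G (t, x) i l) 2 volume) atTop (𝓝 0)) :
    W0 2 Ω (fun x i => Wi Ω T w0 (t, x) i + ∑' j, v j (t, x) i) (fun x => G (t, x)) := by
  have hfinΩ : IsFiniteMeasure ((volume : Measure Y).restrict Ω) :=
    ⟨by rw [Measure.restrict_apply_univ]; exact vol_lt_top hb⟩
  set S : X → Fin 3 → ℝ := fun z i => ∑' j, v j z i with hS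
  have hSc : ∀ i, Continuous (fun z => S z i) := fun i =>
    series_cont hvb (fun k i => (hv k i).continuous) i
  have hSb : ∀ z i, |S z i| ≤ 4 / 3 := fun z i => by
    have := series_bound hvb 0 z i
    simpa using this
  set w : X → Fin 3 → ℝ := fun z i => Wi Ω T w0 z i + S z i with hw
  have hWt : ∀ x ∈ Ω, ∀ i, w (t, x) i = w0 x i + S (t, x) i := by
    intro x hx i
    simp only [hw]
    unfold Wi ext0
    rw [indicator_of_mem (show ((t, x) : X) ∈ dom Ω T from ⟨ht, hx⟩)]
  have hGt : ∀ x ∈ Ω, ∀ i l, Gi Ω T G0 (t, x) i l = G0 x i l := by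
    intro x hx i l
    unfold Gi ext0
    rw [indicator_of_mem (show ((t, x) : X) ∈ dom Ω T from ⟨ht, hx⟩)]
  refine ⟨fun i => ?_, fun i l => (h1 i l).restrict Ω, fun ε hε => ?_⟩
  · have m1 : MemLp (fun x : Y => S (t, x) i) 2 (volume.restrict Ω) :=
      MemLp.of_bound (((hSc i).comp (by fun_prop)).aestronglyMeasurable) (4 / 3)
        (Eventually.of_forall fun x => by rw [Real.norm_eq_abs]; exact hSb _ i)
    refine ((h.mw i).add m1).ae_eq ?_
    filter_upwards [ae_restrict_mem hΩ.measurableSet] with x hx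
    exact (hWt x hx i).symm
  · obtain ⟨u0, hu1, hu2, hu3, hu4, hu5⟩ := h.app (ε / 2) (by positivity)
    -- choose the index
    have c1 : ∀ᶠ k in atTop, ∀ i l, eLpNorm (fun x : Y => (Gi Ω T G0 (t, x) i l +
        ∑ j ∈ Finset.range k, gr (v j) (t, x) i l) - G (t, x) i l) 2 volume <
        ENNReal.ofReal (ε / 2) := by
      simp only [eventually_all]
      exact fun i l => (h2 i l).eventually_lt_const (ENNReal.ofReal_pos.2 (by positivity))
    have c2 : ∀ᶠ k : ℕ in atTop, (volume.restrict Ω) (univ : Set Y) ^ (2⁻¹ : ℝ) *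
        ENNReal.ofReal (4 / 3 * (1 / 4) ^ k) < ENNReal.ofReal (ε / 2) := by
      have h1 : Tendsto (fun k : ℕ => ENNReal.ofReal (4 / 3 * (1 / 4) ^ k)) atTop (𝓝 0) := by
        have h2 := (tendsto_pow_atTop_nhds_zero_of_lt_one (r := (1 / 4 : ℝ)) (by norm_num)
          (by norm_num)).const_mul (4 / 3)
        rw [mul_zero] at h2
        simpa using ENNReal.tendsto_ofReal h2
      have h3 := ENNReal.Tendsto.const_mul (a := (volume.restrict Ω) (univ : Set Y) ^ (2⁻¹ : ℝ))
        h1 (Or.inr (ENNReal.rpow_ne_top_of_nonneg (by norm_num) (measure_ne_top _ _)))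
      rw [mul_zero] at h3
      exact h3.eventually_lt_const (ENNReal.ofReal_pos.2 (by positivity))
    obtain ⟨k, hk1, hk2⟩ := (c1.and c2).exists
    obtain ⟨s1, s2, s3, s4⟩ := slice_field hu1 hu2 hu3 hv t k
    have hεε : ENNReal.ofReal ε = ENNReal.ofReal (ε / 2) + ENNReal.ofReal (ε / 2) := by
      rw [← ENNReal.ofReal_add (by positivity) (by positivity)]; congr 1; ring
    refine ⟨_, s1, s2, s3, fun i => ?_, fun i l => ?_⟩
    · -- values
      have e1 : eLpNorm (fun x => w (t, x) i - (u0 x i + ∑ j ∈ Finset.range k, v j (t, x) i)) 2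
          (volume.restrict Ω) = eLpNorm ((fun x => w0 x i - u0 x i) +
            fun x => S (t, x) i - ∑ j ∈ Finset.range k, v j (t, x) i) 2
            (volume.restrict Ω) := by
        refine eLpNorm_congr_ae ?_
        filter_upwards [ae_restrict_mem hΩ.measurableSet] with x hx
        rw [hWt x hx i]
        simp only [Pi.add_apply]; ring
      rw [e1, hεε]
      have b1 := eLpNorm_le_of_ae_bound (p := 2) (μ := volume.restrict Ω)
        (f := fun x => S (t, x) i - ∑ j ∈ Finset.range k, v j (t, x) i)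
        (C := 4 / 3 * (1 / 4) ^ k) (Eventually.of_forall fun x => by
          rw [Real.norm_eq_abs]; exact series_bound hvb k (t, x) i)
      have b2 : eLpNorm (fun x => S (t, x) i - ∑ j ∈ Finset.range k, v j (t, x) i) 2
          (volume.restrict Ω) ≤ ENNReal.ofReal (ε / 2) := by
        refine b1.trans (le_trans (le_of_eq ?_) hk2.le)
        simp
      refine (eLpNorm_add_le ?_ ?_ (by norm_num)).trans (add_le_add (hu4 i) b2)
      · exact (h.mw i).1.sub (((continuous_apply i).comp hu1.continuous).aestronglyMeasurable)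
      · refine Continuous.aestronglyMeasurable ?_
        refine ((hSc i).comp (by fun_prop)).sub (continuous_finsetSum _ fun j _ => ?_)
        exact (hv j i).continuous.comp (by fun_prop)
    · -- gradients
      have e1 : eLpNorm (fun x => G (t, x) i l - fderiv ℝ (fun x i => u0 x i +
          ∑ j ∈ Finset.range k, v j (t, x) i) x (Pi.single l 1) i) 2 (volume.restrict Ω) =
          eLpNorm ((fun x => G0 x i l - fderiv ℝ u0 x (Pi.single l 1) i) -
            fun x => (Gi Ω T G0 (t, x) i l + ∑ j ∈ Finset.range k, gr (v j) (t, x) i l) -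
              G (t, x) i l) 2 (volume.restrict Ω) := by
        refine eLpNorm_congr_ae ?_
        filter_upwards [ae_restrict_mem hΩ.measurableSet] with x hx
        rw [s4 x l i]
        simp only [Pi.sub_apply]
        rw [hGt x hx i l]; ring
      rw [e1, hεε]
      have m1 : AEStronglyMeasurable (fun x => G0 x i l - fderiv ℝ u0 x (Pi.single l 1) i)
          (volume.restrict Ω) := by
        refine (h.mG i l).1.sub ?_
        have : Continuous (fun x => fderiv ℝ u0 x (Pi.single l 1) i) :=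
          (continuous_apply i).comp
            ((hu1.continuous_fderiv (by simp)).clm_apply continuous_const)
        exact this.aestronglyMeasurable
      have m2 : AEStronglyMeasurable (fun x => (Gi Ω T G0 (t, x) i l +
          ∑ j ∈ Finset.range k, gr (v j) (t, x) i l) - G (t, x) i l) (volume.restrict Ω) := by
        refine AEStronglyMeasurable.sub (AEStronglyMeasurable.add ?_ ?_) (h1 i l).1.restrict
        · refine (h.mG i l).1.congr ?_
          filter_upwards [ae_restrict_mem hΩ.measurableSet] with x hx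
          exact (hGt x hx i l).symm
        · refine Finset.aestronglyMeasurable_fun_sum _ fun j _ => ?_
          exact ((((hv j i).dd (ex l)).continuous).comp
            (by fun_prop : Continuous (fun x : Y => ((t, x) : X)))).aestronglyMeasurable
      refine (eLpNorm_sub_le m1 m2 (by norm_num)).trans (add_le_add (hu5 i l) ?_)
      exact (eLpNorm_restrict_le _ _ _ _).trans (hk1 i l).le

theorem exists_solution (hΩ : IsOpen Ω) (hb : Bornology.IsBounded Ω) (hT : 0 < T) {ν κ : ℝ}
    (hν : 0 ≤ ν) (hκ : 0 < κ) {f : X → Fin 3 → ℝ} (hf : ∀ i, Integrable (fun z => f z i))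
    (hfs : ∀ z, z ∉ dom Ω T → ∀ i, f z i = 0) {w0 : Y → Fin 3 → ℝ} {G0 : Y → Fin 3 → Fin 3 → ℝ}
    (h : W0 2 Ω w0 G0) (hdiv : ∀ᵐ x ∂(volume.restrict Ω), ∑ i, G0 x i i = 0) :
    ∃ (w : X → Fin 3 → ℝ) (G : X → Fin 3 → Fin 3 → ℝ), State Ω T w G ∧
      (∀ᵐ t ∂(volume.restrict (Ioo 0 T)), W0 2 Ω (fun x => w (t, x)) (fun x => G (t, x)) ∧
        ∀ᵐ x ∂(volume.restrict Ω), ∑ i, G (t, x) i i = 0) ∧
      (∃ C : ℝ, ∀ t ∈ Ioo 0 T, ∀ i,
        eLpNorm (fun x => w (t, x) i) 2 (volume.restrict Ω) ≤ ENNReal.ofReal C) ∧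
      ∀ φ, Test Ω T φ → Nf ν κ f w G φ = ∫ x in Ω, ∑ i, w0 x i * φ (0, x) i := by
  classical
  obtain ⟨L, hL, hLΩ⟩ := exists_shift hb
  obtain ⟨E, hE⟩ := init_small (ν := ν) (κ := κ) hΩ hb hT hL hLΩ hf hfs h
  have st := init_state (T := T) hΩ h
  obtain ⟨v, M, E', hM, hE', hv, hvd, hvb, hvg, hst, hsm⟩ := iterate (ν := ν) (κ := κ) (f := f)
    (b := fun ψ => ∫ x in Ω, ∑ i, w0 x i * ψ (0, x) i) hΩ hb hL hLΩ hν hκ st hE
  have hDm := measurableSet_dom hΩ T
  have hvol := vol_dom hb T
  -- the limit of the gradients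
  have hlim : ∀ i l, ∃ (F : X → ℝ) (C : ℝ), 0 ≤ C ∧ MemLp F 2 ∧ (∀ z, z ∉ dom Ω T → F z = 0) ∧
      ∀ k, eLpNorm (fun z => (Gi Ω T G0 z i l + ∑ j ∈ Finset.range k, gr (v j) z i l) - F z) 2
        volume ≤ ENNReal.ofReal (C * (1 / 2) ^ k) := fun i l =>
    L2lim hDm (f := fun k z => Gi Ω T G0 z i l + ∑ j ∈ Finset.range k, gr (v j) z i l)
      (g := fun k z => gr (v k) z i l) (fun k => (hst k).mG i l) (fun k z hz => (hst k).sG z hz i l)
      (fun k => ((hv k i).dd (ex l)).memLp) (fun k z => by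
        simp only [Finset.sum_range_succ]; ring) hM (fun k => hvg k i l)
  choose F CF hCF hFm hFs hFl using hlim
  set G : X → Fin 3 → Fin 3 → ℝ := fun z i l => F i l z with hG
  set S : X → Fin 3 → ℝ := fun z i => ∑' j, v j z i with hS
  have hSc : ∀ i, Continuous (fun z => S z i) := fun i =>
    series_cont hvb (fun k i => (hv k i).continuous) i
  have hSb : ∀ z i, |S z i| ≤ 4 / 3 := fun z i => by
    have := series_bound hvb 0 z i
    simpa using this
  have hSs : ∀ z, z ∉ dom Ω T → ∀ i, S z i = 0 := fun z hz i => by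
    have : ∀ j, v j z i = 0 := fun j => (hv j i).zero hz
    simp [hS, this]
  set w : X → Fin 3 → ℝ := fun z i => Wi Ω T w0 z i + S z i with hw
  have hSm : ∀ i, MemLp (fun z => S z i) 2 := by
    intro i
    have h1 : (fun z => S z i) = (dom Ω T).indicator (fun z => S z i) := by
      ext z
      by_cases hz : z ∈ dom Ω T
      · rw [indicator_of_mem hz]
      · rw [indicator_of_notMem hz, hSs z hz i]
    rw [h1, memLp_indicator_iff_restrict hDm]
    have hfin : IsFiniteMeasure (volume.restrict (dom Ω T)) :=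
      ⟨by rwa [Measure.restrict_apply_univ]⟩
    exact MemLp.of_bound (hSc i).aestronglyMeasurable (4 / 3)
      (Eventually.of_forall fun z => by rw [Real.norm_eq_abs]; exact hSb z i)
  have hstate : State Ω T w G := by
    refine ⟨fun i => (st.mw i).add (hSm i), fun i l => hFm i l, fun z hz i => ?_,
      fun z hz i l => hFs i l z hz⟩
    simp only [hw]
    rw [st.sw z hz i, hSs z hz i, add_zero]
  -- convergence of the fields
  have hwk : ∀ i, Tendsto (fun k => eLpNorm (fun z => (Wi Ω T w0 z i +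
      ∑ j ∈ Finset.range k, v j z i) - w z i) 2 volume) atTop (𝓝 0) := by
    intro i
    have hle : ∀ k, eLpNorm (fun z => (Wi Ω T w0 z i + ∑ j ∈ Finset.range k, v j z i) - w z i) 2
        volume ≤ volume (dom Ω T) ^ (2⁻¹ : ℝ) * ENNReal.ofReal (4 / 3 * (1 / 4) ^ k) := by
      intro k
      have e1 : (fun z => (Wi Ω T w0 z i + ∑ j ∈ Finset.range k, v j z i) - w z i) =
          (dom Ω T).indicator (fun z => (∑ j ∈ Finset.range k, v j z i) - S z i) := by
        ext z
        by_cases hz : z ∈ dom Ω T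
        · rw [indicator_of_mem hz]; simp only [hw]; ring
        · rw [indicator_of_notMem hz]
          simp only [hw]
          rw [hSs z hz i, Finset.sum_eq_zero (fun j _ => (hv j i).zero hz)]; ring
      rw [e1, eLpNorm_indicator_eq_eLpNorm_restrict hDm]
      have := eLpNorm_le_of_ae_bound (p := 2) (μ := volume.restrict (dom Ω T))
        (f := fun z => (∑ j ∈ Finset.range k, v j z i) - S z i) (C := 4 / 3 * (1 / 4) ^ k)
        (Eventually.of_forall fun z => by
          rw [Real.norm_eq_abs, abs_sub_comm]; exact series_bound hvb k z i)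
      simpa using this
    have hlim : Tendsto (fun k : ℕ => volume (dom Ω T) ^ (2⁻¹ : ℝ) *
        ENNReal.ofReal (4 / 3 * (1 / 4) ^ k)) atTop (𝓝 0) := by
      have h1 : Tendsto (fun k : ℕ => ENNReal.ofReal (4 / 3 * (1 / 4) ^ k)) atTop (𝓝 0) := by
        have h2 := (tendsto_pow_atTop_nhds_zero_of_lt_one (r := (1 / 4 : ℝ)) (by norm_num)
          (by norm_num)).const_mul (4 / 3)
        rw [mul_zero] at h2
        simpa using ENNReal.tendsto_ofReal h2
      have h3 := ENNReal.Tendsto.const_mul (a := volume (dom Ω T) ^ (2⁻¹ : ℝ)) h1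
        (Or.inr (ENNReal.rpow_ne_top_of_nonneg (by norm_num) hvol.ne))
      simpa using h3
    exact tendsto_of_tendsto_of_tendsto_of_le_of_le tendsto_const_nhds hlim (fun _ => zero_le) hle
  have hofReal : ∀ C : ℝ, Tendsto (fun k : ℕ => ENNReal.ofReal (C * (1 / 2) ^ k)) atTop (𝓝 0) := by
    intro C
    have h2 := (tendsto_pow_atTop_nhds_zero_of_lt_one (r := (1 / 2 : ℝ)) (by norm_num)
      (by norm_num)).const_mul C
    rw [mul_zero] at h2
    simpa using ENNReal.tendsto_ofReal h2
  have hGk : ∀ i l, Tendsto (fun k => eLpNorm (fun z => (Gi Ω T G0 z i l +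
      ∑ j ∈ Finset.range k, gr (v j) z i l) - G z i l) 2 volume) atTop (𝓝 0) := fun i l =>
    tendsto_of_tendsto_of_tendsto_of_le_of_le tendsto_const_nhds (hofReal (CF i l))
      (fun _ => zero_le) (hFl i l)
  -- the divergence
  have hdiv0 : ∀ᵐ z : X, ∑ i, Gi Ω T G0 z i i = 0 := by
    have h1 : ∀ᵐ z ∂((volume : Measure X).restrict (dom Ω T)), ∑ i, G0 z.2 i i = 0 := by
      rw [vol_restrict_dom]
      exact Measure.quasiMeasurePreserving_snd.ae hdiv
    have h2 := (ae_restrict_iff' hDm).1 h1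
    filter_upwards [h2] with z hz
    by_cases hzD : z ∈ dom Ω T
    · have := hz hzD
      unfold Gi ext0
      simp only [indicator_of_mem hzD]
      exact this
    · refine Finset.sum_eq_zero fun i _ => ext0_supp _ hzD
  have hdivG : ∀ᵐ z : X, ∑ i, G z i i = 0 := by
    have hm : AEStronglyMeasurable (fun z => ∑ i, G z i i) (volume : Measure X) := by
      refine Finset.aestronglyMeasurable_fun_sum _ fun i _ => (hFm i i).1
    have h0 : eLpNorm (fun z => ∑ i, G z i i) 2 (volume : Measure X) = 0 := by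
      have hle : ∀ k, eLpNorm (fun z => ∑ i, G z i i) 2 (volume : Measure X) ≤
          ∑ i, eLpNorm (fun z => (Gi Ω T G0 z i i +
            ∑ j ∈ Finset.range k, gr (v j) z i i) - G z i i) 2 volume := by
        intro k
        have e1 : eLpNorm (fun z => ∑ i, G z i i) 2 (volume : Measure X) =
            eLpNorm (∑ i, fun z => (Gi Ω T G0 z i i +
              ∑ j ∈ Finset.range k, gr (v j) z i i) - G z i i) 2 (volume : Measure X) := by
          rw [← eLpNorm_neg]
          refine eLpNorm_congr_ae ?_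
          filter_upwards [hdiv0] with z hz
          simp only [Pi.neg_apply, Finset.sum_apply, Finset.sum_sub_distrib,
            Finset.sum_add_distrib, hz]
          rw [Finset.sum_comm]
          simp only [hvd, Finset.sum_const_zero]
          ring
        rw [e1]
        exact eLpNorm_sum_le (fun i _ => (((hst k).mG i i).sub (hFm i i)).1) (by norm_num)
      have hlim : Tendsto (fun k => ∑ i, eLpNorm (fun z => (Gi Ω T G0 z i i +
            ∑ j ∈ Finset.range k, gr (v j) z i i) - G z i i) 2 volume) atTop (𝓝 0) := by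
        have := tendsto_finsetSum (Finset.univ : Finset (Fin 3)) fun i _ => hGk i i
        simpa using this
      exact le_antisymm (ge_of_tendsto' hlim hle) (zero_le)
    exact (eLpNorm_eq_zero_iff hm (by norm_num)).1 h0
  refine ⟨w, G, hstate, ?_, ?_, fun φ hφ => limit_eq hst hstate hwk hGk hsm hφ⟩
  · -- slices
    have a1 : ∀ᵐ t : ℝ, ∀ i l, MemLp (fun x : Y => G (t, x) i l) 2 := by
      simp only [ae_all_iff]
      exact fun i l => slice_memLp (hFm i l)
    have a2 : ∀ᵐ t : ℝ, ∀ i l, Tendsto (fun k => eLpNorm (fun x : Y => (Gi Ω T G0 (t, x) i l +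
        ∑ j ∈ Finset.range k, gr (v j) (t, x) i l) - G (t, x) i l) 2 volume) atTop (𝓝 0) := by
      simp only [ae_all_iff]
      exact fun i l => slice_conv (g := fun k z => (Gi Ω T G0 z i l +
        ∑ j ∈ Finset.range k, gr (v j) z i l) - G z i l)
        (fun k => (((hst k).mG i l).sub (hFm i l)).1) (hCF i l) (hFl i l)
    have a3 : ∀ᵐ t : ℝ, ∀ᵐ x : Y, ∑ i, G (t, x) i i = 0 := by
      have h1 : ∀ᵐ z ∂((volume : Measure ℝ).prod (volume : Measure Y)), ∑ i, G z i i = 0 := hdivG
      exact Measure.ae_ae_of_ae_prod h1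
    have hfinΩ : IsFiniteMeasure ((volume : Measure Y).restrict Ω) :=
      ⟨by rw [Measure.restrict_apply_univ]; exact vol_lt_top hb⟩
    filter_upwards [ae_restrict_of_ae a1, ae_restrict_of_ae a2, ae_restrict_of_ae a3,
      ae_restrict_mem measurableSet_Ioo] with t h1 h2 h3 ht
    exact ⟨slice_member hΩ hb h hv hvb ht h1 h2, ae_restrict_of_ae h3⟩
  · -- boundedness in time
    have hfinΩ : IsFiniteMeasure ((volume : Measure Y).restrict Ω) :=
      ⟨by rw [Measure.restrict_apply_univ]; exact vol_lt_top hb⟩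
    set B : Fin 3 → ℝ≥0∞ := fun i => eLpNorm (fun x => w0 x i) 2 (volume.restrict Ω) +
      (volume.restrict Ω) (univ : Set Y) ^ (2⁻¹ : ℝ) * ENNReal.ofReal (4 / 3) with hB
    have hBf : ∀ i, B i ≠ ⊤ := fun i => ENNReal.add_ne_top.2 ⟨(h.mw i).2.ne,
      ENNReal.mul_ne_top (ENNReal.rpow_ne_top_of_nonneg (by norm_num) (measure_ne_top _ _))
        ENNReal.ofReal_ne_top⟩
    refine ⟨∑ i, (B i).toReal, fun t ht i => ?_⟩
    have hWt : ∀ x ∈ Ω, w (t, x) i = w0 x i + S (t, x) i := by
      intro x hx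
      simp only [hw]
      unfold Wi ext0
      rw [indicator_of_mem (show ((t, x) : X) ∈ dom Ω T from ⟨ht, hx⟩)]
    have e1 : eLpNorm (fun x => w (t, x) i) 2 (volume.restrict Ω) =
        eLpNorm ((fun x => w0 x i) + fun x => S (t, x) i) 2 (volume.restrict Ω) := by
      refine eLpNorm_congr_ae ?_
      filter_upwards [ae_restrict_mem hΩ.measurableSet] with x hx
      rw [hWt x hx]; rfl
    rw [e1]
    have b1 := eLpNorm_le_of_ae_bound (p := 2) (μ := volume.restrict Ω)
      (f := fun x => S (t, x) i) (C := 4 / 3) (Eventually.of_forall fun x => by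
        rw [Real.norm_eq_abs]; exact hSb (t, x) i)
    have b2 : eLpNorm ((fun x => w0 x i) + fun x => S (t, x) i) 2 (volume.restrict Ω) ≤ B i := by
      refine (eLpNorm_add_le (h.mw i).1
        (((hSc i).comp (by fun_prop)).aestronglyMeasurable) (by norm_num)).trans ?_
      refine add_le_add le_rfl (b1.trans (le_of_eq ?_))
      simp
    refine b2.trans ?_
    rw [← ENNReal.ofReal_toReal (hBf i)]
    exact ENNReal.ofReal_le_ofReal (Finset.single_le_sum (f := fun i => (B i).toReal)
      (fun _ _ => ENNReal.toReal_nonneg) (Finset.mem_univ i))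

end Pool.Agent.J6H20.LES
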