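import Pool.Agent.J6H20.LES.Step

set_option autoImplicit false

open MeasureTheory Set Filter Topology
open scoped ContDiff ENNReal NNReal Manifold

namespace Pool.Agent.J6H20.LES

/-- Functions on space. -/
abbrev Y := Fin 3 → ℝ

/-- The pair `(w, G)` lies in `W^{1,p}_0(Ω)` and `G` is the gradient of `w`. -/
structure W0 (p : ℝ≥0∞) (Ω : Set Y) (w : Y → Fin 3 → ℝ) (G : Y → Fin 3 → Fin 3 → ℝ) : Prop where
  mw : ∀ i, MemLp (fun x => w x i) p (volume.restrict Ω)
  mG : ∀ i l, MemLp (fun x => G x i l) p (volume.restrict Ω)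
  app : ∀ ε : ℝ, 0 < ε → ∃ u : Y → Fin 3 → ℝ, ContDiff ℝ ∞ u ∧ HasCompactSupport u ∧
    tsupport u ⊆ Ω ∧
    (∀ i, eLpNorm (fun x => w x i - u x i) p (volume.restrict Ω) ≤ ENNReal.ofReal ε) ∧
    (∀ i l, eLpNorm (fun x => G x i l - fderiv ℝ u x (Pi.single l 1) i) p (volume.restrict Ω) ≤
      ENNReal.ofReal ε)

variable {Ω : Set Y} {T : ℝ}

theorem vol_lt_top (hb : Bornology.IsBounded Ω) : volume Ω < ⊤ := hb.measure_lt_top

/-- `W^{1,p}_0 ⊆ W^{1,q}_0` for `q ≤ p` on bounded sets. -/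
theorem W0.mono {p q : ℝ≥0∞} (hq0 : q ≠ 0) (hqt : q ≠ ⊤) (hp : q ≤ p)
    (hb : Bornology.IsBounded Ω) {w : Y → Fin 3 → ℝ}
    {G : Y → Fin 3 → Fin 3 → ℝ} (h : W0 p Ω w G) : W0 q Ω w G := by
  have hfin : IsFiniteMeasure (volume.restrict Ω) :=
    ⟨by rw [Measure.restrict_apply_univ]; exact vol_lt_top hb⟩
  set C : ℝ≥0∞ := (volume.restrict Ω) univ ^ (1 / q.toReal - 1 / p.toReal) with hC
  have hCfin : C ≠ ⊤ := by
    refine ENNReal.rpow_ne_top_of_nonneg ?_ (measure_ne_top _ _)
    rcases eq_or_ne p ⊤ with rfl | hpt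
    · simp
    · have h2 : q.toReal ≤ p.toReal := ENNReal.toReal_mono hpt hp
      have : 1 / p.toReal ≤ 1 / q.toReal :=
        one_div_le_one_div_of_le (ENNReal.toReal_pos hq0 hqt) h2
      linarith
  have key : ∀ {g : Y → ℝ}, AEStronglyMeasurable g (volume.restrict Ω) → ∀ ε : ℝ, 0 < ε →
      eLpNorm g p (volume.restrict Ω) ≤ ENNReal.ofReal (ε / (C.toReal + 1)) →
      eLpNorm g q (volume.restrict Ω) ≤ ENNReal.ofReal ε := by
    intro g hg ε hε hle
    refine (eLpNorm_le_eLpNorm_mul_rpow_measure_univ hp hg).trans ?_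
    rw [← hC]
    have hC0 : 0 ≤ C.toReal := ENNReal.toReal_nonneg
    calc eLpNorm g p (volume.restrict Ω) * C
        ≤ ENNReal.ofReal (ε / (C.toReal + 1)) * ENNReal.ofReal (C.toReal) := by
          rw [ENNReal.ofReal_toReal hCfin]
          exact mul_le_mul_left hle C
      _ = ENNReal.ofReal (ε / (C.toReal + 1) * C.toReal) := by
          rw [ENNReal.ofReal_mul (by positivity)]
      _ ≤ ENNReal.ofReal ε := by
          refine ENNReal.ofReal_le_ofReal ?_
          rw [div_mul_eq_mul_div, div_le_iff₀ (by positivity)]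
          nlinarith
  refine ⟨fun i => (h.mw i).mono_exponent hp, fun i l => (h.mG i l).mono_exponent hp,
    fun ε hε => ?_⟩
  obtain ⟨u, hu1, hu2, hu3, hu4, hu5⟩ := h.app (ε / (C.toReal + 1)) (by
    have : 0 ≤ C.toReal := ENNReal.toReal_nonneg
    positivity)
  refine ⟨u, hu1, hu2, hu3, fun i => key ?_ ε hε (hu4 i), fun i l => key ?_ ε hε (hu5 i l)⟩
  · exact (h.mw i).1.sub (((continuous_apply i).comp hu1.continuous).aestronglyMeasurable)
  · refine (h.mG i l).1.sub ?_
    have : Continuous (fun x => fderiv ℝ u x (Pi.single l 1) i) :=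
      (continuous_apply i).comp
        ((hu1.continuous_fderiv (by simp)).clm_apply continuous_const)
    exact this.aestronglyMeasurable

/-- extension of a spatial function to space-time -/
noncomputable def ext0 (Ω : Set Y) (T : ℝ) (g : Y → ℝ) : X → ℝ :=
  (dom Ω T).indicator (fun z => g z.2)

theorem vol_restrict_dom (Ω : Set Y) (T : ℝ) :
    (volume : Measure X).restrict (dom Ω T) =
      ((volume : Measure ℝ).restrict (Ioo 0 T)).prod ((volume : Measure Y).restrict Ω) := by
  rw [Measure.prod_restrict]; rfl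

theorem finT (T : ℝ) : IsFiniteMeasure ((volume : Measure ℝ).restrict (Ioo 0 T)) :=
  ⟨by rw [Measure.restrict_apply_univ, Real.volume_Ioo]; exact ENNReal.ofReal_lt_top⟩

theorem memLp_ext0 (hΩ : IsOpen Ω) {g : Y → ℝ} {p : ℝ≥0∞}
    (hg : MemLp g p (volume.restrict Ω)) : MemLp (ext0 Ω T g) p := by
  unfold ext0
  rw [memLp_indicator_iff_restrict (measurableSet_dom hΩ T), vol_restrict_dom]
  have := finT T
  exact hg.comp_snd _

theorem int_ext0 (hΩ : IsOpen Ω) {g : Y → ℝ} (hg : Integrable g (volume.restrict Ω)) :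
    Integrable (ext0 Ω T g) := by
  rw [← memLp_one_iff_integrable] at hg ⊢
  exact memLp_ext0 hΩ hg

theorem int_abs_ext0 (hΩ : IsOpen Ω) (hT : 0 ≤ T) (g : Y → ℝ) :
    ∫ z, |ext0 Ω T g z| = T * ∫ x in Ω, |g x| := by
  have h1 : ∀ z, |ext0 Ω T g z| = (dom Ω T).indicator (fun z => |g z.2|) z := by
    intro z
    unfold ext0
    by_cases hz : z ∈ dom Ω T
    · simp [indicator_of_mem hz]
    · simp [indicator_of_notMem hz]
  simp only [h1]
  rw [integral_indicator (measurableSet_dom hΩ T), vol_restrict_dom,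
    integral_fun_snd (fun x => |g x|)]
  simp [measureReal_def, hT]

/-- smooth cutoff in any finite dimensional space -/
theorem exists_cutoff' {E : Type*} [NormedAddCommGroup E] [NormedSpace ℝ E]
    [FiniteDimensional ℝ E] {K D : Set E} (hK : IsCompact K) (hD : IsOpen D) (hKD : K ⊆ D) :
    ∃ χ : E → ℝ, ContDiff ℝ ∞ χ ∧ HasCompactSupport χ ∧ tsupport χ ⊆ D ∧ (∀ z ∈ K, χ z = 1) ∧
      ∀ z, 0 ≤ χ z ∧ χ z ≤ 1 := by
  obtain ⟨V, hV, hKV, hVD, hVc⟩ := exists_open_between_and_isCompact_closure hK hD hKD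
  obtain ⟨f, hf0, hf1, hf⟩ := exists_contMDiffMap_zero_one_of_isClosed (n := (⊤ : ℕ∞)) 𝓘(ℝ, E)
    (s := Vᶜ) (t := K) hV.isClosed_compl hK.isClosed
    (disjoint_left.2 fun x hx hx' => hx (hKV hx'))
  have hsup : tsupport (fun z => f z) ⊆ closure V := by
    refine closure_mono fun z hz => ?_
    by_contra hzV
    exact hz (hf0 hzV)
  refine ⟨fun z => f z, ?_, ?_, hsup.trans hVD, fun z hz => hf1 hz, fun z => ?_⟩
  · exact contMDiff_iff_contDiff.1 f.contMDiff
  · exact hVc.of_isClosed_subset (isClosed_tsupport _) hsup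
  · exact hf z

/-- time cutoff -/
theorem time_cutoff {T τ : ℝ} (hT : 0 < T) (hτ : 0 < τ) :
    ∃ η : ℝ → ℝ, ContDiff ℝ ∞ η ∧ HasCompactSupport η ∧ tsupport η ⊆ Ioo 0 T ∧
      (∀ t, 0 ≤ η t ∧ η t ≤ 1) ∧ ∫ t in Ioo 0 T, (1 - η t) ≤ τ := by
  set s : ℝ := min (τ / 2) (T / 4) with hs
  have hs0 : 0 < s := lt_min (by positivity) (by positivity)
  have hs1 : s ≤ τ / 2 := min_le_left _ _
  have hs2 : s ≤ T / 4 := min_le_right _ _
  have hsub : Icc s (T - s) ⊆ Ioo 0 T := fun t ht => ⟨by linarith [ht.1], by linarith [ht.2]⟩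
  obtain ⟨η, h1, h2, h3, h4, h5⟩ := exists_cutoff' (isCompact_Icc (a := s) (b := T - s))
    isOpen_Ioo hsub
  refine ⟨η, h1, h2, h3, h5, ?_⟩
  have hfin := finT T
  have hi : Integrable (fun t => 1 - η t) (volume.restrict (Ioo 0 T)) :=
    (integrable_const _).sub ((h1.continuous.integrable_of_hasCompactSupport h2).restrict)
  calc ∫ t in Ioo 0 T, (1 - η t)
      ≤ ∫ t in Ioo 0 T, (Icc s (T - s))ᶜ.indicator (fun _ => (1 : ℝ)) t := by
        refine integral_mono hi ((integrable_const _).indicator measurableSet_Icc.compl)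
          fun t => ?_
        by_cases ht : t ∈ Icc s (T - s)
        · rw [indicator_of_notMem (by simpa using ht)]
          simp only
          rw [h4 t ht]; simp
        · rw [indicator_of_mem (by exact ht)]
          simp only
          linarith [(h5 t).1]
    _ = (volume.restrict (Ioo 0 T)).real (Icc s (T - s))ᶜ := by
        rw [integral_indicator measurableSet_Icc.compl]
        simp
    _ ≤ τ := by
        rw [measureReal_compl measurableSet_Icc]
        rw [measureReal_restrict_apply measurableSet_Icc, inter_eq_left.2 hsub,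
          measureReal_restrict_apply MeasurableSet.univ, univ_inter]
        simp only [measureReal_def, Real.volume_Ioo, Real.volume_Icc]
        rw [ENNReal.toReal_ofReal (by linarith), ENNReal.toReal_ofReal (by linarith)]
        linarith

end Pool.Agent.J6H20.LES
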