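import Pool.Agent.J6H20.LES.Init

set_option autoImplicit false

open MeasureTheory Set Filter Topology
open scoped ContDiff ENNReal NNReal

namespace Pool.Agent.J6H20.LES

variable {Ω : Set Y} {T : ℝ}

theorem cc_prod {η : ℝ → ℝ} (h1 : ContDiff ℝ ∞ η) (h2 : HasCompactSupport η)
    (h3 : tsupport η ⊆ Ioo 0 T) {u : Y → ℝ} (g1 : ContDiff ℝ ∞ u) (g2 : HasCompactSupport u)
    (g3 : tsupport u ⊆ Ω) : Cc (dom Ω T) (fun z => η z.1 * u z.2) := by
  have hK : IsCompact (tsupport η ×ˢ tsupport u) := h2.isCompact.prod g2.isCompact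
  have hsup : tsupport (fun z : X => η z.1 * u z.2) ⊆ tsupport η ×ˢ tsupport u := by
    refine closure_minimal ?_ hK.isClosed
    intro z hz
    simp only [Function.mem_support] at hz
    exact ⟨subset_tsupport _ (left_ne_zero_of_mul hz), subset_tsupport _ (right_ne_zero_of_mul hz)⟩
  exact ⟨(h1.comp contDiff_fst).mul (g1.comp contDiff_snd),
    hK.of_isClosed_subset (isClosed_tsupport _) hsup, hsup.trans (prod_mono h3 g3)⟩

theorem dd_prod {η : ℝ → ℝ} (h1 : Differentiable ℝ η) {u : Y → ℝ} (g1 : Differentiable ℝ u)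
    (l : Fin 3) (z : X) : dd (ex l) (fun z => η z.1 * u z.2) z =
      η z.1 * fderiv ℝ u z.2 (Pi.single l 1) := by
  have e1 : HasFDerivAt (fun z : X => η z.1)
      ((fderiv ℝ η z.1).comp (ContinuousLinearMap.fst ℝ ℝ Y)) z :=
    (h1 z.1).hasFDerivAt.comp z (ContinuousLinearMap.fst ℝ ℝ Y).hasFDerivAt
  have e2 : HasFDerivAt (fun z : X => u z.2)
      ((fderiv ℝ u z.2).comp (ContinuousLinearMap.snd ℝ ℝ Y)) z :=
    (g1 z.2).hasFDerivAt.comp z (ContinuousLinearMap.snd ℝ ℝ Y).hasFDerivAt
  have d1 : Differentiable ℝ (fun z : X => η z.1) := h1.comp differentiable_fst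
  have d2 : Differentiable ℝ (fun z : X => u z.2) := g1.comp differentiable_snd
  rw [dd_mul d1 d2]
  unfold dd
  have e1' : fderiv ℝ (fun z : X => η z.1) z = (fderiv ℝ η z.1).comp
    (ContinuousLinearMap.fst ℝ ℝ Y) := e1.fderiv
  have e2' : fderiv ℝ (fun z : X => u z.2) z = (fderiv ℝ u z.2).comp
    (ContinuousLinearMap.snd ℝ ℝ Y) := e2.fderiv
  rw [e1', e2']
  simp [ex]

theorem fderiv_comp_apply {u : Y → Fin 3 → ℝ} (hu : ContDiff ℝ ∞ u) (x v : Y) (i : Fin 3) :
    fderiv ℝ (fun x => u x i) x v = fderiv ℝ u x v i := by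
  have h := (hu.differentiable (by simp) x)
  rw [fderiv_apply h]
  rfl

/-- Approximation of a time-independent gradient by gradients of smooth fields. -/
theorem approx_grad (hΩ : IsOpen Ω) (hT : 0 < T)
    {w0 : Y → Fin 3 → ℝ} {G0 : Y → Fin 3 → Fin 3 → ℝ} (h : W0 1 Ω w0 G0) {ε : ℝ} (hε : 0 < ε) :
    ∃ v : X → Fin 3 → ℝ, (∀ i, Cc (dom Ω T) (fun z => v z i)) ∧
      ∀ i l, ∫ z, |ext0 Ω T (fun x => G0 x i l) z - gr v z i l| ≤ ε := by
  obtain ⟨u, hu1, hu2, hu3, _, hu5⟩ := h.app (ε / (2 * T)) (by positivity)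
  have hui : ∀ i, ContDiff ℝ ∞ (fun x => u x i) := fun i => contDiff_pi.1 hu1 i
  have hucs : ∀ i, HasCompactSupport (fun x => u x i) := fun i => by
    refine HasCompactSupport.intro (K := tsupport u) hu2 fun x hx => ?_
    have : u x = 0 := image_eq_zero_of_notMem_tsupport hx
    rw [this]; rfl
  have husup : ∀ i, tsupport (fun x => u x i) ⊆ Ω := fun i => by
    refine (closure_mono ?_).trans hu3
    intro x hx
    simp only [Function.mem_support] at hx ⊢
    intro h0
    exact hx (by rw [h0]; rfl)
  set du : Fin 3 → Fin 3 → Y → ℝ := fun i l x => fderiv ℝ u x (Pi.single l 1) i with hdu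
  have hduc : ∀ i l, Continuous (du i l) := fun i l =>
    (continuous_apply i).comp ((hu1.continuous_fderiv (by simp)).clm_apply continuous_const)
  have hducs : ∀ i l, HasCompactSupport (du i l) := fun i l => by
    refine HasCompactSupport.intro (K := tsupport u) hu2 fun x hx => ?_
    have : fderiv ℝ u x = 0 := by
      have := tsupport_fderiv_subset ℝ (f := u)
      exact image_eq_zero_of_notMem_tsupport (fun h => hx (this h))
    simp only [hdu]
    rw [this]; simp
  have hdui : ∀ i l, Integrable (du i l) := fun i l =>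
    (hduc i l).integrable_of_hasCompactSupport (hducs i l)
  set M : ℝ := ∑ i, ∑ l, ∫ x in Ω, |du i l x| with hM
  have hM0 : 0 ≤ M := Finset.sum_nonneg fun _ _ => Finset.sum_nonneg fun _ _ =>
    integral_nonneg fun _ => abs_nonneg _
  obtain ⟨η, t1, t2, t3, t4, t5⟩ := time_cutoff hT (show 0 < ε / (2 * (M + 1)) by positivity)
  have hv : ∀ i, Cc (dom Ω T) (fun z : X => η z.1 * u z.2 i) := fun i =>
    cc_prod t1 t2 t3 (hui i) (hucs i) (husup i)
  refine ⟨fun z i => η z.1 * u z.2 i, hv, fun i l => ?_⟩
  have hgr : ∀ z, gr (fun z i => η z.1 * u z.2 i) z i l = η z.1 * du i l z.2 := by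
    intro z
    unfold gr
    rw [dd_prod (t1.differentiable (by simp)) ((hui i).differentiable (by simp)) l z,
      fderiv_comp_apply hu1]
  have hfin := finT T
  have iGd : Integrable (fun x => |G0 x i l - du i l x|) (volume.restrict Ω) :=
    ((memLp_one_iff_integrable.1 (h.mG i l)).sub (hdui i l).restrict).abs
  have i1 : Integrable (ext0 Ω T (fun x => |G0 x i l - du i l x|)) := int_ext0 hΩ iGd
  have iη : Integrable (fun t => 1 - η t) (volume.restrict (Ioo 0 T)) :=
    (integrable_const _).sub ((t1.continuous.integrable_of_hasCompactSupport t2).restrict)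
  have i2 : Integrable ((dom Ω T).indicator (fun z : X => (1 - η z.1) * |du i l z.2|)) := by
    rw [integrable_indicator_iff (measurableSet_dom hΩ T), IntegrableOn, vol_restrict_dom]
    exact iη.mul_prod (hdui i l).restrict.abs
  have i3 : Integrable (fun z => ext0 Ω T (fun x => G0 x i l) z -
      gr (fun z i => η z.1 * u z.2 i) z i l) :=
    (int_ext0 hΩ (memLp_one_iff_integrable.1 (h.mG i l))).sub ((hv i).dd (ex l)).integrable
  calc ∫ z, |ext0 Ω T (fun x => G0 x i l) z - gr (fun z i => η z.1 * u z.2 i) z i l|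
      ≤ ∫ z, (ext0 Ω T (fun x => |G0 x i l - du i l x|) z +
        (dom Ω T).indicator (fun z : X => (1 - η z.1) * |du i l z.2|) z) := by
        refine integral_mono i3.abs (i1.add i2) fun z => ?_
        by_cases hz : z ∈ dom Ω T
        · unfold ext0
          simp only [indicator_of_mem hz]
          rw [hgr]
          have e1 : G0 z.2 i l - η z.1 * du i l z.2 = (G0 z.2 i l - du i l z.2) +
              (1 - η z.1) * du i l z.2 := by ring
          rw [e1]
          refine (abs_add_le _ _).trans (le_of_eq ?_)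
          rw [abs_mul, abs_of_nonneg (show 0 ≤ 1 - η z.1 by linarith [(t4 z.1).2])]
        · have e0 : gr (fun z i => η z.1 * u z.2 i) z i l = 0 := ((hv i).dd (ex l)).zero hz
          unfold ext0
          simp only [indicator_of_notMem hz]
          rw [e0]; simp
    _ = (∫ z, ext0 Ω T (fun x => |G0 x i l - du i l x|) z) +
        ∫ z, (dom Ω T).indicator (fun z : X => (1 - η z.1) * |du i l z.2|) z :=
        integral_add i1 i2
    _ ≤ ε / 2 + ε / 2 := by
        refine add_le_add ?_ ?_
        · have e1 : ∫ z, ext0 Ω T (fun x => |G0 x i l - du i l x|) z =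
              ∫ z, |ext0 Ω T (fun x => |G0 x i l - du i l x|) z| := by
            congr 1; ext z
            rw [abs_of_nonneg]
            unfold ext0
            exact indicator_nonneg (fun _ _ => abs_nonneg _) z
          rw [e1, int_abs_ext0 hΩ hT.le]
          have e2 : ∫ x in Ω, |(|G0 x i l - du i l x|)| ≤ ε / (2 * T) := by
            simp only [abs_abs]
            have hd : Integrable (fun x => G0 x i l - du i l x) (volume.restrict Ω) :=
              (memLp_one_iff_integrable.1 (h.mG i l)).sub (hdui i l).restrict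
            have h1 := eLpNorm_one_eq_lintegral_enorm (f := fun x => G0 x i l - du i l x)
              (μ := volume.restrict Ω)
            have h2 := integral_norm_eq_lintegral_enorm hd.1
            simp only [Real.norm_eq_abs] at h2
            rw [h2, ← h1]
            exact ENNReal.toReal_le_of_le_ofReal (by positivity) (hu5 i l)
          calc T * ∫ x in Ω, |(|G0 x i l - du i l x|)| ≤ T * (ε / (2 * T)) :=
                mul_le_mul_of_nonneg_left e2 hT.le
            _ = ε / 2 := by field_simp
        · rw [integral_indicator (measurableSet_dom hΩ T), vol_restrict_dom,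
            integral_prod_mul (fun t => 1 - η t) (fun x => |du i l x|)]
          have e3 : ∫ x in Ω, |du i l x| ≤ M := by
            have h1 : ∫ x in Ω, |du i l x| ≤ ∑ l, ∫ x in Ω, |du i l x| :=
              Finset.single_le_sum (f := fun l => ∫ x in Ω, |du i l x|)
                (fun _ _ => integral_nonneg fun _ => abs_nonneg _) (Finset.mem_univ l)
            have h2 : ∑ l, ∫ x in Ω, |du i l x| ≤ M :=
              Finset.single_le_sum (f := fun i => ∑ l, ∫ x in Ω, |du i l x|)
                (fun _ _ => Finset.sum_nonneg fun _ _ => integral_nonneg fun _ => abs_nonneg _)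
                (Finset.mem_univ i)
            exact h1.trans h2
          have e4 : 0 ≤ ∫ x in Ω, |du i l x| := integral_nonneg fun _ => abs_nonneg _
          calc (∫ t in Ioo 0 T, (1 - η t)) * ∫ x in Ω, |du i l x|
              ≤ ε / (2 * (M + 1)) * M := mul_le_mul t5 e3 e4 (by positivity)
            _ ≤ ε / 2 := by
              rw [div_mul_eq_mul_div, div_le_div_iff₀ (by positivity) (by norm_num)]
              nlinarith
    _ = ε := by ring

theorem transpose0 (hΩ : IsOpen Ω) (hT : 0 < T)
    {w0 : Y → Fin 3 → ℝ} {G0 : Y → Fin 3 → Fin 3 → ℝ} (h : W0 1 Ω w0 G0) {φ : X → Fin 3 → ℝ}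
    (hφ : Test Ω T φ) :
    ∑ i, ∑ l, ∫ z, ext0 Ω T (fun x => G0 x l i) z * dd (ex l) (fun y => φ y i) z = 0 := by
  choose C hC0 hC using fun i l => ((hφ.comp i).dd (ex l)).bdd
  set S : ℝ := ∑ i, ∑ l, ∫ z, ext0 Ω T (fun x => G0 x l i) z * dd (ex l) (fun y => φ y i) z with hS
  have key : ∀ ε : ℝ, 0 < ε → |S| ≤ (∑ i, ∑ l, C i l) * ε := by
    intro ε hε
    obtain ⟨v, hv, hve⟩ := approx_grad hΩ hT h hε
    have hz := zero_transpose hv hφ
    have e1 : S = ∑ i, ∑ l, ∫ z, (ext0 Ω T (fun x => G0 x l i) z - gr v z l i) *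
        dd (ex l) (fun y => φ y i) z := by
      rw [← sub_zero S, ← hz, hS, ← Finset.sum_sub_distrib]
      refine Finset.sum_congr rfl fun i _ => ?_
      rw [← Finset.sum_sub_distrib]
      refine Finset.sum_congr rfl fun l _ => ?_
      have j1 : Integrable (fun z => ext0 Ω T (fun x => G0 x l i) z *
          dd (ex l) (fun y => φ y i) z) :=
        integrable_mul_cc (int_ext0 hΩ (memLp_one_iff_integrable.1 (h.mG l i))) ((hφ.comp i).dd _)
      have j2 : Integrable (fun z => gr v z l i * dd (ex l) (fun y => φ y i) z) :=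
        integrable_mul_cc ((hv l).dd (ex i)).integrable ((hφ.comp i).dd _)
      rw [← integral_sub j1 j2]
      congr 1; ext z; ring
    rw [e1, Finset.sum_mul]
    refine (Finset.abs_sum_le_sum_abs _ _).trans (Finset.sum_le_sum fun i _ => ?_)
    rw [Finset.sum_mul]
    refine (Finset.abs_sum_le_sum_abs _ _).trans (Finset.sum_le_sum fun l _ => ?_)
    have hi : Integrable (fun z => ext0 Ω T (fun x => G0 x l i) z - gr v z l i) :=
      (int_ext0 hΩ (memLp_one_iff_integrable.1 (h.mG l i))).sub ((hv l).dd (ex i)).integrable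
    calc |∫ z, (ext0 Ω T (fun x => G0 x l i) z - gr v z l i) * dd (ex l) (fun y => φ y i) z|
        ≤ ∫ z, |(ext0 Ω T (fun x => G0 x l i) z - gr v z l i) * dd (ex l) (fun y => φ y i) z| :=
          abs_integral_le_integral_abs
      _ ≤ ∫ z, C i l * |ext0 Ω T (fun x => G0 x l i) z - gr v z l i| := by
          refine integral_mono (integrable_mul_cc hi ((hφ.comp i).dd _)).abs
            (hi.abs.const_mul _) fun z => ?_
          simp only [abs_mul]
          rw [mul_comm (C i l)]
          exact mul_le_mul_of_nonneg_left (hC i l z) (abs_nonneg _)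
      _ = C i l * ∫ z, |ext0 Ω T (fun x => G0 x l i) z - gr v z l i| := integral_const_mul _ _
      _ ≤ C i l * ε := mul_le_mul_of_nonneg_left (hve l i) (hC0 i l)
  have hSC : 0 ≤ ∑ i, ∑ l, C i l :=
    Finset.sum_nonneg fun i _ => Finset.sum_nonneg fun l _ => hC0 i l
  by_contra hne
  have hpos : 0 < |S| := abs_pos.2 hne
  have := key (|S| / (2 * ((∑ i, ∑ l, C i l) + 1))) (by positivity)
  rw [mul_div_assoc', le_div_iff₀ (by positivity)] at this
  nlinarith

theorem time_term (hΩ : IsOpen Ω) (hT : 0 < T) {g : Y → ℝ}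
    (hg : Integrable g (volume.restrict Ω)) {D : Set X} {u : X → ℝ} (hu : Cc D u)
    (huT : ∀ x, u (T, x) = 0) :
    ∫ z, ext0 Ω T g z * dd et u z = - ∫ x in Ω, g x * u (0, x) := by
  have e1 : ∀ z, ext0 Ω T g z * dd et u z =
      (dom Ω T).indicator (fun z => g z.2 * dd et u z) z := by
    intro z
    unfold ext0
    by_cases hz : z ∈ dom Ω T
    · simp [indicator_of_mem hz]
    · simp [indicator_of_notMem hz]
  have hi : Integrable (fun z => ext0 Ω T g z * dd et u z) :=
    integrable_mul_cc (int_ext0 hΩ hg) (hu.dd _)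
  have hi2 : Integrable (fun z : X => g z.2 * dd et u z)
      (((volume : Measure ℝ).restrict (Ioo 0 T)).prod ((volume : Measure Y).restrict Ω)) := by
    rw [← vol_restrict_dom]
    have := hi
    simp only [e1] at this
    rwa [integrable_indicator_iff (measurableSet_dom hΩ T)] at this
  simp only [e1]
  rw [integral_indicator (measurableSet_dom hΩ T), vol_restrict_dom, integral_prod_symm _ hi2,
    ← integral_neg]
  refine integral_congr_ae (Eventually.of_forall fun x => ?_)
  simp only
  rw [integral_const_mul]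
  have hd : ∀ s ∈ uIcc (0 : ℝ) T, HasDerivAt (fun s : ℝ => u (s, x)) (dd et u (s, x)) s := by
    intro s _
    have h1 : HasFDerivAt u (fderiv ℝ u (s, x)) (s, x) := (hu.differentiable _).hasFDerivAt
    have h2 : HasDerivAt (fun s : ℝ => ((s, x) : X)) et s := by
      have := (hasDerivAt_id s).prodMk (hasDerivAt_const s x)
      exact this
    exact h1.comp_hasDerivAt s h2
  have hc : Continuous (fun s : ℝ => dd et u (s, x)) :=
    (hu.dd et).continuous.comp (by fun_prop)
  have := intervalIntegral.integral_eq_sub_of_hasDerivAt hd (hc.intervalIntegrable 0 T)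
  rw [intervalIntegral.integral_of_le hT.le] at this
  rw [← integral_Ioc_eq_integral_Ioo, this, huT x]
  ring

end Pool.Agent.J6H20.LES
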