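import Pool.Agent.J6H20.LES.Init2

set_option autoImplicit false

open MeasureTheory Set Filter Topology
open scoped ContDiff ENNReal NNReal

namespace Pool.Agent.J6H20.LES

variable {Ω : Set Y} {T : ℝ}

/-- the initial field, independent of time -/
noncomputable def Wi (Ω : Set Y) (T : ℝ) (w0 : Y → Fin 3 → ℝ) : X → Fin 3 → ℝ :=
  fun z i => ext0 Ω T (fun x => w0 x i) z

/-- its gradient -/
noncomputable def Gi (Ω : Set Y) (T : ℝ) (G0 : Y → Fin 3 → Fin 3 → ℝ) :
    X → Fin 3 → Fin 3 → ℝ := fun z i l => ext0 Ω T (fun x => G0 x i l) z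

theorem ext0_supp (g : Y → ℝ) {z : X} (hz : z ∉ dom Ω T) : ext0 Ω T g z = 0 := by
  unfold ext0; exact indicator_of_notMem hz _

theorem init_state (hΩ : IsOpen Ω) {w0 : Y → Fin 3 → ℝ} {G0 : Y → Fin 3 → Fin 3 → ℝ}
    (h : W0 2 Ω w0 G0) : State Ω T (Wi Ω T w0) (Gi Ω T G0) where
  mw i := memLp_ext0 hΩ (h.mw i)
  mG i l := memLp_ext0 hΩ (h.mG i l)
  sw _ hz _ := ext0_supp _ hz
  sG _ hz _ _ := ext0_supp _ hz

theorem init_small (hΩ : IsOpen Ω) (hb : Bornology.IsBounded Ω) (hT : 0 < T) {L : ℝ} (hL : 0 ≤ L)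
    (hLΩ : ∀ x ∈ Ω, ∀ i : Fin 3, x + L • (Pi.single i (1 : ℝ) : Fin 3 → ℝ) ∉ Ω)
    {ν κ : ℝ} {f : X → Fin 3 → ℝ} (hf : ∀ i, Integrable (fun z => f z i))
    (hfs : ∀ z, z ∉ dom Ω T → ∀ i, f z i = 0)
    {w0 : Y → Fin 3 → ℝ} {G0 : Y → Fin 3 → Fin 3 → ℝ} (h : W0 2 Ω w0 G0) :
    ∃ E, Small Ω T (fun ψ => Nf ν κ f (Wi Ω T w0) (Gi Ω T G0) ψ -
      ∫ x in Ω, ∑ i, w0 x i * ψ (0, x) i) E := by
  have h1 : W0 1 Ω w0 G0 := h.mono (by simp) (by simp) (by norm_num) hb
  have st := init_state (T := T) hΩ h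
  have hD := vol_dom hb T
  set w := Wi Ω T w0 with hw
  set G := Gi Ω T G0 with hG
  have iw : ∀ i, Integrable (fun z => w z i) := fun i =>
    int_of_memLp hD (st.mw i) (fun z hz => st.sw z hz i)
  have iG : ∀ i l, Integrable (fun z => G z i l) := fun i l =>
    int_of_memLp hD (st.mG i l) (fun z hz => st.sG z hz i l)
  have iGw : ∀ i, Integrable (fun z => ∑ l, G z i l * w z l) := fun i =>
    integrable_finsetSum _ fun l _ => (st.mG i l).integrable_mul (st.mw l)
  have iGG : ∀ i j, Integrable (fun z => ∑ l, G z i l * G z j l) := fun i j =>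
    integrable_finsetSum _ fun l _ => (st.mG i l).integrable_mul (st.mG j l)
  have s1 := small_vec (T := T) hΩ hL hLΩ (r := fun z i => (∑ l, G z i l * w z l) - f z i)
    (fun i => (iGw i).sub (hf i)) (fun z hz i => by
      rw [hfs z hz i, Finset.sum_eq_zero (fun l _ => by rw [st.sG z hz i l, zero_mul]), sub_zero])
  have s2 := small_sym (Ω := Ω) (T := T) (R := fun z i l => ν * (G z i l + G z l i))
    ⟨fun i j => ((iG i j).add (iG j i)).const_mul ν, fun z i j => by ring, fun z hz i j => by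
      rw [st.sG z hz i j, st.sG z hz j i]; ring⟩
  have s3 := small_sym (Ω := Ω) (T := T) (R := fun z i j => -κ * ∑ l, G z i l * G z j l)
    ⟨fun i j => (iGG i j).const_mul _, fun z i j => by
      congr 1; exact Finset.sum_congr rfl fun l _ => mul_comm _ _, fun z hz i j => by
      rw [Finset.sum_eq_zero (fun l _ => by rw [st.sG z hz i l, zero_mul])]; ring⟩
  refine ⟨_, ((s1.add s2).add s3).congr fun φ hφ => ?_⟩
  -- term 1
  have hφT : ∀ i x, φ (T, x) i = 0 := fun i x =>
    (hφ.comp i).zero (fun hmem => lt_irrefl T hmem.1)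
  have iw0 : ∀ i, Integrable (fun x => w0 x i) (volume.restrict Ω) := fun i =>
    memLp_one_iff_integrable.1 (h1.mw i)
  have t1 : (∑ i, - ∫ z, w z i * dd et (fun y => φ y i) z) =
      ∫ x in Ω, ∑ i, w0 x i * φ (0, x) i := by
    rw [integral_finsetSum]
    · refine Finset.sum_congr rfl fun i _ => ?_
      have := time_term hΩ hT (iw0 i) (hφ.comp i) (hφT i)
      rw [neg_eq_iff_eq_neg]
      exact this
    · intro i _
      obtain ⟨C, _, hC⟩ := (hφ.comp i).bdd
      refine (iw0 i).mul_bdd (c := C) ?_ (Eventually.of_forall fun x => by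
        rw [Real.norm_eq_abs]; exact hC _)
      exact ((hφ.comp i).continuous.comp (by fun_prop)).aestronglyMeasurable
  have t2 : (∑ i, ∫ z, (∑ l, G z i l * w z l) * φ z i) - ∑ i, ∫ z, f z i * φ z i =
      ∑ i, ∫ z, ((∑ l, G z i l * w z l) - f z i) * φ z i := by
    rw [← Finset.sum_sub_distrib]
    refine Finset.sum_congr rfl fun i _ => ?_
    rw [← integral_sub (integrable_mul_cc (iGw i) (hφ.comp i))
      (integrable_mul_cc (hf i) (hφ.comp i))]
    congr 1; ext z; ring
  have t3 : ν * (∑ i, ∑ l, ∫ z, G z i l * dd (ex l) (fun y => φ y i) z) =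
      pair (fun z i l => ν * (G z i l + G z l i)) φ := by
    have hz : ∑ i, ∑ l, ∫ z, G z l i * dd (ex l) (fun y => φ y i) z = 0 := transpose0 hΩ hT h1 hφ
    have e2 : pair (fun z i l => ν * (G z i l + G z l i)) φ =
        ν * (∑ i, ∑ l, ∫ z, G z i l * dd (ex l) (fun y => φ y i) z) +
        ν * ∑ i, ∑ l, ∫ z, G z l i * dd (ex l) (fun y => φ y i) z := by
      unfold pair
      rw [← mul_add, ← Finset.sum_add_distrib, Finset.mul_sum]
      refine Finset.sum_congr rfl fun i _ => ?_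
      rw [← Finset.sum_add_distrib, Finset.mul_sum]
      refine Finset.sum_congr rfl fun l _ => ?_
      rw [← integral_add (integrable_mul_cc (iG i l) ((hφ.comp i).dd _))
        (integrable_mul_cc (iG l i) ((hφ.comp i).dd _)), ← integral_const_mul]
      congr 1; ext z; ring
    rw [e2, hz]; ring
  have t4 : κ * (∑ i, ∑ j, ∫ z, (∑ l, G z i l * G z j l) * dd (ex j) (fun y => φ y i) z) =
      - pair (fun z i j => -κ * ∑ l, G z i l * G z j l) φ := by
    unfold pair
    rw [← Finset.sum_neg_distrib, Finset.mul_sum]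
    refine Finset.sum_congr rfl fun i _ => ?_
    rw [← Finset.sum_neg_distrib, Finset.mul_sum]
    refine Finset.sum_congr rfl fun j _ => ?_
    rw [← integral_neg, ← integral_const_mul]
    congr 1; ext z; ring
  unfold Nf
  rw [t1, t3, t4]
  linarith

end Pool.Agent.J6H20.LES
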