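import Pool.Agent.J6H20.LES.Step

set_option autoImplicit false

open MeasureTheory Set Filter Topology
open scoped ContDiff ENNReal NNReal

namespace Pool.Agent.J6H20.LES

variable {Ω : Set (Fin 3 → ℝ)} {T : ℝ}

theorem iterate (hΩ : IsOpen Ω) (hb : Bornology.IsBounded Ω) {L : ℝ} (hL : 0 ≤ L)
    (hLΩ : ∀ x ∈ Ω, ∀ i : Fin 3, x + L • (Pi.single i (1 : ℝ) : Fin 3 → ℝ) ∉ Ω)
    {ν κ : ℝ} (hν : 0 ≤ ν) (hκ : 0 < κ) {f : X → Fin 3 → ℝ} {b : (X → Fin 3 → ℝ) → ℝ}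
    {w : X → Fin 3 → ℝ} {G : X → Fin 3 → Fin 3 → ℝ} (h : State Ω T w G) {E : ℝ}
    (hs : Small Ω T (fun ψ => Nf ν κ f w G ψ - b ψ) E) :
    ∃ (v : ℕ → X → Fin 3 → ℝ) (M E' : ℝ), 0 ≤ M ∧ 0 ≤ E' ∧
      (∀ k i, Cc (dom Ω T) (fun z => v k z i)) ∧ (∀ k z, ∑ i, gr (v k) z i i = 0) ∧
      (∀ k z i, |v k z i| ≤ (1 / 4) ^ k) ∧
      (∀ k i m, ∫ z, (gr (v k) z i m) ^ 2 ≤ M * (1 / 4) ^ k) ∧
      (∀ k, State Ω T (fun z i => w z i + ∑ j ∈ Finset.range k, v j z i)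
        (fun z i m => G z i m + ∑ j ∈ Finset.range k, gr (v j) z i m)) ∧
      ∀ k, Small Ω T (fun ψ => Nf ν κ f (fun z i => w z i + ∑ j ∈ Finset.range k, v j z i)
        (fun z i m => G z i m + ∑ j ∈ Finset.range k, gr (v j) z i m) ψ - b ψ)
        (E' * (1 / 4) ^ k) := by
  classical
  set E' : ℝ := max E 1 with hE'
  have hE1 : 1 ≤ E' := le_max_right _ _
  have hE2 : E ≤ E' := le_max_left _ _
  set M : ℝ := 9216 * κ⁻¹ * (E' + 1) + 1 with hM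
  have hM0 : 0 ≤ M := by positivity
  set Pr : ℕ → (X → Fin 3 → ℝ) × (X → Fin 3 → Fin 3 → ℝ) → Prop := fun k p =>
    State Ω T p.1 p.2 ∧ Small Ω T (fun ψ => Nf ν κ f p.1 p.2 ψ - b ψ) (E' * (1 / 4) ^ k) with hPr
  set upd : (X → Fin 3 → ℝ) × (X → Fin 3 → Fin 3 → ℝ) → (X → Fin 3 → ℝ) →
      (X → Fin 3 → ℝ) × (X → Fin 3 → Fin 3 → ℝ) := fun p v =>
    (fun z i => p.1 z i + v z i, fun z i m => p.2 z i m + gr v z i m) with hupd
  have key : ∀ (k : ℕ) (p : (X → Fin 3 → ℝ) × (X → Fin 3 → Fin 3 → ℝ)), Pr k p →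
      ∃ v : X → Fin 3 → ℝ, ((∀ i, Cc (dom Ω T) (fun z => v z i)) ∧ (∀ z, ∑ i, gr v z i i = 0) ∧
        (∀ z i, |v z i| ≤ (1 / 4) ^ k) ∧ (∀ i m, ∫ z, (gr v z i m) ^ 2 ≤ M * (1 / 4) ^ k)) ∧
        Pr (k + 1) (upd p v) := by
    rintro k p ⟨hp1, hp2⟩
    have hpow : (0 : ℝ) < (1 / 4) ^ k := by positivity
    have hpow1 : ((1 : ℝ) / 4) ^ (k + 1) = (1 / 4) ^ k / 4 := by rw [pow_succ]; ring
    obtain ⟨v, c1, d1, b1, g1, s1⟩ := step (f := f) hΩ hb hL hLΩ hν hκ hp1 hp2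
      (ε := (1 / 4) ^ (k + 1)) (by positivity)
    refine ⟨v, ⟨c1, d1, fun z i => (b1 z i).trans (by rw [hpow1]; linarith), fun i m =>
      (g1 i m).trans ?_⟩, hp1.add c1, s1.mono ?_⟩
    · rw [hpow1, hM]
      have : 0 ≤ κ⁻¹ := (inv_pos.2 hκ).le
      nlinarith [mul_nonneg this hpow.le]
    · rw [hpow1]; nlinarith
  choose! V hV using key
  set s : ℕ → (X → Fin 3 → ℝ) × (X → Fin 3 → Fin 3 → ℝ) := fun k =>
    Nat.rec (w, G) (fun k p => upd p (V k p)) k with hsdef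
  have hs0 : s 0 = (w, G) := rfl
  have hsS : ∀ k, s (k + 1) = upd (s k) (V k (s k)) := fun k => rfl
  have hPs : ∀ k, Pr k (s k) := by
    intro k
    induction k with
    | zero => exact ⟨h, hs.mono (by simpa using hE2)⟩
    | succ k ih => rw [hsS]; exact (hV k _ ih).2
  set v : ℕ → X → Fin 3 → ℝ := fun k => V k (s k) with hv
  have hsum : ∀ k, s k = (fun z i => w z i + ∑ j ∈ Finset.range k, v j z i,
      fun z i m => G z i m + ∑ j ∈ Finset.range k, gr (v j) z i m) := by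
    intro k
    induction k with
    | zero => rw [hs0]; simp
    | succ k ih =>
      rw [hsS, ih]
      simp only [hupd]
      refine Prod.ext ?_ ?_
      · ext z i
        simp only
        rw [Finset.sum_range_succ, ← add_assoc, ← ih]
      · ext z i m
        simp only
        rw [Finset.sum_range_succ, ← add_assoc, ← ih]
  refine ⟨v, M, E', hM0, by linarith, fun k i => (hV k _ (hPs k)).1.1 i, fun k z =>
    (hV k _ (hPs k)).1.2.1 z, fun k z i => (hV k _ (hPs k)).1.2.2.1 z i, fun k i m =>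
    (hV k _ (hPs k)).1.2.2.2 i m, fun k => ?_, fun k => ?_⟩
  · have := (hPs k).1
    rw [hsum k] at this
    exact this
  · have := (hPs k).2
    rw [hsum k] at this
    exact this

end Pool.Agent.J6H20.LES
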