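import Pool.Agent.J6H20.LES.Iter

set_option autoImplicit false

open MeasureTheory Set Filter Topology
open scoped ContDiff ENNReal NNReal

namespace Pool.Agent.J6H20.LES

variable {Ω : Set (Fin 3 → ℝ)} {T : ℝ}

theorem eLpNorm_le_of_sq {α : Type*} [MeasurableSpace α] {μ : Measure α} {g : α → ℝ}
    (hg : MemLp g 2 μ) {c : ℝ} (hc : 0 ≤ c) (h : ∫ z, g z ^ 2 ∂μ ≤ c ^ 2) :
    eLpNorm g 2 μ ≤ ENNReal.ofReal c := by
  rw [hg.eLpNorm_eq_integral_rpow_norm (by simp) (by simp)]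
  refine ENNReal.ofReal_le_ofReal ?_
  have h2 : (2 : ℝ≥0∞).toReal = 2 := by simp
  rw [h2]
  have e1 : ∫ a, ‖g a‖ ^ (2 : ℝ) ∂μ = ∫ a, g a ^ 2 ∂μ := by
    congr 1; ext a
    rw [Real.rpow_two, Real.norm_eq_abs, sq_abs]
  rw [e1, ← one_div, ← Real.sqrt_eq_rpow]
  exact Real.sqrt_le_iff.2 ⟨hc, h⟩

/-- Limits of rapidly converging sequences in `L²`. -/
theorem L2lim {D : Set X} (hD : MeasurableSet D) {f g : ℕ → X → ℝ} (hf : ∀ k, MemLp (f k) 2)
    (hfs : ∀ k z, z ∉ D → f k z = 0) (hg : ∀ k, MemLp (g k) 2)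
    (hfg : ∀ k z, f (k + 1) z = f k z + g k z) {M : ℝ} (hM : 0 ≤ M)
    (hb : ∀ k, ∫ z, g k z ^ 2 ≤ M * (1 / 4) ^ k) :
    ∃ (F : X → ℝ) (C : ℝ), 0 ≤ C ∧ MemLp F 2 ∧ (∀ z, z ∉ D → F z = 0) ∧
      ∀ k, eLpNorm (fun z => f k z - F z) 2 volume ≤ ENNReal.ofReal (C * (1 / 2) ^ k) := by
  have hstep : ∀ k, edist ((hf k).toLp (f k)) ((hf (k + 1)).toLp (f (k + 1))) ≤
      ENNReal.ofReal (Real.sqrt M) * (2⁻¹ : ℝ≥0∞) ^ k := by
    intro k
    rw [Lp.edist_toLp_toLp]
    have e1 : (f k - f (k + 1)) = -(g k) := by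
      ext z; simp only [Pi.sub_apply, Pi.neg_apply, hfg]; ring
    rw [e1, eLpNorm_neg]
    have e2 := eLpNorm_le_of_sq (hg k) (c := Real.sqrt M * (1 / 2) ^ k) (by positivity) (by
      rw [mul_pow, Real.sq_sqrt hM, ← pow_mul, mul_comm k 2, pow_mul]
      norm_num
      have := hb k
      norm_num at this
      exact this)
    refine e2.trans (le_of_eq ?_)
    rw [ENNReal.ofReal_mul (Real.sqrt_nonneg M), ENNReal.ofReal_pow (by norm_num)]
    congr 2
    rw [one_div, ENNReal.ofReal_inv_of_pos (by norm_num)]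
    simp
  have hr : (2⁻¹ : ℝ≥0∞) < 1 := by
    rw [ENNReal.inv_lt_one]; norm_num
  have hC : ENNReal.ofReal (Real.sqrt M) ≠ ⊤ := ENNReal.ofReal_ne_top
  have hcauchy := cauchySeq_of_edist_le_geometric (2⁻¹ : ℝ≥0∞) _ hr hC hstep
  obtain ⟨F0, hF0⟩ := cauchySeq_tendsto_of_complete hcauchy
  have hdist := fun n => edist_le_of_edist_le_geometric_of_tendsto (2⁻¹ : ℝ≥0∞) _ hstep hF0 n
  have hmem : MemLp (⇑F0) 2 := Lp.memLp F0
  refine ⟨D.indicator F0, 2 * Real.sqrt M, by positivity, hmem.indicator hD,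
    fun z hz => indicator_of_notMem hz _, fun k => ?_⟩
  have h1 := hdist k
  have e1 : edist ((hf k).toLp (f k)) F0 = eLpNorm (f k - ⇑F0) 2 volume := by
    have := Lp.edist_toLp_toLp (f k) (⇑F0) (hf k) hmem
    rwa [Lp.toLp_coeFn] at this
  rw [e1] at h1
  have e2 : eLpNorm (fun z => f k z - D.indicator F0 z) 2 volume ≤
      eLpNorm (f k - ⇑F0) 2 volume := by
    refine eLpNorm_mono fun z => ?_
    by_cases hz : z ∈ D
    · rw [indicator_of_mem hz]; rfl
    · rw [indicator_of_notMem hz, hfs k z hz]; simp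
  refine e2.trans (h1.trans (le_of_eq ?_))
  rw [ENNReal.one_sub_inv_two, ENNReal.div_eq_inv_mul, inv_inv]
  rw [show 2 * Real.sqrt M * (1 / 2 : ℝ) ^ k = 2 * (Real.sqrt M * (1 / 2) ^ k) by ring,
    ENNReal.ofReal_mul (by norm_num), ENNReal.ofReal_mul (Real.sqrt_nonneg M),
    ENNReal.ofReal_pow (by norm_num)]
  congr 2
  · simp
  · congr 1
    rw [one_div, ENNReal.ofReal_inv_of_pos (by norm_num)]
    simp

/-- Passage to the limit in products. -/
theorem tendsto_mul {F H : ℕ → X → ℝ} {F0 H0 : X → ℝ} (hF : ∀ k, MemLp (F k) 2)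
    (hH : ∀ k, MemLp (H k) 2) (hF0 : MemLp F0 2) (hH0 : MemLp H0 2)
    (h1 : Tendsto (fun k => eLpNorm (fun z => F k z - F0 z) 2 volume) atTop (𝓝 0))
    (h2 : Tendsto (fun k => eLpNorm (fun z => H k z - H0 z) 2 volume) atTop (𝓝 0)) :
    Tendsto (fun k => ∫ z, F k z * H k z) atTop (𝓝 (∫ z, F0 z * H0 z)) := by
  have t1 : Tendsto (fun k => (hF k).toLp (F k)) atTop (𝓝 (hF0.toLp F0)) :=
    (Lp.tendsto_Lp_iff_tendsto_eLpNorm'' F hF F0 hF0).2 h1
  have t2 : Tendsto (fun k => (hH k).toLp (H k)) atTop (𝓝 (hH0.toLp H0)) :=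
    (Lp.tendsto_Lp_iff_tendsto_eLpNorm'' H hH H0 hH0).2 h2
  have key : ∀ {a b : X → ℝ} (ha : MemLp a 2) (hb : MemLp b 2),
      inner ℝ (ha.toLp a) (hb.toLp b) = ∫ z, a z * b z := by
    intro a b ha hb
    rw [L2.inner_def]
    refine integral_congr_ae ?_
    filter_upwards [ha.coeFn_toLp, hb.coeFn_toLp] with z hz1 hz2
    rw [hz1, hz2]
    simp [mul_comm]
  have := t1.inner (𝕜 := ℝ) t2
  simp only [key] at this
  exact this

theorem tendsto_mul_cc {D : Set X} {F : ℕ → X → ℝ} {F0 u : X → ℝ} (hF : ∀ k, MemLp (F k) 2)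
    (hF0 : MemLp F0 2) (hu : Cc D u)
    (h1 : Tendsto (fun k => eLpNorm (fun z => F k z - F0 z) 2 volume) atTop (𝓝 0)) :
    (∀ k, MemLp (fun z => F k z * u z) 2) ∧ MemLp (fun z => F0 z * u z) 2 ∧
    Tendsto (fun k => eLpNorm (fun z => F k z * u z - F0 z * u z) 2 volume) atTop (𝓝 0) := by
  obtain ⟨C, hC0, hC⟩ := hu.bdd
  have hmem : ∀ {a : X → ℝ}, MemLp a 2 → MemLp (fun z => a z * u z) 2 := by
    intro a ha
    refine (ha.const_mul C).of_le (ha.1.mul hu.continuous.aestronglyMeasurable)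
      (Eventually.of_forall fun z => ?_)
    rw [norm_mul, norm_mul, Real.norm_eq_abs, Real.norm_eq_abs, Real.norm_eq_abs, abs_of_nonneg hC0,
      mul_comm C]
    exact mul_le_mul_of_nonneg_left (hC z) (abs_nonneg _)
  refine ⟨fun k => hmem (hF k), hmem hF0, ?_⟩
  have hle : ∀ k, eLpNorm (fun z => F k z * u z - F0 z * u z) 2 volume ≤
      ENNReal.ofReal C * eLpNorm (fun z => F k z - F0 z) 2 volume := by
    intro k
    refine eLpNorm_le_mul_eLpNorm_of_ae_le_mul (Eventually.of_forall fun z => ?_) 2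
    rw [← sub_mul, norm_mul, mul_comm C, Real.norm_eq_abs (u z)]
    exact mul_le_mul_of_nonneg_left (hC z) (norm_nonneg _)
  have hlim : Tendsto (fun k => ENNReal.ofReal C * eLpNorm (fun z => F k z - F0 z) 2 volume)
      atTop (𝓝 0) := by
    have := ENNReal.Tendsto.const_mul h1 (Or.inr (ENNReal.ofReal_ne_top (r := C)))
    simpa using this
  exact tendsto_of_tendsto_of_tendsto_of_le_of_le tendsto_const_nhds hlim
    (fun _ => zero_le) hle

/-- The functional passes to the limit. -/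
theorem Nf_tendsto {ν κ : ℝ} {f : X → Fin 3 → ℝ} {w : ℕ → X → Fin 3 → ℝ}
    {G : ℕ → X → Fin 3 → Fin 3 → ℝ} {w0 : X → Fin 3 → ℝ} {G0 : X → Fin 3 → Fin 3 → ℝ}
    (h : ∀ k, State Ω T (w k) (G k)) (h0 : State Ω T w0 G0)
    (hw : ∀ i, Tendsto (fun k => eLpNorm (fun z => w k z i - w0 z i) 2 volume) atTop (𝓝 0))
    (hG : ∀ i l, Tendsto (fun k => eLpNorm (fun z => G k z i l - G0 z i l) 2 volume) atTop (𝓝 0))
    {φ : X → Fin 3 → ℝ} (hφ : Test Ω T φ) :
    Tendsto (fun k => Nf ν κ f (w k) (G k) φ) atTop (𝓝 (Nf ν κ f w0 G0 φ)) := by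
  have hz : ∀ {u : X → ℝ}, Tendsto (fun _ : ℕ => eLpNorm (fun z => u z - u z) 2
      (volume : Measure X)) atTop (𝓝 0) := by
    intro u; simp
  unfold Nf
  refine Tendsto.sub (Tendsto.sub (Tendsto.add (Tendsto.add ?_ ?_) ?_) ?_) tendsto_const_nhds
  · refine tendsto_finsetSum _ fun i _ => Tendsto.neg ?_
    exact tendsto_mul (fun k => (h k).mw i) (fun _ => ((hφ.comp i).dd et).memLp) (h0.mw i)
      ((hφ.comp i).dd et).memLp (hw i) hz
  · refine tendsto_finsetSum _ fun i _ => ?_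
    have e1 : ∀ {w : X → Fin 3 → ℝ} {G : X → Fin 3 → Fin 3 → ℝ}, State Ω T w G →
        ∫ z, (∑ l, G z i l * w z l) * φ z i = ∑ l, ∫ z, G z i l * (w z l * φ z i) := by
      intro w G hs
      rw [← integral_finsetSum]
      · congr 1; ext z; rw [Finset.sum_mul]
        refine Finset.sum_congr rfl fun l _ => ?_
        ring
      · intro l _
        have := integrable_mul_cc ((hs.mG i l).integrable_mul (hs.mw l)) (hφ.comp i)
        refine this.congr (Eventually.of_forall fun z => ?_)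
        simp only [Pi.mul_apply]; ring
    simp only [e1 (h _), e1 h0]
    refine tendsto_finsetSum _ fun l _ => ?_
    obtain ⟨a1, a2, a3⟩ := tendsto_mul_cc (fun k => (h k).mw l) (h0.mw l) (hφ.comp i) (hw l)
    exact tendsto_mul (fun k => (h k).mG i l) a1 (h0.mG i l) a2 (hG i l) a3
  · refine Tendsto.const_mul ν (tendsto_finsetSum _ fun i _ => tendsto_finsetSum _ fun l _ => ?_)
    exact tendsto_mul (fun k => (h k).mG i l) (fun _ => ((hφ.comp i).dd (ex l)).memLp) (h0.mG i l)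
      ((hφ.comp i).dd (ex l)).memLp (hG i l) hz
  · refine Tendsto.const_mul κ (tendsto_finsetSum _ fun i _ => tendsto_finsetSum _ fun j _ => ?_)
    have e1 : ∀ {w : X → Fin 3 → ℝ} {G : X → Fin 3 → Fin 3 → ℝ}, State Ω T w G →
        ∫ z, (∑ l, G z i l * G z j l) * dd (ex j) (fun y => φ y i) z =
          ∑ l, ∫ z, G z i l * (G z j l * dd (ex j) (fun y => φ y i) z) := by
      intro w G hs
      rw [← integral_finsetSum]
      · congr 1; ext z; rw [Finset.sum_mul]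
        refine Finset.sum_congr rfl fun l _ => ?_
        ring
      · intro l _
        have := integrable_mul_cc ((hs.mG i l).integrable_mul (hs.mG j l))
          ((hφ.comp i).dd (ex j))
        refine this.congr (Eventually.of_forall fun z => ?_)
        simp only [Pi.mul_apply]; ring
    simp only [e1 (h _), e1 h0]
    refine tendsto_finsetSum _ fun l _ => ?_
    obtain ⟨a1, a2, a3⟩ := tendsto_mul_cc (fun k => (h k).mG j l) (h0.mG j l)
      ((hφ.comp i).dd (ex j)) (hG j l)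
    exact tendsto_mul (fun k => (h k).mG i l) a1 (h0.mG i l) a2 (hG i l) a3

/-- The limit satisfies the equation. -/
theorem limit_eq {ν κ : ℝ} {f : X → Fin 3 → ℝ} {w : ℕ → X → Fin 3 → ℝ}
    {G : ℕ → X → Fin 3 → Fin 3 → ℝ} {w0 : X → Fin 3 → ℝ} {G0 : X → Fin 3 → Fin 3 → ℝ}
    (h : ∀ k, State Ω T (w k) (G k)) (h0 : State Ω T w0 G0)
    (hw : ∀ i, Tendsto (fun k => eLpNorm (fun z => w k z i - w0 z i) 2 volume) atTop (𝓝 0))
    (hG : ∀ i l, Tendsto (fun k => eLpNorm (fun z => G k z i l - G0 z i l) 2 volume) atTop (𝓝 0))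
    {b : (X → Fin 3 → ℝ) → ℝ} {E : ℝ}
    (hs : ∀ k, Small Ω T (fun ψ => Nf ν κ f (w k) (G k) ψ - b ψ) (E * (1 / 4) ^ k))
    {φ : X → Fin 3 → ℝ} (hφ : Test Ω T φ) : Nf ν κ f w0 G0 φ = b φ := by
  have t1 := Nf_tendsto (ν := ν) (κ := κ) (f := f) h h0 hw hG hφ
  have t2 : Tendsto (fun k => Nf ν κ f (w k) (G k) φ) atTop (𝓝 (b φ)) := by
    choose C hC0 hC using fun p : Fin 3 × Fin 3 => ((hφ.comp p.1).dd (ex p.2)).bdd
    have hC' : ∀ z i j, |dd (ex j) (fun y => φ y i) z| ≤ ∑ p, C p := fun z i j =>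
      (hC (i, j) z).trans (Finset.single_le_sum (fun p _ => hC0 p) (Finset.mem_univ (i, j)))
    have hS0 : 0 ≤ ∑ p, C p := Finset.sum_nonneg fun p _ => hC0 p
    have hb : ∀ k, |Nf ν κ f (w k) (G k) φ - b φ| ≤ (∑ p, C p) * (E * (1 / 4) ^ k) := by
      intro k
      obtain ⟨R, hR, hn, he⟩ := hs k
      have he' : Nf ν κ f (w k) (G k) φ - b φ = pair R φ := he φ hφ
      rw [he']
      exact (abs_pair_le hR hφ hC').trans (mul_le_mul_of_nonneg_left hn hS0)
    rw [tendsto_iff_norm_sub_tendsto_zero]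
    have hlim : Tendsto (fun k : ℕ => (∑ p, C p) * (E * (1 / 4 : ℝ) ^ k)) atTop (𝓝 0) := by
      have := (tendsto_pow_atTop_nhds_zero_of_lt_one (r := (1 / 4 : ℝ)) (by norm_num)
        (by norm_num)).const_mul ((∑ p, C p) * E)
      simp only [mul_zero] at this
      refine this.congr fun k => ?_
      ring
    refine squeeze_zero (fun k => norm_nonneg _) (fun k => ?_) hlim
    rw [Real.norm_eq_abs]; exact hb k
  exact tendsto_nhds_unique t1 t2

end Pool.Agent.J6H20.LES
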