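import Pool.Agent.J6H20.LES.Wave

set_option autoImplicit false

open MeasureTheory Set Filter Topology
open scoped ContDiff ENNReal NNReal

namespace Pool.Agent.J6H20.LES

variable {Ω : Set (Fin 3 → ℝ)} {T : ℝ}

theorem integral_mul_sum_dd {u : X → ℝ} (hu : Integrable u) {D : Set X} {g : X → ℝ} (hg : Cc D g)
    (k : Fin 3 → ℝ) :
    ∑ j, k j * ∫ z, u z * dd (ex j) g z = ∫ z, u z * dd (0, k) g z := by
  have h1 : ∀ z, u z * dd (0, k) g z = ∑ j, k j * (u z * dd (ex j) g z) := by
    intro z
    rw [dd_k, Finset.mul_sum]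
    refine Finset.sum_congr rfl fun j _ => ?_
    ring
  simp only [h1]
  rw [integral_finsetSum _ (fun j _ => (integrable_mul_cc hu (hg.dd _)).const_mul _)]
  refine Finset.sum_congr rfl fun j _ => ?_
  rw [integral_const_mul]

theorem int_abs_osc_le {u : X → ℝ} (hu : Integrable u) {h : ℝ → ℝ} (hc : Continuous h) {B : ℝ}
    (hB : ∀ s, |h s| ≤ B) (l : Fin 3) (n : ℝ) :
    Integrable (fun z => u z * osc l n h z) ∧ ∫ z, |u z * osc l n h z| ≤ B * ∫ z, |u z| := by
  have hoc : Continuous (osc l n h) := by
    unfold osc; exact hc.comp (by fun_prop)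
  have hi : Integrable (fun z => u z * osc l n h z) :=
    hu.mul_bdd (c := B) hoc.aestronglyMeasurable (Eventually.of_forall fun z => by
      rw [Real.norm_eq_abs]; exact hB _)
  refine ⟨hi, ?_⟩
  rw [← integral_const_mul]
  refine integral_mono hi.abs (hu.abs.const_mul B) fun z => ?_
  simp only [abs_mul]
  rw [mul_comm B]
  exact mul_le_mul_of_nonneg_left (hB _) (abs_nonneg _)

/-- A mean-zero oscillation of the quadratic term is a small stress. -/
theorem small_osc (hΩ : IsOpen Ω) {L : ℝ} (hL : 0 ≤ L)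
    (hLΩ : ∀ x ∈ Ω, ∀ i : Fin 3, x + L • (Pi.single i (1 : ℝ) : Fin 3 → ℝ) ∉ Ω)
    {a2 : X → ℝ} (ha : Cc (dom Ω T) a2) {k : Fin 3 → ℝ} (hk1 : ∀ i, |k i| ≤ 1) {l : Fin 3}
    (hk : k l = 0) {h Gp : ℝ → ℝ} (hh : ContDiff ℝ ∞ h) (hGs : ContDiff ℝ ∞ Gp)
    (hG : ∀ s, HasDerivAt Gp (h s) s) {B : ℝ} (hB0 : 0 ≤ B) (hB : ∀ s, |Gp s| ≤ B) :
    ∃ C, 0 ≤ C ∧ ∀ n : ℝ, 0 < n →
      Small Ω T (pair (fun z i j => a2 z * osc l n h z * (k i * k j))) (C / n) := by
  classical
  set A : X → ℝ := dd (0, k) a2 with hA
  have hAc : Cc (dom Ω T) A := ha.dd _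
  set I0 : ℝ := ∫ z, |A z| with hI0
  set I1 : ℝ := ∫ z, |dd (ex l) A z| with hI1
  set I2 : ℝ := ∫ z, |dd (0, k) A z| with hI2
  have hI0' : 0 ≤ I0 := integral_nonneg fun _ => abs_nonneg _
  have hI1' : 0 ≤ I1 := integral_nonneg fun _ => abs_nonneg _
  have hI2' : 0 ≤ I2 := integral_nonneg fun _ => abs_nonneg _
  refine ⟨18 * B * I0 + L * (3 * (B * (I1 + I2))), by positivity, fun n hn => ?_⟩
  set S : X → Fin 3 → Fin 3 → ℝ := fun z i j =>
    (1 / n * (k i * (if j = l then 1 else 0) + k j * (if i = l then 1 else 0))) *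
      (A z * osc l n Gp z) with hS
  set r : X → Fin 3 → ℝ := fun z i =>
    (1 / n * k i) * (dd (ex l) A z * osc l n Gp z) +
      (1 / n * (if i = l then 1 else 0)) * (dd (0, k) A z * osc l n Gp z) with hr
  have hGc : Continuous Gp := hGs.continuous
  have b0 := int_abs_osc_le hAc.integrable hGc hB l n
  have b1 := int_abs_osc_le (hAc.dd (ex l)).integrable hGc hB l n
  have b2 := int_abs_osc_le (hAc.dd (0, k)).integrable hGc hB l n
  have hSS : Stress Ω T S := by
    refine ⟨fun i j => b0.1.const_mul _, fun z i j => ?_, fun z hz i j => ?_⟩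
    · simp only [hS]; ring
    · simp only [hS]; rw [hAc.zero hz]; ring
  have hri : ∀ i, Integrable (fun z => r z i) := fun i =>
    (b1.1.const_mul _).add (b2.1.const_mul _)
  have hrs : ∀ z, z ∉ dom Ω T → ∀ i, r z i = 0 := by
    intro z hz i
    simp only [hr]
    rw [(hAc.dd _).zero hz, (hAc.dd _).zero hz]; ring
  have hn' : 0 ≤ 1 / n := by positivity
  have key1 := (small_sym hSS).add (small_vec (T := T) hΩ hL hLΩ hri hrs)
  have hbd : nrm S + L * ∑ i, ∫ z, |r z i| ≤ (18 * B * I0 + L * (3 * (B * (I1 + I2)))) / n := by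
    have e1 : nrm S ≤ 18 * B * I0 * (1 / n) := by
      unfold nrm
      have : ∀ i j, ∫ z, |S z i j| ≤ 2 * B * I0 * (1 / n) := by
        intro i j
        have e2 : ∀ z, |S z i j| ≤ (1 / n * 2) * |A z * osc l n Gp z| := by
          intro z
          simp only [hS, abs_mul, abs_of_nonneg hn']
          refine mul_le_mul_of_nonneg_right ?_ (by positivity)
          refine mul_le_mul_of_nonneg_left ?_ hn'
          have h3 := hk1 i
          have h4 := hk1 j
          rw [abs_le] at h3 h4
          rw [abs_le]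
          split_ifs <;> constructor <;> linarith
        calc ∫ z, |S z i j| ≤ ∫ z, (1 / n * 2) * |A z * osc l n Gp z| :=
              integral_mono (hSS.int i j).abs (b0.1.abs.const_mul _) e2
          _ = (1 / n * 2) * ∫ z, |A z * osc l n Gp z| := integral_const_mul _ _
          _ ≤ (1 / n * 2) * (B * I0) := mul_le_mul_of_nonneg_left b0.2 (by positivity)
          _ = _ := by ring
      calc ∑ i, ∑ j, ∫ z, |S z i j| ≤ ∑ i : Fin 3, ∑ j : Fin 3, 2 * B * I0 * (1 / n) :=
            Finset.sum_le_sum fun i _ => Finset.sum_le_sum fun j _ => this i j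
        _ = _ := by simp; ring
    have e3 : ∑ i, ∫ z, |r z i| ≤ 3 * (B * (I1 + I2)) * (1 / n) := by
      have : ∀ i, ∫ z, |r z i| ≤ B * (I1 + I2) * (1 / n) := by
        intro i
        have e2 : ∀ z, |r z i| ≤ (1 / n) * |dd (ex l) A z * osc l n Gp z| +
            (1 / n) * |dd (0, k) A z * osc l n Gp z| := by
          intro z
          simp only [hr]
          refine (abs_add_le _ _).trans (add_le_add ?_ ?_)
          · rw [abs_mul, abs_mul (1 / n), abs_of_nonneg hn']
            refine mul_le_mul_of_nonneg_right ?_ (abs_nonneg _)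
            have := hk1 i
            nlinarith
          · rw [abs_mul, abs_mul (1 / n), abs_of_nonneg hn']
            refine mul_le_mul_of_nonneg_right ?_ (abs_nonneg _)
            split_ifs
            · simp
            · simp only [abs_zero, mul_zero]; exact hn'
        calc ∫ z, |r z i| ≤ ∫ z, ((1 / n) * |dd (ex l) A z * osc l n Gp z| +
            (1 / n) * |dd (0, k) A z * osc l n Gp z|) :=
              integral_mono (hri i).abs ((b1.1.abs.const_mul _).add (b2.1.abs.const_mul _)) e2
          _ = (1 / n) * (∫ z, |dd (ex l) A z * osc l n Gp z|) +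
              (1 / n) * ∫ z, |dd (0, k) A z * osc l n Gp z| := by
              rw [integral_add (b1.1.abs.const_mul _) (b2.1.abs.const_mul _), integral_const_mul,
                integral_const_mul]
          _ ≤ (1 / n) * (B * I1) + (1 / n) * (B * I2) :=
              add_le_add (mul_le_mul_of_nonneg_left b1.2 hn') (mul_le_mul_of_nonneg_left b2.2 hn')
          _ = _ := by ring
      calc ∑ i, ∫ z, |r z i| ≤ ∑ i : Fin 3, B * (I1 + I2) * (1 / n) :=
            Finset.sum_le_sum fun i _ => this i
        _ = _ := by simp; ring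
    calc nrm S + L * ∑ i, ∫ z, |r z i|
        ≤ 18 * B * I0 * (1 / n) + L * (3 * (B * (I1 + I2)) * (1 / n)) :=
          add_le_add e1 (mul_le_mul_of_nonneg_left e3 hL)
      _ = _ := by ring
  refine (key1.mono hbd).congr fun φ hφ => ?_
  -- the identity
  have hn0 : n ≠ 0 := hn.ne'
  have ho : Cc (dom Ω T) (fun z => a2 z * osc l n h z) := ha.mul (contDiff_osc l n hh)
  have hAG : Cc (dom Ω T) (fun z => A z * osc l n Gp z) := hAc.mul (contDiff_osc l n hGs)
  have hφ1 : ∀ i, ContDiff ℝ 1 (fun y => φ y i) := fun i => (hφ.comp i).smooth.of_le (by simp)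
  have hl1 : (ex l).2 l = 1 := by rw [ex_apply]; simp
  -- left hand side
  have L1 : pair (fun z i j => a2 z * osc l n h z * (k i * k j)) φ =
      ∑ i, k i * (- ∫ z, A z * osc l n h z * φ z i) := by
    unfold pair
    refine Finset.sum_congr rfl fun i _ => ?_
    have e1 : ∀ j, ∫ z, a2 z * osc l n h z * (k i * k j) * dd (ex j) (fun y => φ y i) z =
        k i * (k j * ∫ z, (a2 z * osc l n h z) * dd (ex j) (fun y => φ y i) z) := by
      intro j
      rw [← integral_const_mul, ← integral_const_mul]
      congr 1; ext z; ring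
    simp only [e1]
    rw [← Finset.mul_sum, integral_mul_sum_dd ho.integrable (hφ.comp i) k,
      ibp ho (hφ1 i) (0, k)]
    congr 2
    refine integral_congr_ae (Eventually.of_forall fun z => ?_)
    simp only
    have hdh : ∀ s, HasDerivAt h (deriv h s) s := fun s =>
      ((hh.differentiable (by simp)) s).hasDerivAt
    rw [dd_mod ha.differentiable l n hdh, show ((0 : ℝ), k).2 l = 0 from hk]
    ring
  have L2 : ∀ i, ∫ z, A z * osc l n h z * φ z i =
      (1 / n) * (- ∫ z, (A z * osc l n Gp z) * dd (ex l) (fun y => φ y i) z) -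
      (1 / n) * ∫ z, dd (ex l) A z * osc l n Gp z * φ z i := by
    intro i
    have e1 : ∫ z, (A z * osc l n Gp z) * dd (ex l) (fun y => φ y i) z =
        - ∫ z, dd (ex l) (fun z => A z * osc l n Gp z) z * φ z i := ibp hAG (hφ1 i) (ex l)
    rw [e1, neg_neg, ← mul_sub, ← integral_sub]
    · rw [← integral_const_mul]
      congr 1; ext z
      rw [dd_mod hAc.differentiable l n hG, hl1]
      field_simp
      ring
    · exact integrable_mul_cc (hAG.dd _).integrable (hφ.comp i)
    · exact integrable_mul_cc b1.1 (hφ.comp i)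
  -- right hand side
  have R1 : pair S φ = ∑ i, (1 / n * k i) * (∫ z, (A z * osc l n Gp z) *
        dd (ex l) (fun y => φ y i) z) -
      (1 / n) * ∫ z, dd (0, k) A z * osc l n Gp z * φ z l := by
    unfold pair
    have e1 : ∀ i j, ∫ z, S z i j * dd (ex j) (fun y => φ y i) z =
        (if j = l then (1 / n * k i) * (∫ z, (A z * osc l n Gp z) *
          dd (ex j) (fun y => φ y i) z) else 0) +
        (if i = l then (1 / n) * (k j * ∫ z, (A z * osc l n Gp z) *
          dd (ex j) (fun y => φ y i) z) else 0) := by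
      intro i j
      have e2 : ∀ z, S z i j * dd (ex j) (fun y => φ y i) z =
        (1 / n * (k i * (if j = l then 1 else 0) + k j * (if i = l then 1 else 0))) *
          ((A z * osc l n Gp z) * dd (ex j) (fun y => φ y i) z) := by
        intro z; simp only [hS]; ring
      simp only [e2]
      rw [integral_const_mul]
      split_ifs <;> ring
    simp only [e1]
    simp only [Finset.sum_add_distrib, Finset.sum_ite_eq', Finset.mem_univ, if_true]
    rw [Finset.sum_comm (f := fun i j => if i = l then _ else _)]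
    simp only [Finset.sum_ite_eq', Finset.mem_univ, if_true]
    rw [← Finset.mul_sum, integral_mul_sum_dd hAG.integrable (hφ.comp l) k,
      ibp hAG (hφ1 l) (0, k)]
    have e3 : ∫ z, dd (0, k) (fun z => A z * osc l n Gp z) z * φ z l =
        ∫ z, dd (0, k) A z * osc l n Gp z * φ z l := by
      congr 1; ext z
      rw [dd_mod hAc.differentiable l n hG, show ((0 : ℝ), k).2 l = 0 from hk]
      ring
    rw [e3]
    ring
  have R2 : ∑ i, ∫ z, r z i * φ z i =
      ∑ i, (1 / n * k i) * (∫ z, dd (ex l) A z * osc l n Gp z * φ z i) +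
      (1 / n) * ∫ z, dd (0, k) A z * osc l n Gp z * φ z l := by
    have e1 : ∀ i, ∫ z, r z i * φ z i =
        (1 / n * k i) * (∫ z, dd (ex l) A z * osc l n Gp z * φ z i) +
        (if i = l then (1 / n) * ∫ z, dd (0, k) A z * osc l n Gp z * φ z i else 0) := by
      intro i
      have e2 : ∀ z, r z i * φ z i =
        (1 / n * k i) * (dd (ex l) A z * osc l n Gp z * φ z i) +
        (1 / n * (if i = l then 1 else 0)) * (dd (0, k) A z * osc l n Gp z * φ z i) := by
        intro z; simp only [hr]; ring
      simp only [e2]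
      rw [integral_add ((integrable_mul_cc b1.1 (hφ.comp i)).const_mul _)
        ((integrable_mul_cc b2.1 (hφ.comp i)).const_mul _), integral_const_mul, integral_const_mul]
      split_ifs <;> ring
    simp only [e1, Finset.sum_add_distrib, Finset.sum_ite_eq', Finset.mem_univ, if_true]
  show pair (fun z i j => a2 z * osc l n h z * (k i * k j)) φ = pair S φ + ∑ i, ∫ z, r z i * φ z i
  rw [L1, R1, R2]
  simp only [L2]
  rw [sub_add_add_cancel, ← Finset.sum_add_distrib]
  refine Finset.sum_congr rfl fun i _ => ?_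
  ring

end Pool.Agent.J6H20.LES
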