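import Pool.Agent.J6H20.LES.Diff

set_option autoImplicit false

open MeasureTheory Set Filter Topology
open scoped ContDiff ENNReal NNReal

namespace Pool.Agent.J6H20.LES

variable {Ω : Set (Fin 3 → ℝ)} {T : ℝ}

theorem est_r {G w g v q H : ℝ} (hq : 0 ≤ q) (hg : |g| ≤ q) (hv : |v| ≤ q) (hv1 : |v| ≤ 1)
    (hH : |G| + |w| + 1 ≤ H) : |(G + g) * (w + v) - G * w| ≤ q * H := by
  have e : (G + g) * (w + v) - G * w = G * v + g * w + g * v := by ring
  rw [e]
  have h1 : |G * v| ≤ |G| * q := by rw [abs_mul]; exact mul_le_mul_of_nonneg_left hv (abs_nonneg _)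
  have h2 : |g * w| ≤ q * |w| := by rw [abs_mul]; exact mul_le_mul_of_nonneg_right hg (abs_nonneg _)
  have h3 : |g * v| ≤ q * 1 := by rw [abs_mul]; exact mul_le_mul hg hv1 (abs_nonneg _) hq
  calc |G * v + g * w + g * v| ≤ |G * v| + |g * w| + |g * v| := abs_add_three _ _ _
    _ ≤ |G| * q + q * |w| + q * 1 := by linarith
    _ = q * (|G| + |w| + 1) := by ring
    _ ≤ q * H := mul_le_mul_of_nonneg_left hH hq

theorem est_R {G G' t t' e e' q H : ℝ} (hq : 0 ≤ q) (ht : |t| ≤ q) (ht' : |t'| ≤ q)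
    (he : |e| ≤ q) (he1 : |e| ≤ 1) (he1' : |e'| ≤ 1) (hg : |t + e| ≤ q)
    (hg' : |t' + e'| ≤ q) (hH : |G| + 1 ≤ H) (hH' : |G'| + 1 ≤ H) :
    |(G + (t + e)) * (G' + (t' + e')) - G * G' - t * t'| ≤ 3 * (q * H) := by
  have ee : (G + (t + e)) * (G' + (t' + e')) - G * G' - t * t' =
      G * (t' + e') + (t + e) * G' + (t * e' + e * t' + e * e') := by ring
  rw [ee]
  have h1 : |G * (t' + e')| ≤ |G| * q := by
    rw [abs_mul]; exact mul_le_mul_of_nonneg_left hg' (abs_nonneg _)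
  have h2 : |(t + e) * G'| ≤ q * |G'| := by
    rw [abs_mul]; exact mul_le_mul_of_nonneg_right hg (abs_nonneg _)
  have h3 : |t * e'| ≤ q := by
    rw [abs_mul]; nlinarith [abs_nonneg t, abs_nonneg e']
  have h4 : |e * t'| ≤ q := by
    rw [abs_mul]; nlinarith [abs_nonneg t', abs_nonneg e]
  have h5 : |e * e'| ≤ q := by
    rw [abs_mul]; nlinarith [abs_nonneg e', abs_nonneg e]
  have h6 := abs_add_three (t * e') (e * t') (e * e')
  have h7 := abs_add_three (G * (t' + e')) ((t + e) * G') (t * e' + e * t' + e * e')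
  have hH1 : 1 ≤ H := by linarith [abs_nonneg G]
  nlinarith

/-- indicator of a set -/
noncomputable def chi (K : Set X) (z : X) : ℝ := K.indicator (fun _ => (1 : ℝ)) z

theorem chi_nonneg (K : Set X) (z : X) : 0 ≤ chi K z := by
  unfold chi; exact indicator_nonneg (fun _ _ => zero_le_one) z

theorem chi_le_one (K : Set X) (z : X) : chi K z ≤ 1 := by
  unfold chi
  by_cases h : z ∈ K
  · rw [indicator_of_mem h]
  · rw [indicator_of_notMem h]; exact zero_le_one

theorem Cc.le_chi {K : Set X} {ι : Type*} [Fintype ι] {u : ι → X → ℝ} (h : ∀ i, Cc K (u i)) :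
    ∃ M, 0 ≤ M ∧ ∀ i z, |u i z| ≤ M * chi K z := by
  classical
  choose M hM0 hM using fun i => (h i).bdd
  refine ⟨∑ i, M i, Finset.sum_nonneg fun i _ => hM0 i, fun i z => ?_⟩
  by_cases hz : z ∈ K
  · unfold chi
    rw [indicator_of_mem hz, mul_one]
    exact (hM i z).trans (Finset.single_le_sum (fun j _ => hM0 j) (Finset.mem_univ i))
  · rw [(h i).zero hz]
    unfold chi
    rw [indicator_of_notMem hz]; simp

/-- uniform bounds on the building block -/
theorem wave_bounds {D : Set X} {a : X → ℝ} (ha : Cc D a) {k : Fin 3 → ℝ} (hk1 : ∀ i, |k i| ≤ 1)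
    (l : Fin 3) {φ Φ θ : ℝ → ℝ} (hφ : ∀ s, HasDerivAt φ (θ s) s)
    (hΦ : ∀ s, HasDerivAt Φ (φ s) s) {B : ℝ} (hB0 : 0 ≤ B) (hBφ : ∀ s, |φ s| ≤ B)
    (hBΦ : ∀ s, |Φ s| ≤ B) :
    ∃ C, 0 ≤ C ∧ ∀ n : ℝ, 1 ≤ n →
      (∀ z i, |vf a k l φ Φ n z i| ≤ C / n * chi (tsupport a) z) ∧
      (∀ z i, |dd et (fun z => vf a k l φ Φ n z i) z| ≤ C / n * chi (tsupport a) z) ∧
      (∀ z i m, |ef a k l φ Φ n z i m| ≤ C / n * chi (tsupport a) z) := by
  have hak : Cc (tsupport a) a := ⟨ha.smooth, ha.compact, Subset.rfl⟩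
  obtain ⟨M1, hM1, h1⟩ := Cc.le_chi (fun _ : Unit => hak)
  obtain ⟨M2, hM2, h2⟩ := Cc.le_chi (fun m : Fin 3 => hak.dd (ex m))
  obtain ⟨M3, hM3, h3⟩ := Cc.le_chi (fun _ : Unit => hak.dd et)
  obtain ⟨M4, hM4, h4⟩ := Cc.le_chi (fun i : Fin 3 => cc_cf hak k l i)
  obtain ⟨M5, hM5, h5⟩ := Cc.le_chi (fun p : Fin 3 × Fin 3 => (cc_cf hak k l p.1).dd (ex p.2))
  obtain ⟨M6, hM6, h6⟩ := Cc.le_chi (fun i : Fin 3 => (cc_cf hak k l i).dd et)
  set M : ℝ := M1 + M2 + M3 + M4 + M5 + M6 with hM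
  have hM0 : 0 ≤ M := by positivity
  refine ⟨3 * (M * B), by positivity, fun n hn => ?_⟩
  have hn0 : 0 < n := by linarith
  set c : X → ℝ := chi (tsupport a) with hc
  have hc0 : ∀ z, 0 ≤ c z := chi_nonneg _
  -- basic product bound
  have key : ∀ (z : X) (y s : ℝ) (h : ℝ → ℝ), (∀ s, |h s| ≤ B) → |y| ≤ M * c z →
      |y * h s| ≤ M * B * c z := by
    intro z y s h hh hy
    rw [abs_mul]
    calc |y| * |h s| ≤ (M * c z) * B := mul_le_mul hy (hh s) (abs_nonneg _)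
          (mul_nonneg hM0 (hc0 z))
      _ = _ := by ring
  have kb : ∀ (z : X) (i : Fin 3) (y : ℝ), |y| ≤ M * c z → |k i * y| ≤ M * c z := by
    intro z i y hy
    rw [abs_mul]
    calc |k i| * |y| ≤ 1 * |y| := mul_le_mul_of_nonneg_right (hk1 i) (abs_nonneg _)
      _ ≤ _ := by rw [one_mul]; exact hy
  have b1 : ∀ z, |a z| ≤ M * c z := fun z => (h1 () z).trans
    (mul_le_mul_of_nonneg_right (by rw [hM]; linarith) (hc0 z))
  have b2 : ∀ m z, |dd (ex m) a z| ≤ M * c z := fun m z => (h2 m z).trans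
    (mul_le_mul_of_nonneg_right (by rw [hM]; linarith) (hc0 z))
  have b3 : ∀ z, |dd et a z| ≤ M * c z := fun z => (h3 () z).trans
    (mul_le_mul_of_nonneg_right (by rw [hM]; linarith) (hc0 z))
  have b4 : ∀ i z, |cf a k l i z| ≤ M * c z := fun i z => (h4 i z).trans
    (mul_le_mul_of_nonneg_right (by rw [hM]; linarith) (hc0 z))
  have b5 : ∀ i m z, |dd (ex m) (cf a k l i) z| ≤ M * c z := fun i m z => (h5 (i, m) z).trans
    (mul_le_mul_of_nonneg_right (by rw [hM]; linarith) (hc0 z))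
  have b6 : ∀ i z, |dd et (cf a k l i) z| ≤ M * c z := fun i z => (h6 i z).trans
    (mul_le_mul_of_nonneg_right (by rw [hM]; linarith) (hc0 z))
  have i1 : ∀ (z : X) (y : ℝ), |y| ≤ M * B * c z → |(1 / n) * y| ≤ M * B / n * c z := by
    intro z y hy
    rw [abs_mul, abs_of_pos (by positivity : (0 : ℝ) < 1 / n)]
    calc (1 / n) * |y| ≤ (1 / n) * (M * B * c z) := mul_le_mul_of_nonneg_left hy (by positivity)
      _ = _ := by ring
  have i2 : ∀ (z : X) (y : ℝ), |y| ≤ M * B * c z → |(1 / n ^ 2) * y| ≤ M * B / n * c z := by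
    intro z y hy
    have hle : 1 / n ^ 2 ≤ 1 / n := by
      apply one_div_le_one_div_of_le hn0
      nlinarith
    rw [abs_mul, abs_of_pos (by positivity : (0 : ℝ) < 1 / n ^ 2)]
    calc (1 / n ^ 2) * |y| ≤ (1 / n) * |y| := mul_le_mul_of_nonneg_right hle (abs_nonneg _)
      _ ≤ (1 / n) * (M * B * c z) := mul_le_mul_of_nonneg_left hy (by positivity)
      _ = _ := by ring
  have hMn : ∀ z, 0 ≤ M * B / n * c z := fun z => mul_nonneg (by positivity) (hc0 z)
  have e3 : ∀ z, 3 * (M * B) / n * c z = M * B / n * c z + M * B / n * c z + M * B / n * c z := by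
    intro z; ring
  refine ⟨fun z i => ?_, fun z i => ?_, fun z i m => ?_⟩
  · rw [e3]
    unfold vf
    have f1 := i1 z _ (key z _ (n * z.2 l) φ hBφ (kb z i _ (b1 z)))
    have f2 := i2 z _ (key z _ (n * z.2 l) Φ hBΦ (b4 i z))
    have := abs_add_le ((1 / n) * (k i * a z * osc l n φ z))
      ((1 / n ^ 2) * (cf a k l i z * osc l n Φ z))
    simp only [osc] at this ⊢
    linarith [hMn z]
  · rw [e3, dt_vf ha k l hφ hΦ hn0.ne']
    have f1 := i1 z _ (key z _ (n * z.2 l) φ hBφ (kb z i _ (b3 z)))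
    have f2 := i2 z _ (key z _ (n * z.2 l) Φ hBΦ (b6 i z))
    have := abs_add_le ((1 / n) * (k i * dd et a z * osc l n φ z))
      ((1 / n ^ 2) * (dd et (cf a k l i) z * osc l n Φ z))
    simp only [osc] at this ⊢
    linarith [hMn z]
  · rw [e3]
    unfold ef
    have f1 := i1 z _ (key z _ (n * z.2 l) φ hBφ (kb z i _ (b2 m z)))
    have f2 : |if m = l then (1 / n) * (cf a k l i z * φ (n * z.2 l)) else 0| ≤
        M * B / n * c z := by
      split_ifs
      · exact i1 z _ (key z _ (n * z.2 l) φ hBφ (b4 i z))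
      · simpa using hMn z
    have f3 := i2 z _ (key z _ (n * z.2 l) Φ hBΦ (b5 i m z))
    simp only [osc]
    have := abs_add_three ((1 / n) * (k i * dd (ex m) a z * φ (n * z.2 l)))
      (if m = l then (1 / n) * (cf a k l i z * φ (n * z.2 l)) else 0)
      ((1 / n ^ 2) * (dd (ex m) (cf a k l i) z * Φ (n * z.2 l)))
    linarith

end Pool.Agent.J6H20.LES
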