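import Pool.Agent.J6H20.LES.PieceN

set_option autoImplicit false

open MeasureTheory Set Filter Topology
open scoped ContDiff ENNReal NNReal

namespace Pool.Agent.J6H20.LES

variable {Ω : Set (Fin 3 → ℝ)} {T : ℝ}

theorem Cc.sq {D : Set X} {a : X → ℝ} (ha : Cc D a) : Cc D (fun z => a z ^ 2) := by
  have := ha.mul ha.smooth
  convert this using 2
  ring

/-- The building block. -/
theorem piece (hΩ : IsOpen Ω) (hb : Bornology.IsBounded Ω) {L : ℝ} (hL : 0 ≤ L)
    (hLΩ : ∀ x ∈ Ω, ∀ i : Fin 3, x + L • (Pi.single i (1 : ℝ) : Fin 3 → ℝ) ∉ Ω)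
    {ν κ : ℝ} (hν : 0 ≤ ν) (hκ : 0 < κ) {f w : X → Fin 3 → ℝ}
    {G : X → Fin 3 → Fin 3 → ℝ} (h : State Ω T w G)
    {a : X → ℝ} (ha : Cc (dom Ω T) a) {k : Fin 3 → ℝ} (hk1 : ∀ i, |k i| ≤ 1) {l : Fin 3}
    (hk : k l = 0) {η : ℝ} (hη : 0 < η) :
    ∃ v : X → Fin 3 → ℝ, (∀ i, Cc (dom Ω T) (fun z => v z i)) ∧ (∀ z, ∑ i, gr v z i i = 0) ∧
      (∀ z i, |v z i| ≤ η) ∧ (∀ i m, ∫ z, (gr v z i m) ^ 2 ≤ κ⁻¹ * (∫ z, a z ^ 2) + η) ∧
      Small Ω T (fun ψ => Nf ν κ f (fun z i => w z i + v z i)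
        (fun z i m => G z i m + gr v z i m) ψ - Nf ν κ f w G ψ +
        pair (fun z i j => (a z) ^ 2 * (k i * k j)) ψ) η := by
  classical
  have hD := vol_dom hb T
  have iw : ∀ i, Integrable (fun z => w z i) := fun i =>
    int_of_memLp hD (h.mw i) (fun z hz => h.sw z hz i)
  have iG : ∀ i l, Integrable (fun z => G z i l) := fun i l =>
    int_of_memLp hD (h.mG i l) (fun z hz => h.sG z hz i l)
  set H1 : X → ℝ := fun z => ∑ l, |w z l| + ∑ i, ∑ l, |G z i l| with hH1
  have iH1 : Integrable H1 := (integrable_finsetSum _ fun l _ => (iw l).abs).add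
    (integrable_finsetSum _ fun i _ => integrable_finsetSum _ fun l _ => (iG i l).abs)
  have hHw : ∀ z, Hw w G z = 1 + H1 z := fun z => by simp only [Hw, hH1]; ring
  set K := tsupport a with hK
  have hKm : MeasurableSet K := ha.compact.measurableSet
  have hKf : volume K < ⊤ := ha.compact.measure_lt_top
  set F : X → ℝ := fun z => |a z| * Hw w G z with hF
  obtain ⟨Ma, _, hMa⟩ := ha.bdd
  have iF : Integrable F := by
    have : F = fun z => |a z| + |a z| * H1 z := by
      ext z; simp only [hF, hHw]; ring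
    rw [this]
    refine ha.integrable.abs.add (iH1.bdd_mul (c := Ma) ha.continuous.abs.aestronglyMeasurable
      (Eventually.of_forall fun z => by rw [Real.norm_eq_abs, abs_abs]; exact hMa z))
  have iχ : Integrable (chi K) := by
    unfold chi
    exact (integrable_indicator_iff hKm).2 (integrableOn_const hKf.ne)
  have iχH : Integrable (fun z => chi K z * Hw w G z) := by
    have : (fun z => chi K z * Hw w G z) = fun z => chi K z + chi K z * H1 z := by
      ext z; rw [hHw]; ring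
    rw [this]
    refine iχ.add (iH1.bdd_mul (c := 1) iχ.aestronglyMeasurable
      (Eventually.of_forall fun z => by
        rw [Real.norm_eq_abs, abs_of_nonneg (chi_nonneg _ _)]; exact chi_le_one _ _))
  set J : ℝ := ∫ z, F z with hJ
  have hJ0 : 0 ≤ J := integral_nonneg fun z => mul_nonneg (abs_nonneg _)
    (zero_le_one.trans (Hw_one_le _ _ _))
  set E : ℝ := ∫ z, chi K z * Hw w G z with hE
  have hE0 : 0 ≤ E := integral_nonneg fun z => mul_nonneg (chi_nonneg _ _)
    (zero_le_one.trans (Hw_one_le _ _ _))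
  set C2 : ℝ := 12 * L + 18 * ν + 81 * κ with hC2
  have hC20 : 0 ≤ C2 := by positivity
  set η1 : ℝ := η / (4 * (C2 + 7)) with hη1
  have hη10 : 0 < η1 := by positivity
  have hη1a : C2 * (2 * η1) ≤ η / 2 := by
    have : (C2 + 7) * η1 = η / 4 := by rw [hη1]; field_simp
    nlinarith
  have hη1b : 6 * η1 ≤ η / 2 := by
    have : (C2 + 7) * η1 = η / 4 := by rw [hη1]; field_simp
    nlinarith
  obtain ⟨Φ, φ, θ, Gp, Ap, m, B, hΦs, hφs, hθs, hGps, hΦ, hφ, hGp, hAp, hmb, hm0, hB0, hBΦ, hBφ,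
    hBθ, hBG, hBA⟩ := exists_profile hκ (show 0 < η1 / (J + 1) by positivity)
  have hmJ : m * J ≤ η1 := by
    calc m * J ≤ η1 / (J + 1) * J := mul_le_mul_of_nonneg_right hmb hJ0
      _ ≤ η1 := by
        rw [div_mul_eq_mul_div, div_le_iff₀ (by positivity)]
        nlinarith
  obtain ⟨C, hC0, hCb⟩ := wave_bounds ha hk1 l hφ hΦ hB0 hBφ hBΦ
  have hh : ContDiff ℝ ∞ (fun s => 1 - κ * θ s ^ 2) :=
    contDiff_const.sub (contDiff_const.mul (hθs.pow 2))
  obtain ⟨C3, hC30, hC3⟩ := small_osc hΩ hL hLΩ ha.sq hk1 hk hh hGps hGp hB0 hBG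
  have hθc : Continuous θ := hθs.continuous
  -- the two Riemann-Lebesgue limits
  have RL1 : Tendsto (fun n : ℕ => ∫ z, F z * osc l n (fun s => |θ s| - m) z) atTop (𝓝 0) := by
    refine RL iF (B := B + m) (by fun_prop) hAp (fun s => ?_) (fun s => (hBA s).trans (by linarith)) l
    have := hBθ s
    rw [abs_le]
    constructor <;> linarith [abs_nonneg (θ s)]
  have RL2 : Tendsto (fun n : ℕ => ∫ z, (a z) ^ 2 * osc l n (fun s => 1 - κ * θ s ^ 2) z)
      atTop (𝓝 0) := by
    refine RL ha.sq.integrable (B := B + 1 + κ * B ^ 2) hh.continuous hGp (fun s => ?_)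
      (fun s => (hBG s).trans (by nlinarith [mul_nonneg hκ.le (sq_nonneg B)])) l
    have h1 := hBθ s
    have h2 : θ s ^ 2 ≤ B ^ 2 := by
      rw [← sq_abs (θ s)]; exact pow_le_pow_left₀ (abs_nonneg _) h1 2
    have h3 : κ * θ s ^ 2 ≤ κ * B ^ 2 := mul_le_mul_of_nonneg_left h2 hκ.le
    have h4 : 0 ≤ κ * θ s ^ 2 := by positivity
    rw [abs_le]
    constructor <;> linarith
  -- choose n
  have ev1 : ∀ᶠ n : ℕ in atTop, |∫ z, F z * osc l n (fun s => |θ s| - m) z| < η1 / 2 := by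
    have := (Metric.tendsto_nhds.1 RL1) (η1 / 2) (by positivity)
    filter_upwards [this] with n hn
    rwa [Real.dist_eq, sub_zero] at hn
  have ev2 : ∀ᶠ n : ℕ in atTop,
      |∫ z, (a z) ^ 2 * osc l n (fun s => 1 - κ * θ s ^ 2) z| < κ * (η / 2) := by
    have := (Metric.tendsto_nhds.1 RL2) (κ * (η / 2)) (by positivity)
    filter_upwards [this] with n hn
    rwa [Real.dist_eq, sub_zero] at hn
  have evc : ∀ (A ε : ℝ), 0 < ε → ∀ᶠ n : ℕ in atTop, A / n ≤ ε := by
    intro A ε hε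
    have h1 : Tendsto (fun n : ℕ => A / (n : ℝ)) atTop (𝓝 0) := tendsto_const_div_atTop_nhds_zero_nat A
    have := (h1.eventually (gt_mem_nhds hε))
    exact this.mono fun n hn => le_of_lt hn
  obtain ⟨n, hn1, hn2, hn3, hn4, hn5, hn6, hn7⟩ := (ev1.and (ev2.and ((evc C 1 one_pos).and
    ((evc C η hη).and ((evc C3 (η / 2) (by positivity)).and
    ((evc (C * E) (η1 / 2) (by positivity)).and (eventually_ge_atTop 1))))))).exists
  have hnr : (1 : ℝ) ≤ n := by exact_mod_cast hn7
  have hn0 : (0 : ℝ) < n := by linarith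
  have hc0 : 0 ≤ C / n := by positivity
  obtain ⟨w1, w2, w3⟩ := hCb n hnr
  -- the integral of P
  have iFθ : Integrable (fun z => F z * osc l n (fun s => |θ s|) z) := by
    refine iF.mul_bdd (c := B) ?_ (Eventually.of_forall fun z => ?_)
    · unfold osc
      exact (hθc.abs.comp (by fun_prop)).aestronglyMeasurable
    · rw [Real.norm_eq_abs]; unfold osc; rw [abs_abs]; exact hBθ _
  have hPeq : ∀ z, (|a z * osc l n θ z| + C / n * chi K z) * Hw w G z =
      F z * osc l n (fun s => |θ s|) z + C / n * (chi K z * Hw w G z) := by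
    intro z
    simp only [hF, osc, abs_mul]; ring
  have iP : Integrable (fun z => (|a z * osc l n θ z| + C / n * chi K z) * Hw w G z) := by
    simp only [hPeq]
    exact iFθ.add (iχH.const_mul _)
  have hPle : ∫ z, (|a z * osc l n θ z| + C / n * chi K z) * Hw w G z ≤ 2 * η1 := by
    simp only [hPeq]
    rw [integral_add iFθ (iχH.const_mul _), integral_const_mul]
    have e1 : ∫ z, F z * osc l n (fun s => |θ s|) z =
        (∫ z, F z * osc l n (fun s => |θ s| - m) z) + m * J := by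
      rw [hJ, ← integral_const_mul, ← integral_add]
      · congr 1; ext z; simp only [osc]; ring
      · have : (fun z => F z * osc l n (fun s => |θ s| - m) z) =
            fun z => F z * osc l n (fun s => |θ s|) z - m * F z := by
          ext z; simp only [osc]; ring
        rw [this]
        exact iFθ.sub (iF.const_mul _)
      · exact iF.const_mul _
    rw [e1]
    have e2 : C / n * E = C * E / n := by ring
    have e3 : C / n * ∫ z, chi K z * Hw w G z ≤ η1 / 2 := by
      rw [← hE, e2]; exact hn6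
    have e4 := (abs_lt.1 hn1).2
    linarith
  have hP0 : 0 ≤ ∫ z, (|a z * osc l n θ z| + C / n * chi K z) * Hw w G z :=
    integral_nonneg fun z => mul_nonneg (add_nonneg (abs_nonneg _)
      (mul_nonneg hc0 (chi_nonneg _ _))) (zero_le_one.trans (Hw_one_le _ _ _))
  obtain ⟨p1, p2⟩ := piece_n (f := f) hΩ hb hL hLΩ hν hκ.le h ha hk1 hφs hΦs hφ hΦ hn0 hc0 hn3
    w1 w2 w3 (hC3 n hn0) iP
  refine ⟨vf a k l φ Φ n, fun i => cc_vf ha k l hφs hΦs n i, fun z => ?_, fun z i => ?_,
    fun i m' => ?_, p1.mono ?_⟩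
  · exact div_vf ha hk hφ hΦ hn0.ne' z
  · refine (w1 z i).trans ?_
    calc C / n * chi K z ≤ C / n * 1 := mul_le_mul_of_nonneg_left (chi_le_one _ _) hc0
      _ ≤ η := by rw [mul_one]; exact hn4
  · refine (p2 i m').trans ?_
    have e1 : ∫ z, (a z * osc l n θ z) ^ 2 = κ⁻¹ * ((∫ z, (a z) ^ 2) -
        ∫ z, (a z) ^ 2 * osc l n (fun s => 1 - κ * θ s ^ 2) z) := by
      have io : Integrable (fun z => (a z) ^ 2 * osc l n (fun s => 1 - κ * θ s ^ 2) z) :=
        (ha.sq.mul (contDiff_osc l n hh)).integrable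
      rw [← integral_sub ha.sq.integrable io, ← integral_const_mul]
      congr 1; ext z
      simp only [osc]
      field_simp
      ring
    rw [e1]
    have e2 := (abs_lt.1 hn2).1
    have e3 : κ⁻¹ * (-∫ z, (a z) ^ 2 * osc l n (fun s => 1 - κ * θ s ^ 2) z) ≤ η / 2 := by
      rw [inv_mul_le_iff₀ hκ]; linarith
    have e4 : κ⁻¹ * ((∫ z, (a z) ^ 2) -
        ∫ z, (a z) ^ 2 * osc l n (fun s => 1 - κ * θ s ^ 2) z) =
        κ⁻¹ * (∫ z, (a z) ^ 2) + κ⁻¹ *
          (-∫ z, (a z) ^ 2 * osc l n (fun s => 1 - κ * θ s ^ 2) z) := by ring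
    rw [e4]
    linarith
  · rw [← hC2]
    have : C2 * (∫ z, (|a z * osc l n θ z| + C / n * chi K z) * Hw w G z) ≤ η / 2 :=
      (mul_le_mul_of_nonneg_left hPle hC20).trans hη1a
    linarith

end Pool.Agent.J6H20.LES
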