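import Pool.Agent.J6H20.LES.Piece

set_option autoImplicit false

open MeasureTheory Set Filter Topology
open scoped ContDiff ENNReal NNReal

namespace Pool.Agent.J6H20.LES

variable {Ω : Set (Fin 3 → ℝ)} {T : ℝ}

/-- the weight -/
noncomputable def Hw (w : X → Fin 3 → ℝ) (G : X → Fin 3 → Fin 3 → ℝ) (z : X) : ℝ :=
  1 + ∑ l, |w z l| + ∑ i, ∑ l, |G z i l|

theorem Hw_one_le (w : X → Fin 3 → ℝ) (G : X → Fin 3 → Fin 3 → ℝ) (z : X) : 1 ≤ Hw w G z := by
  unfold Hw
  have h1 : 0 ≤ ∑ l, |w z l| := Finset.sum_nonneg fun _ _ => abs_nonneg _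
  have h2 : 0 ≤ ∑ i, ∑ l, |G z i l| :=
    Finset.sum_nonneg fun _ _ => Finset.sum_nonneg fun _ _ => abs_nonneg _
  linarith

theorem Hw_G (w : X → Fin 3 → ℝ) (G : X → Fin 3 → Fin 3 → ℝ) (z : X) (i l m : Fin 3) :
    |G z i l| + |w z m| + 1 ≤ Hw w G z := by
  unfold Hw
  have h1 : |w z m| ≤ ∑ l, |w z l| :=
    Finset.single_le_sum (f := fun l => |w z l|) (fun _ _ => abs_nonneg _) (Finset.mem_univ m)
  have h3 : |G z i l| ≤ ∑ l, |G z i l| :=
    Finset.single_le_sum (f := fun l => |G z i l|) (fun _ _ => abs_nonneg _) (Finset.mem_univ l)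
  have h2 : ∑ l, |G z i l| ≤ ∑ i, ∑ l, |G z i l| :=
    Finset.single_le_sum (f := fun i => ∑ l, |G z i l|)
      (fun _ _ => Finset.sum_nonneg fun _ _ => abs_nonneg _) (Finset.mem_univ i)
  linarith

theorem piece_n (hΩ : IsOpen Ω) (hb : Bornology.IsBounded Ω) {L : ℝ} (hL : 0 ≤ L)
    (hLΩ : ∀ x ∈ Ω, ∀ i : Fin 3, x + L • (Pi.single i (1 : ℝ) : Fin 3 → ℝ) ∉ Ω)
    {ν κ : ℝ} (hν : 0 ≤ ν) (hκ : 0 ≤ κ) {f w : X → Fin 3 → ℝ}
    {G : X → Fin 3 → Fin 3 → ℝ} (h : State Ω T w G)
    {a : X → ℝ} (ha : Cc (dom Ω T) a) {k : Fin 3 → ℝ} (hk1 : ∀ i, |k i| ≤ 1) {l : Fin 3}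
    {φ Φ θ : ℝ → ℝ} (hφs : ContDiff ℝ ∞ φ) (hΦs : ContDiff ℝ ∞ Φ)
    (hφ : ∀ s, HasDerivAt φ (θ s) s) (hΦ : ∀ s, HasDerivAt Φ (φ s) s)
    {n c C3 : ℝ} (hn : 0 < n) (hc0 : 0 ≤ c) (hc1 : c ≤ 1)
    (hb1 : ∀ z i, |vf a k l φ Φ n z i| ≤ c * chi (tsupport a) z)
    (hb2 : ∀ z i, |dd et (fun z => vf a k l φ Φ n z i) z| ≤ c * chi (tsupport a) z)
    (hb3 : ∀ z i m, |ef a k l φ Φ n z i m| ≤ c * chi (tsupport a) z)
    (hosc : Small Ω T (pair (fun z i j => (a z) ^ 2 * osc l n (fun s => 1 - κ * θ s ^ 2) z *
      (k i * k j))) C3)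
    (hP : Integrable (fun z => (|a z * osc l n θ z| + c * chi (tsupport a) z) * Hw w G z)) :
    Small Ω T (fun ψ => Nf ν κ f (fun z i => w z i + vf a k l φ Φ n z i)
        (fun z i m => G z i m + gr (vf a k l φ Φ n) z i m) ψ - Nf ν κ f w G ψ +
        pair (fun z i j => (a z) ^ 2 * (k i * k j)) ψ)
      ((12 * L + 18 * ν + 81 * κ) *
        (∫ z, (|a z * osc l n θ z| + c * chi (tsupport a) z) * Hw w G z) + C3) ∧
    ∀ i m, ∫ z, (gr (vf a k l φ Φ n) z i m) ^ 2 ≤ (∫ z, (a z * osc l n θ z) ^ 2) +
      3 * ∫ z, (|a z * osc l n θ z| + c * chi (tsupport a) z) * Hw w G z := by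
  classical
  set v : X → Fin 3 → ℝ := vf a k l φ Φ n with hvdef
  set K := tsupport a with hK
  set q : X → ℝ := fun z => |a z * osc l n θ z| + c * chi K z with hq
  set H : X → ℝ := Hw w G with hH
  set I : ℝ := ∫ z, (|a z * osc l n θ z| + c * chi K z) * H z with hI
  have hv : ∀ i, Cc (dom Ω T) (fun z => v z i) := fun i => cc_vf ha k l hφs hΦs n i
  have hg : ∀ z i m, gr v z i m =
      (if m = l then k i * a z * osc l n θ z else 0) + ef a k l φ Φ n z i m := fun z i m =>
    grad_vf ha k l hφ hΦ hn.ne' i m z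
  have hcχ0 : ∀ z, 0 ≤ c * chi K z := fun z => mul_nonneg hc0 (chi_nonneg _ _)
  have hcχ1 : ∀ z, c * chi K z ≤ 1 := fun z => by
    have := chi_le_one K z
    nlinarith [chi_nonneg K z]
  have hq0 : ∀ z, 0 ≤ q z := fun z => add_nonneg (abs_nonneg _) (hcχ0 z)
  have hqχ : ∀ z, c * chi K z ≤ q z := fun z => by
    simp only [hq]; linarith [abs_nonneg (a z * osc l n θ z)]
  have hqa : ∀ z, |a z * osc l n θ z| ≤ q z := fun z => by
    simp only [hq]; linarith [hcχ0 z]
  have hH1 : ∀ z, 1 ≤ H z := Hw_one_le w G
  have hqP : ∀ z, q z ≤ q z * H z := fun z => by nlinarith [hq0 z, hH1 z]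
  have ht : ∀ z i m, |(if m = l then k i * a z * osc l n θ z else 0)| ≤ |a z * osc l n θ z| := by
    intro z i m
    split_ifs
    · rw [mul_assoc, abs_mul]
      have := mul_le_mul_of_nonneg_right (hk1 i) (abs_nonneg (a z * osc l n θ z))
      linarith
    · rw [abs_zero]; exact abs_nonneg _
  have hgq : ∀ z i m, |gr v z i m| ≤ q z := by
    intro z i m
    rw [hg]
    refine (abs_add_le _ _).trans (add_le_add (ht z i m) (hb3 z i m))
  have hPint : Integrable (fun z => q z * H z) := hP
  have iv : ∀ i, Integrable (fun z => v z i) := fun i => (hv i).integrable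
  have ig : ∀ i m, Integrable (fun z => gr v z i m) := fun i m => ((hv i).dd (ex m)).integrable
  have h' := h.add hv
  -- term 1
  have s1 : Small Ω T (fun ψ => ∑ i, ∫ z, dd et (fun y => v y i) z * ψ z i) (L * (3 * I)) := by
    refine (small_vec (T := T) hΩ hL hLΩ (r := fun z i => dd et (fun y => v y i) z)
      (fun i => ((hv i).dd et).integrable) (fun z hz i => ((hv i).dd et).zero hz)).mono ?_
    refine mul_le_mul_of_nonneg_left ?_ hL
    have : ∀ i, ∫ z, |dd et (fun y => v y i) z| ≤ I := fun i => by
      refine integral_mono ((hv i).dd et).integrable.abs hPint fun z => ?_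
      exact (hb2 z i).trans ((hqχ z).trans (hqP z))
    calc ∑ i, ∫ z, |dd et (fun y => v y i) z| ≤ ∑ i : Fin 3, I :=
          Finset.sum_le_sum fun i _ => this i
      _ = 3 * I := by simp
  -- term 2
  have ir : ∀ i, Integrable (fun z => ∑ m, ((G z i m + gr v z i m) * (w z m + v z m) -
      G z i m * w z m)) := fun i =>
    integrable_finsetSum _ fun m _ => ((h'.mG i m).integrable_mul (h'.mw m)).sub
      ((h.mG i m).integrable_mul (h.mw m))
  have s2 : Small Ω T (fun ψ => ∑ i, ∫ z, (∑ m, ((G z i m + gr v z i m) * (w z m + v z m) -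
      G z i m * w z m)) * ψ z i) (L * (3 * (3 * I))) := by
    refine (small_vec (T := T) hΩ hL hLΩ (r := fun z i => ∑ m, ((G z i m + gr v z i m) *
      (w z m + v z m) - G z i m * w z m)) ir (fun z hz i => ?_)).mono ?_
    · refine Finset.sum_eq_zero fun m _ => ?_
      rw [h'.sG z hz i m, h.sG z hz i m]; ring
    refine mul_le_mul_of_nonneg_left ?_ hL
    have : ∀ i, ∫ z, |∑ m, ((G z i m + gr v z i m) * (w z m + v z m) - G z i m * w z m)| ≤
        3 * I := fun i => by
      rw [hI, ← integral_const_mul]
      refine integral_mono (ir i).abs (hPint.const_mul 3) fun z => ?_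
      calc |∑ m, ((G z i m + gr v z i m) * (w z m + v z m) - G z i m * w z m)|
          ≤ ∑ m, |(G z i m + gr v z i m) * (w z m + v z m) - G z i m * w z m| :=
            Finset.abs_sum_le_sum_abs _ _
        _ ≤ ∑ m : Fin 3, q z * H z := Finset.sum_le_sum fun m _ =>
            est_r (hq0 z) (hgq z i m) ((hb1 z m).trans (hqχ z)) ((hb1 z m).trans (hcχ1 z))
              (Hw_G w G z i m m)
        _ = 3 * (q z * H z) := by simp
    calc ∑ i, ∫ z, |∑ m, ((G z i m + gr v z i m) * (w z m + v z m) - G z i m * w z m)|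
        ≤ ∑ i : Fin 3, 3 * I := Finset.sum_le_sum fun i _ => this i
      _ = 3 * (3 * I) := by simp
  -- term 3
  have st3 : Stress Ω T (fun z i m => ν * (gr v z i m + gr v z m i)) :=
    ⟨fun i j => ((ig i j).add (ig j i)).const_mul ν, fun z i j => by ring, fun z hz i j => by
      have e1 : gr v z i j = 0 := ((hv i).dd (ex j)).zero hz
      have e2 : gr v z j i = 0 := ((hv j).dd (ex i)).zero hz
      rw [e1, e2]; ring⟩
  have s3 : Small Ω T (pair (fun z i m => ν * (gr v z i m + gr v z m i))) (18 * ν * I) := by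
    refine (small_sym st3).mono ?_
    have : ∀ i j, ∫ z, |ν * (gr v z i j + gr v z j i)| ≤ 2 * ν * I := fun i j => by
      rw [hI, ← integral_const_mul]
      refine integral_mono (st3.int i j).abs (hPint.const_mul _) fun z => ?_
      simp only
      rw [abs_mul, abs_of_nonneg hν]
      have e1 := (hgq z i j).trans (hqP z)
      have e2 := (hgq z j i).trans (hqP z)
      have e3 := abs_add_le (gr v z i j) (gr v z j i)
      have e4 : ν * |gr v z i j + gr v z j i| ≤ ν * (2 * (q z * H z)) :=
        mul_le_mul_of_nonneg_left (by linarith) hν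
      calc _ ≤ ν * (2 * (q z * H z)) := e4
        _ = 2 * ν * (q z * H z) := by ring
    unfold nrm
    calc ∑ i, ∑ j, ∫ z, |ν * (gr v z i j + gr v z j i)| ≤ ∑ i : Fin 3, ∑ j : Fin 3, 2 * ν * I :=
          Finset.sum_le_sum fun i _ => Finset.sum_le_sum fun j _ => this i j
      _ = _ := by simp; ring
  -- term 5
  have tt : ∀ z i j, ∑ m, (if m = l then k i * a z * osc l n θ z else 0) *
      (if m = l then k j * a z * osc l n θ z else 0) = k i * k j * (a z * osc l n θ z) ^ 2 := by
    intro z i j
    have : ∀ m, (if m = l then k i * a z * osc l n θ z else 0) *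
      (if m = l then k j * a z * osc l n θ z else 0) =
      if m = l then k i * k j * (a z * osc l n θ z) ^ 2 else 0 := by
      intro m; split_ifs <;> ring
    simp only [this, Finset.sum_ite_eq', Finset.mem_univ, if_true]
  have ho2 : ∀ z, osc l n (fun s => 1 - κ * θ s ^ 2) z = 1 - κ * (osc l n θ z) ^ 2 := fun z => rfl
  set R5 : X → Fin 3 → Fin 3 → ℝ := fun z i j => - κ * ∑ m, ((G z i m + gr v z i m) *
      (G z j m + gr v z j m) - G z i m * G z j m -
      (if m = l then k i * a z * osc l n θ z else 0) *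
      (if m = l then k j * a z * osc l n θ z else 0)) with hR5
  have ha2 : Cc (dom Ω T) (fun z => a z ^ 2) := by
    have := ha.mul ha.smooth
    convert this using 2
    ring
  have hθ2i : Integrable (fun z => (a z * osc l n θ z) ^ 2) := by
    -- from the square of gradient bounds: continuous compactly supported
    have hθc : Continuous θ := by
      have : θ = deriv φ := by ext s; exact (hφ s).deriv.symm
      rw [this]
      exact hφs.continuous_deriv (by simp)
    have hcont : Continuous (fun z => (a z * osc l n θ z) ^ 2) := by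
      unfold osc
      exact ((ha.continuous).mul (hθc.comp (by fun_prop))).pow 2
    have hcs : HasCompactSupport (fun z => (a z * osc l n θ z) ^ 2) := by
      refine HasCompactSupport.intro (K := tsupport a) ha.compact ?_
      intro z hz
      rw [image_eq_zero_of_notMem_tsupport hz]; ring
    exact hcont.integrable_of_hasCompactSupport hcs
  have st5 : Stress Ω T R5 := by
    refine ⟨fun i j => ?_, fun z i j => ?_, fun z hz i j => ?_⟩
    · simp only [hR5]
      refine Integrable.const_mul ?_ _
      have : ∀ z, ∑ m, ((G z i m + gr v z i m) * (G z j m + gr v z j m) - G z i m * G z j m -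
          (if m = l then k i * a z * osc l n θ z else 0) *
          (if m = l then k j * a z * osc l n θ z else 0)) =
          (∑ m, ((G z i m + gr v z i m) * (G z j m + gr v z j m) - G z i m * G z j m)) -
          k i * k j * (a z * osc l n θ z) ^ 2 := by
        intro z; rw [Finset.sum_sub_distrib, tt]
      simp only [this]
      refine Integrable.sub ?_ (hθ2i.const_mul _)
      exact integrable_finsetSum _ fun m _ => ((h'.mG i m).integrable_mul (h'.mG j m)).sub
        ((h.mG i m).integrable_mul (h.mG j m))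
    · simp only [hR5]
      congr 1
      refine Finset.sum_congr rfl fun m _ => ?_
      ring
    · simp only [hR5]
      have : ∑ m, ((G z i m + gr v z i m) * (G z j m + gr v z j m) - G z i m * G z j m -
          (if m = l then k i * a z * osc l n θ z else 0) *
          (if m = l then k j * a z * osc l n θ z else 0)) = 0 := by
        refine Finset.sum_eq_zero fun m _ => ?_
        have e1 : G z i m + gr v z i m = 0 := h'.sG z hz i m
        rw [e1, h.sG z hz i m, ha.zero hz]
        split_ifs <;> ring
      rw [this]; ring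
  have s5 : Small Ω T (pair R5) (81 * κ * I) := by
    refine (small_sym st5).mono ?_
    have : ∀ i j, ∫ z, |R5 z i j| ≤ 9 * κ * I := fun i j => by
      rw [hI, ← integral_const_mul]
      refine integral_mono (st5.int i j).abs (hPint.const_mul _) fun z => ?_
      simp only [hR5]
      rw [abs_mul, abs_neg, abs_of_nonneg hκ]
      have e1 : |∑ m, ((G z i m + gr v z i m) * (G z j m + gr v z j m) - G z i m * G z j m -
          (if m = l then k i * a z * osc l n θ z else 0) *
          (if m = l then k j * a z * osc l n θ z else 0))| ≤ 9 * (q z * H z) := by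
        calc _ ≤ ∑ m, |(G z i m + gr v z i m) * (G z j m + gr v z j m) - G z i m * G z j m -
              (if m = l then k i * a z * osc l n θ z else 0) *
              (if m = l then k j * a z * osc l n θ z else 0)| := Finset.abs_sum_le_sum_abs _ _
          _ ≤ ∑ m : Fin 3, 3 * (q z * H z) := Finset.sum_le_sum fun m _ => by
              have eg1 := hgq z i m
              have eg2 := hgq z j m
              rw [hg] at eg1 eg2
              rw [hg z i m, hg z j m]
              refine est_R (hq0 z) ((ht z i m).trans (hqa z)) ((ht z j m).trans (hqa z))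
                ((hb3 z i m).trans (hqχ z)) ((hb3 z i m).trans (hcχ1 z))
                ((hb3 z j m).trans (hcχ1 z)) eg1 eg2 ?_ ?_
              · have := Hw_G w G z i m m
                linarith [abs_nonneg (w z m)]
              · have := Hw_G w G z j m m
                linarith [abs_nonneg (w z m)]
          _ = 9 * (q z * H z) := by simp; ring
      calc _ ≤ κ * (9 * (q z * H z)) := mul_le_mul_of_nonneg_left e1 hκ
        _ = 9 * κ * (q z * H z) := by ring
    unfold nrm
    calc ∑ i, ∑ j, ∫ z, |R5 z i j| ≤ ∑ i : Fin 3, ∑ j : Fin 3, 9 * κ * I :=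
          Finset.sum_le_sum fun i _ => Finset.sum_le_sum fun j _ => this i j
      _ = _ := by simp; ring
  refine ⟨?_, ?_⟩
  · have hall := (((s1.add s2).add s3).add s5).add hosc
    refine (hall.mono ?_).congr fun ψ hψ => ?_
    · apply le_of_eq; ring
    · have hd := Nf_diff (ν := ν) (κ := κ) (f := f) hb h hv hψ
      rw [hd]
      have hosci : ∀ i j, Integrable (fun z => (a z) ^ 2 * osc l n (fun s => 1 - κ * θ s ^ 2) z *
          (k i * k j)) := by
        intro i j
        refine Integrable.mul_const ?_ _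
        have : ∀ z, (a z) ^ 2 * osc l n (fun s => 1 - κ * θ s ^ 2) z =
            a z ^ 2 - κ * (a z * osc l n θ z) ^ 2 := by
          intro z; rw [ho2]; ring
        simp only [this]
        exact ha2.integrable.sub (hθ2i.const_mul _)
      have e1 : pair (fun z i j => - κ * ∑ m, ((G z i m + gr v z i m) * (G z j m + gr v z j m) -
            G z i m * G z j m)) ψ + pair (fun z i j => (a z) ^ 2 * (k i * k j)) ψ =
          pair R5 ψ + pair (fun z i j => (a z) ^ 2 * osc l n (fun s => 1 - κ * θ s ^ 2) z *
            (k i * k j)) ψ := by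
        rw [← pair_add (fun i j => ?_) (fun i j => ha2.integrable.mul_const _) hψ,
          ← pair_add st5.int hosci hψ]
        · congr 1
          ext z i j
          simp only [hR5, ho2]
          have : ∑ m, ((G z i m + gr v z i m) * (G z j m + gr v z j m) - G z i m * G z j m -
            (if m = l then k i * a z * osc l n θ z else 0) *
            (if m = l then k j * a z * osc l n θ z else 0)) =
            (∑ m, ((G z i m + gr v z i m) * (G z j m + gr v z j m) - G z i m * G z j m)) -
            k i * k j * (a z * osc l n θ z) ^ 2 := by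
            rw [Finset.sum_sub_distrib, tt]
          rw [this]
          ring
        · refine Integrable.const_mul ?_ _
          exact integrable_finsetSum _ fun m _ => ((h'.mG i m).integrable_mul (h'.mG j m)).sub
            ((h.mG i m).integrable_mul (h.mG j m))
      linarith
  · intro i m
    rw [hI, ← integral_const_mul, ← integral_add hθ2i (hPint.const_mul 3)]
    refine integral_mono ?_ (hθ2i.add (hPint.const_mul 3)) fun z => ?_
    · have hm := ((hv i).dd (ex m)).memLp
      exact hm.integrable_sq
    · simp only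
      rw [hg]
      set t := (if m = l then k i * a z * osc l n θ z else 0) with htd
      set e := ef a k l φ Φ n z i m with hed
      have e1 : t ^ 2 ≤ (a z * osc l n θ z) ^ 2 := by
        rw [← sq_abs t, ← sq_abs (a z * osc l n θ z)]
        exact pow_le_pow_left₀ (abs_nonneg _) (ht z i m) 2
      have e2 : |t| ≤ q z := (ht z i m).trans (hqa z)
      have e3 : |e| ≤ q z := (hb3 z i m).trans (hqχ z)
      have e4 : |e| ≤ 1 := (hb3 z i m).trans (hcχ1 z)
      have e5 : |t * e| ≤ q z := by
        rw [abs_mul]; nlinarith [abs_nonneg t, abs_nonneg e]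
      have e6 : |e * e| ≤ q z := by
        rw [abs_mul]; nlinarith [abs_nonneg e]
      have e7 := hqP z
      have e8 := le_abs_self (t * e)
      have e9 := le_abs_self (e * e)
      show (t + e) ^ 2 ≤ (a z * osc l n θ z) ^ 2 + 3 * (q z * H z)
      nlinarith

end Pool.Agent.J6H20.LES
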