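import Mathlib

set_option autoImplicit false

open MeasureTheory Set Filter Topology
open scoped ContDiff ENNReal NNReal

namespace Pool.Agent.J6H20.LES

open Real in
theorem per_prim {q : ℝ → ℝ} (hq : Continuous q) (hp : Function.Periodic q (2 * π))
    (h0 : ∫ s in (0 : ℝ)..(2 * π), q s = 0) :
    ∃ Q : ℝ → ℝ, (∀ s, HasDerivAt Q (q s) s) ∧ ∃ B, ∀ s, |Q s| ≤ B := by
  set Q : ℝ → ℝ := fun s => ∫ t in (0 : ℝ)..s, q t with hQ
  have hd : ∀ s, HasDerivAt Q (q s) s := fun s =>
    intervalIntegral.integral_hasDerivAt_right (hq.intervalIntegrable _ _)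
      (hq.stronglyMeasurableAtFilter _ _) hq.continuousAt
  have hper : Function.Periodic Q (2 * π) := by
    intro s
    have h1 : ∫ t in (0 : ℝ)..(s + 2 * π), q t =
        (∫ t in (0 : ℝ)..s, q t) + ∫ t in s..(s + 2 * π), q t :=
      (intervalIntegral.integral_add_adjacent_intervals (hq.intervalIntegrable _ _)
        (hq.intervalIntegrable _ _)).symm
    have h2 : ∫ t in s..(s + 2 * π), q t = ∫ t in (0 : ℝ)..(0 + 2 * π), q t :=
      hp.intervalIntegral_add_eq s 0
    simp only [hQ]
    rw [h1, h2, zero_add, h0, add_zero]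
  have hc : Continuous Q := by
    rw [continuous_iff_continuousAt]; exact fun s => (hd s).continuousAt
  have hb : Bornology.IsBounded (range Q) :=
    hper.isBounded_of_continuous (by positivity) hc
  obtain ⟨B, hB⟩ := hb.exists_norm_le
  exact ⟨Q, hd, B, fun s => by simpa [Real.norm_eq_abs] using hB _ (mem_range_self s)⟩

section
open Real

/-- elementary profile -/
noncomputable def ph (lam s : ℝ) : ℝ := arctan (lam * sin s)
/-- derivative of the elementary profile -/
noncomputable def th (lam s : ℝ) : ℝ := lam * cos s / (1 + (lam * sin s) ^ 2)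

theorem hasDerivAt_ph (lam s : ℝ) : HasDerivAt (ph lam) (th lam s) s := by
  have h1 : HasDerivAt (fun s => lam * sin s) (lam * cos s) s := (hasDerivAt_sin s).const_mul lam
  have := h1.arctan
  unfold ph th
  convert this using 1
  ring

theorem contDiff_th (lam : ℝ) : ContDiff ℝ ∞ (th lam) := by
  unfold th
  refine ContDiff.div (contDiff_const.mul contDiff_cos)
    (contDiff_const.add ((contDiff_const.mul contDiff_sin).pow 2)) fun s => ?_
  positivity

theorem contDiff_ph (lam : ℝ) : ContDiff ℝ ∞ (ph lam) := by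
  unfold ph
  exact contDiff_arctan.comp (contDiff_const.mul contDiff_sin)

theorem per_th (lam : ℝ) : Function.Periodic (th lam) (2 * π) := by
  intro s; unfold th; rw [cos_add_two_pi, sin_add_two_pi]

theorem per_ph (lam : ℝ) : Function.Periodic (ph lam) (2 * π) := by
  intro s; unfold ph; rw [sin_add_two_pi]

theorem int_ph (lam : ℝ) : ∫ s in (0 : ℝ)..(2 * π), ph lam s = 0 := by
  have hc : Continuous (ph lam) := (contDiff_ph lam).continuous
  have h1 : ∫ s in (0 : ℝ)..(2 * π), ph lam s =
      (∫ s in (0 : ℝ)..π, ph lam s) + ∫ s in π..(2 * π), ph lam s :=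
    (intervalIntegral.integral_add_adjacent_intervals (hc.intervalIntegrable _ _)
        (hc.intervalIntegrable _ _)).symm
  have h2 : ∫ s in π..(2 * π), ph lam s = ∫ s in (0 : ℝ)..π, ph lam (s + π) := by
    rw [intervalIntegral.integral_comp_add_right]
    congr 1 <;> ring
  have h3 : ∀ s, ph lam (s + π) = - ph lam s := by
    intro s
    unfold ph
    rw [sin_add_pi, mul_neg, arctan_neg]
  rw [h1, h2]
  simp only [h3]
  rw [intervalIntegral.integral_neg]
  ring

theorem int_abs_th {lam : ℝ} (hl : 0 < lam) : ∫ s in (0 : ℝ)..(2 * π), |th lam s| ≤ 2 * π := by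
  have hc : Continuous (th lam) := (contDiff_th lam).continuous
  have hca : Continuous (fun s => |th lam s|) := hc.abs
  have hp : Function.Periodic (fun s => |th lam s|) (2 * π) := by
    intro s; simp only; rw [per_th lam s]
  have h0 : ∫ s in (0 : ℝ)..(0 + 2 * π), |th lam s| =
      ∫ s in (-(π / 2))..(-(π / 2) + 2 * π), |th lam s| := hp.intervalIntegral_add_eq 0 _
  rw [zero_add] at h0
  have h1 : ∫ s in (-(π / 2))..(-(π / 2) + 2 * π), |th lam s| =
      (∫ s in (-(π / 2))..(π / 2), |th lam s|) + ∫ s in (π / 2)..(-(π / 2) + 2 * π), |th lam s| :=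
    (intervalIntegral.integral_add_adjacent_intervals (hca.intervalIntegrable _ _)
        (hca.intervalIntegrable _ _)).symm
  have h2 : ∫ s in (-(π / 2))..(π / 2), |th lam s| = ph lam (π / 2) - ph lam (-(π / 2)) := by
    rw [← intervalIntegral.integral_eq_sub_of_hasDerivAt (f := ph lam) (f' := th lam)
      (fun s _ => hasDerivAt_ph lam s) (hc.intervalIntegrable _ _)]
    refine intervalIntegral.integral_congr fun s hs => ?_
    rw [uIcc_of_le (by linarith [pi_pos])] at hs
    refine abs_of_nonneg ?_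
    unfold th
    have := cos_nonneg_of_neg_pi_div_two_le_of_le hs.1 hs.2
    positivity
  have h3 : ∫ s in (π / 2)..(-(π / 2) + 2 * π), |th lam s| =
      - (ph lam (-(π / 2) + 2 * π) - ph lam (π / 2)) := by
    rw [← intervalIntegral.integral_eq_sub_of_hasDerivAt (f := ph lam) (f' := th lam)
      (fun s _ => hasDerivAt_ph lam s) (hc.intervalIntegrable _ _), ← intervalIntegral.integral_neg]
    refine intervalIntegral.integral_congr fun s hs => ?_
    rw [uIcc_of_le (by linarith [pi_pos])] at hs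
    refine abs_of_nonpos ?_
    unfold th
    have := cos_nonpos_of_pi_div_two_le_of_le hs.1 (by linarith [hs.2])
    refine div_nonpos_of_nonpos_of_nonneg (mul_nonpos_of_nonneg_of_nonpos hl.le this) (by positivity)
  rw [h0, h1, h2, h3]
  have e1 : ph lam (π / 2) ≤ π / 2 := (arctan_lt_pi_div_two _).le
  have e2 : -(π / 2) ≤ ph lam (-(π / 2)) := (neg_pi_div_two_lt_arctan _).le
  have e3 : -(π / 2) ≤ ph lam (-(π / 2) + 2 * π) := (neg_pi_div_two_lt_arctan _).le
  linarith

theorem int_th_sq {lam : ℝ} (hl : 1 ≤ lam) : lam / 16 ≤ ∫ s in (0 : ℝ)..(2 * π), th lam s ^ 2 := by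
  have hc : Continuous (fun s => th lam s ^ 2) := (contDiff_th lam).continuous.pow 2
  have hl0 : 0 < lam := by linarith
  have hl1 : lam⁻¹ ≤ 1 := inv_le_one_of_one_le₀ hl
  have h1 : ∫ s in (0 : ℝ)..lam⁻¹, th lam s ^ 2 ≤ ∫ s in (0 : ℝ)..(2 * π), th lam s ^ 2 := by
    refine intervalIntegral.integral_mono_interval le_rfl (by positivity) ?_ ?_
      (hc.intervalIntegrable _ _)
    · linarith [pi_gt_three]
    · exact Eventually.of_forall fun s => sq_nonneg _
  have h2 : ∫ s in (0 : ℝ)..lam⁻¹, (lam / 4) ^ 2 ≤ ∫ s in (0 : ℝ)..lam⁻¹, th lam s ^ 2 := by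
    refine intervalIntegral.integral_mono_on (by positivity) (by simp)
      (hc.intervalIntegrable _ _) fun s hs => ?_
    have hs1 : s ≤ 1 := hs.2.trans hl1
    have hcos : 1 / 2 ≤ cos s := by
      have := one_sub_sq_div_two_le_cos (x := s)
      nlinarith [hs.1]
    have hsin : (lam * sin s) ^ 2 ≤ 1 := by
      have h3 : sin s ≤ s := sin_le hs.1
      have h4 : 0 ≤ sin s := sin_nonneg_of_nonneg_of_le_pi hs.1 (by linarith [pi_gt_three])
      have h5 : lam * sin s ≤ 1 := by
        calc lam * sin s ≤ lam * lam⁻¹ := by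
              apply mul_le_mul_of_nonneg_left (h3.trans hs.2) hl0.le
          _ = 1 := mul_inv_cancel₀ hl0.ne'
      have h6 : 0 ≤ lam * sin s := by positivity
      nlinarith
    have hth : lam / 4 ≤ th lam s := by
      unfold th
      rw [le_div_iff₀ (by positivity)]
      nlinarith
    exact pow_le_pow_left₀ (by positivity) hth 2
  have h3 : ∫ s in (0 : ℝ)..lam⁻¹, (lam / 4) ^ 2 = lam / 16 := by
    rw [intervalIntegral.integral_const, smul_eq_mul]
    field_simp
    ring
  linarith

theorem contDiff_infty_of_deriv {f f' : ℝ → ℝ} (h : ∀ s, HasDerivAt f (f' s) s)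
    (h' : ContDiff ℝ ∞ f') : ContDiff ℝ ∞ f := by
  rw [contDiff_infty_iff_deriv]
  refine ⟨fun s => (h s).differentiableAt, ?_⟩
  have : deriv f = f' := by ext s; exact (h s).deriv
  rw [this]; exact h'

/-- The intermittent oscillation profile. -/
theorem exists_profile {κ b : ℝ} (hκ : 0 < κ) (hb : 0 < b) :
    ∃ (Φ φ θ Gp Ap : ℝ → ℝ) (m B : ℝ), ContDiff ℝ ∞ Φ ∧ ContDiff ℝ ∞ φ ∧ ContDiff ℝ ∞ θ ∧
      ContDiff ℝ ∞ Gp ∧
      (∀ s, HasDerivAt Φ (φ s) s) ∧ (∀ s, HasDerivAt φ (θ s) s) ∧
      (∀ s, HasDerivAt Gp (1 - κ * θ s ^ 2) s) ∧ (∀ s, HasDerivAt Ap (|θ s| - m) s) ∧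
      m ≤ b ∧ 0 ≤ m ∧ 0 ≤ B ∧ (∀ s, |Φ s| ≤ B) ∧ (∀ s, |φ s| ≤ B) ∧ (∀ s, |θ s| ≤ B) ∧
      (∀ s, |Gp s| ≤ B) ∧ (∀ s, |Ap s| ≤ B) := by
  set lam : ℝ := max 1 (32 * π / (κ * b ^ 2)) with hlam
  have hl1 : 1 ≤ lam := le_max_left _ _
  have hl0 : 0 < lam := by linarith
  set I : ℝ := ∫ s in (0 : ℝ)..(2 * π), th lam s ^ 2 with hI
  have hIl : lam / 16 ≤ I := int_th_sq hl1
  have hI0 : 0 < I := by linarith [div_pos hl0 (by norm_num : (0 : ℝ) < 16)]
  set c : ℝ := Real.sqrt (2 * π / (κ * I)) with hc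
  have hc2 : c ^ 2 = 2 * π / (κ * I) := Real.sq_sqrt (by positivity)
  have hc0 : 0 ≤ c := Real.sqrt_nonneg _
  have hcb : c ≤ b := by
    have h1 : 32 * π / (κ * b ^ 2) ≤ lam := le_max_right _ _
    have h2 : 2 * π ≤ κ * b ^ 2 * I := by
      have h3 : 32 * π ≤ lam * (κ * b ^ 2) := by
        rwa [div_le_iff₀ (by positivity)] at h1
      have h4 : lam * (κ * b ^ 2) ≤ 16 * I * (κ * b ^ 2) := by
        apply mul_le_mul_of_nonneg_right _ (by positivity)
        linarith
      nlinarith
    have h5 : c ^ 2 ≤ b ^ 2 := by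
      rw [hc2, div_le_iff₀ (by positivity)]
      nlinarith
    exact abs_le_of_sq_le_sq' h5 hb.le |>.2
  have hpp := per_prim (contDiff_ph lam).continuous (per_ph lam) (int_ph lam)
  obtain ⟨P, hP, BP, hBP⟩ := hpp
  -- the square
  have hthc : Continuous (th lam) := (contDiff_th lam).continuous
  have hg := per_prim (q := fun s => 1 - κ * (c * th lam s) ^ 2)
    (by fun_prop) (by intro s; simp only; rw [per_th lam s]) (by
      have e1 : ∀ s, (1 : ℝ) - κ * (c * th lam s) ^ 2 = 1 - (κ * c ^ 2) * th lam s ^ 2 := by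
        intro s; ring
      simp only [e1]
      have hii : IntervalIntegrable (fun s => κ * c ^ 2 * th lam s ^ 2) volume 0 (2 * π) :=
        (Continuous.intervalIntegrable (by fun_prop) _ _)
      rw [intervalIntegral.integral_sub (by simp) hii, intervalIntegral.integral_const_mul]
      rw [← hI, hc2]
      simp only [intervalIntegral.integral_const, smul_eq_mul]
      field_simp
      ring)
  obtain ⟨Gp, hGp, BG, hBG⟩ := hg
  set m : ℝ := c * ((∫ s in (0 : ℝ)..(2 * π), |th lam s|) / (2 * π)) with hm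
  have ha := per_prim (q := fun s => |c * th lam s| - m)
    (by fun_prop) (by intro s; simp only; rw [per_th lam s]) (by
      have e1 : ∀ s, |c * th lam s| = c * |th lam s| := by
        intro s; rw [abs_mul, abs_of_nonneg hc0]
      simp only [e1]
      have hii : IntervalIntegrable (fun s => c * |th lam s|) volume 0 (2 * π) :=
        (Continuous.intervalIntegrable (by fun_prop) _ _)
      rw [intervalIntegral.integral_sub hii (by simp), intervalIntegral.integral_const_mul]
      simp only [intervalIntegral.integral_const, smul_eq_mul, hm]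
      field_simp
      ring)
  obtain ⟨Ap, hAp, BA, hBA⟩ := ha
  have hbphi : ∀ s, |ph lam s| ≤ π / 2 := by
    intro s
    rw [abs_le]
    exact ⟨(neg_pi_div_two_lt_arctan _).le, (arctan_lt_pi_div_two _).le⟩
  obtain ⟨BT, hBT⟩ : ∃ B, ∀ s, |th lam s| ≤ B := by
    have hb : Bornology.IsBounded (range (th lam)) :=
      (per_th lam).isBounded_of_continuous (by positivity) hthc
    obtain ⟨B, hB⟩ := hb.exists_norm_le
    exact ⟨B, fun s => by simpa [Real.norm_eq_abs] using hB _ (mem_range_self s)⟩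
  have hθd : ContDiff ℝ ∞ (fun s => c * th lam s) := contDiff_const.mul (contDiff_th lam)
  have hm1 : (∫ s in (0 : ℝ)..(2 * π), |th lam s|) / (2 * π) ≤ 1 := by
    rw [div_le_one (by positivity)]; exact int_abs_th hl0
  have hm0 : 0 ≤ (∫ s in (0 : ℝ)..(2 * π), |th lam s|) / (2 * π) := by
    apply div_nonneg _ (by positivity)
    exact intervalIntegral.integral_nonneg (by positivity) fun s _ => abs_nonneg _
  refine ⟨fun s => c * P s, fun s => c * ph lam s, fun s => c * th lam s, Gp, Ap, m,
    c * |BP| + c * (π / 2) + c * |BT| + |BG| + |BA|, ?_, ?_, hθd, ?_, ?_, ?_, hGp, hAp, ?_, ?_, ?_,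
    ?_, ?_, ?_, ?_, ?_⟩
  · exact contDiff_const.mul (contDiff_infty_of_deriv hP (contDiff_ph lam))
  · exact contDiff_const.mul (contDiff_ph lam)
  · exact contDiff_infty_of_deriv hGp (contDiff_const.sub (contDiff_const.mul (hθd.pow 2)))
  · exact fun s => (hP s).const_mul c
  · exact fun s => (hasDerivAt_ph lam s).const_mul c
  · rw [hm]; nlinarith
  · rw [hm]; positivity
  · positivity
  · intro s
    rw [abs_mul, abs_of_nonneg hc0]
    have := (hBP s).trans (le_abs_self BP)
    have h2 : c * |P s| ≤ c * |BP| := mul_le_mul_of_nonneg_left this hc0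
    have : 0 ≤ c * (π / 2) + c * |BT| + |BG| + |BA| := by positivity
    linarith
  · intro s
    rw [abs_mul, abs_of_nonneg hc0]
    have h2 : c * |ph lam s| ≤ c * (π / 2) := mul_le_mul_of_nonneg_left (hbphi s) hc0
    have : 0 ≤ c * |BP| + c * |BT| + |BG| + |BA| := by positivity
    linarith
  · intro s
    rw [abs_mul, abs_of_nonneg hc0]
    have := (hBT s).trans (le_abs_self BT)
    have h2 : c * |th lam s| ≤ c * |BT| := mul_le_mul_of_nonneg_left this hc0
    have : 0 ≤ c * |BP| + c * (π / 2) + |BG| + |BA| := by positivity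
    linarith
  · intro s
    have := (hBG s).trans (le_abs_self BG)
    have : 0 ≤ c * |BP| + c * (π / 2) + c * |BT| + |BA| := by positivity
    linarith
  · intro s
    have := (hBA s).trans (le_abs_self BA)
    have : 0 ≤ c * |BP| + c * (π / 2) + c * |BT| + |BG| := by positivity
    linarith

end

end Pool.Agent.J6H20.LES
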