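import Pool.Agent.J6H20.LES.Stress

set_option autoImplicit false

open MeasureTheory Set Filter Topology
open scoped ContDiff ENNReal NNReal

namespace Pool.Agent.J6H20.LES

/-- oscillating function -/
def osc (l : Fin 3) (n : ℝ) (h : ℝ → ℝ) (z : X) : ℝ := h (n * z.2 l)

theorem hasFDerivAt_osc (l : Fin 3) (n : ℝ) {h h' : ℝ → ℝ} (hh : ∀ s, HasDerivAt h (h' s) s)
    (z : X) : HasFDerivAt (osc l n h)
      (h' (n * z.2 l) • (n • ((ContinuousLinearMap.proj l).comp (ContinuousLinearMap.snd ℝ ℝ (Fin 3 → ℝ)))))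
      z := by
  have h1 : HasFDerivAt (fun z : X => n * z.2 l)
      (n • ((ContinuousLinearMap.proj l).comp (ContinuousLinearMap.snd ℝ ℝ (Fin 3 → ℝ)))) z :=
    (n • ((ContinuousLinearMap.proj (R := ℝ) (φ := fun _ : Fin 3 => ℝ) l).comp
      (ContinuousLinearMap.snd ℝ ℝ (Fin 3 → ℝ)))).hasFDerivAt
  exact (hh _).comp_hasFDerivAt z h1

theorem dd_osc (l : Fin 3) (n : ℝ) {h h' : ℝ → ℝ} (hh : ∀ s, HasDerivAt h (h' s) s)
    (v z : X) : dd v (osc l n h) z = n * v.2 l * osc l n h' z := by
  unfold dd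
  rw [(hasFDerivAt_osc l n hh z).fderiv]
  simp only [smul_apply, ContinuousLinearMap.comp_apply,
    ContinuousLinearMap.proj_apply, ContinuousLinearMap.coe_snd', smul_eq_mul, osc]
  ring

theorem contDiff_osc (l : Fin 3) (n : ℝ) {h : ℝ → ℝ} {k : WithTop ℕ∞} (hh : ContDiff ℝ k h) :
    ContDiff ℝ k (osc l n h) := by
  unfold osc
  exact hh.comp (contDiff_const.mul ((contDiff_apply ℝ ℝ l).comp contDiff_snd))

/-- Riemann and Lebesgue. -/
theorem RL {F : X → ℝ} (hF : Integrable F) {g G : ℝ → ℝ} (hg : Continuous g)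
    (hG : ∀ s, HasDerivAt G (g s) s) {B : ℝ} (hgB : ∀ s, |g s| ≤ B) (hGB : ∀ s, |G s| ≤ B)
    (l : Fin 3) : Tendsto (fun n : ℕ => ∫ z, F z * osc l n g z) atTop (𝓝 0) := by
  have hB0 : 0 ≤ B := (abs_nonneg _).trans (hgB 0)
  have hG1 : ContDiff ℝ 1 G := by
    rw [contDiff_one_iff_deriv]
    refine ⟨fun s => (hG s).differentiableAt, ?_⟩
    have : deriv G = g := by ext s; exact (hG s).deriv
    rw [this]; exact hg
  rw [Metric.tendsto_atTop]
  intro ε hε
  obtain ⟨u, hu1, hu2, hu3⟩ := MemLp.exist_eLpNorm_sub_le (p := 1) (by simp) le_rfl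
    (memLp_one_iff_integrable.2 hF) (show 0 < ε / (2 * (B + 1)) by positivity)
  have hcc : Cc univ u := ⟨hu2, hu1, subset_univ _⟩
  have hdi : Integrable (fun z => F z - u z) := hF.sub hcc.integrable
  have hd : ∫ z, |F z - u z| ≤ ε / (2 * (B + 1)) := by
    have h1 := eLpNorm_one_eq_lintegral_enorm (f := fun z => F z - u z) (μ := (volume : Measure X))
    have h2 := integral_norm_eq_lintegral_enorm hdi.1
    simp only [Real.norm_eq_abs] at h2
    rw [h2, ← h1]
    refine ENNReal.toReal_le_of_le_ofReal (by positivity) hu3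
  set K : ℝ := ∫ z, |dd (ex l) u z| with hK
  have hK0 : 0 ≤ K := integral_nonneg fun _ => abs_nonneg _
  obtain ⟨N, hN⟩ := exists_nat_gt (2 * (B * K + 1) / ε)
  refine ⟨N + 1, fun n hn => ?_⟩
  have hn0 : (0 : ℝ) < n := by
    have : 0 < n := by omega
    exact_mod_cast this
  have hnN : 2 * (B * K + 1) / ε < n := hN.trans (by exact_mod_cast (by omega : N < n))
  have hoc : Continuous (osc l n g) := by
    unfold osc; exact hg.comp (by fun_prop)
  have hob : ∀ z, |osc l n g z| ≤ B := fun z => hgB _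
  have hi1 : Integrable (fun z => (F z - u z) * osc l n g z) :=
    hdi.mul_bdd (c := B) hoc.aestronglyMeasurable (Eventually.of_forall fun z => by
      simpa [Real.norm_eq_abs] using hob z)
  have hi2 : Integrable (fun z => u z * osc l n g z) :=
    hcc.integrable.mul_bdd (c := B) hoc.aestronglyMeasurable (Eventually.of_forall fun z => by
      simpa [Real.norm_eq_abs] using hob z)
  have e1 : ∫ z, F z * osc l n g z =
      (∫ z, (F z - u z) * osc l n g z) + ∫ z, u z * osc l n g z := by
    rw [← integral_add hi1 hi2]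
    congr 1; ext z; ring
  have e2 : |∫ z, (F z - u z) * osc l n g z| ≤ B * (ε / (2 * (B + 1))) := by
    refine (abs_integral_le_integral_abs).trans ?_
    calc ∫ z, |(F z - u z) * osc l n g z| ≤ ∫ z, B * |F z - u z| := by
          refine integral_mono hi1.abs (hdi.abs.const_mul B) fun z => ?_
          simp only [abs_mul]
          rw [mul_comm B]
          exact mul_le_mul_of_nonneg_left (hob z) (abs_nonneg _)
      _ = B * ∫ z, |F z - u z| := integral_const_mul _ _
      _ ≤ _ := mul_le_mul_of_nonneg_left hd hB0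
  have e3 : ∫ z, u z * osc l n g z = - (1 / n) * ∫ z, dd (ex l) u z * osc l n G z := by
    have h1 : ∀ z, u z * osc l n g z = (1 / n) * (u z * dd (ex l) (osc l n G) z) := by
      intro z
      rw [dd_osc l n hG]
      have : (ex l).2 l = 1 := by simp [ex]
      rw [this]
      field_simp
    have h2 := ibp hcc (contDiff_osc l n hG1) (ex l)
    simp only [h1]
    rw [integral_const_mul, h2]
    ring
  have hi3 : Integrable (fun z => dd (ex l) u z * osc l n G z) :=
    (hcc.dd _).integrable.mul_bdd (c := B) (contDiff_osc l n hG1).continuous.aestronglyMeasurable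
      (Eventually.of_forall fun z => by rw [Real.norm_eq_abs]; exact hGB _)
  have e4 : |∫ z, dd (ex l) u z * osc l n G z| ≤ B * K := by
    refine (abs_integral_le_integral_abs).trans ?_
    rw [hK, ← integral_const_mul]
    refine integral_mono hi3.abs ((hcc.dd _).integrable.abs.const_mul B) fun z => ?_
    simp only [abs_mul]
    rw [mul_comm B]
    exact mul_le_mul_of_nonneg_left (hGB _) (abs_nonneg _)
  rw [Real.dist_eq, sub_zero, e1, e3]
  have e5 : |-(1 / (n : ℝ)) * ∫ z, dd (ex l) u z * osc l n G z| ≤ (1 / n) * (B * K) := by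
    rw [abs_mul, abs_neg, abs_of_pos (by positivity : (0 : ℝ) < 1 / n)]
    exact mul_le_mul_of_nonneg_left e4 (by positivity)
  have e6 : B * (ε / (2 * (B + 1))) ≤ ε / 2 := by
    rw [mul_div_assoc', div_le_div_iff₀ (by positivity) (by positivity)]
    nlinarith
  have e7 : (1 / (n : ℝ)) * (B * K) < ε / 2 := by
    rw [div_lt_iff₀ hε] at hnN
    rw [one_div, inv_mul_lt_iff₀ hn0]
    nlinarith
  calc _ ≤ |∫ z, (F z - u z) * osc l n g z| + |-(1 / (n : ℝ)) * ∫ z, dd (ex l) u z * osc l n G z| :=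
        abs_add_le _ _
    _ < ε := by linarith

end Pool.Agent.J6H20.LES
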