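import Pool.Agent.J6H20.LES.Init3
import Pool.Agent.J6H20.LES.Limit

set_option autoImplicit false

open MeasureTheory Set Filter Topology
open scoped ContDiff ENNReal NNReal

namespace Pool.Agent.J6H20.LES

variable {Ω : Set Y} {T : ℝ}

theorem slice_smooth {g : X → ℝ} (hg : ContDiff ℝ ∞ g) (t : ℝ) :
    ContDiff ℝ ∞ (fun x : Y => g (t, x)) :=
  hg.comp (contDiff_const.prodMk contDiff_id)

theorem slice_fderiv {g : X → ℝ} (hg : ContDiff ℝ ∞ g) (t : ℝ) (x v : Y) :
    fderiv ℝ (fun x : Y => g (t, x)) x v = fderiv ℝ g (t, x) (0, v) := by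
  have h1 : HasFDerivAt g (fderiv ℝ g (t, x)) (t, x) :=
    (hg.differentiable (by simp) _).hasFDerivAt
  have h2 := (hasFDerivAt_const (𝕜 := ℝ) t x).prodMk (hasFDerivAt_id (𝕜 := ℝ) x)
  have h3 : HasFDerivAt (fun x : Y => g (t, x)) ((fderiv ℝ g (t, x)).comp
      ((0 : Y →L[ℝ] ℝ).prod (ContinuousLinearMap.id ℝ Y))) x := h1.comp x h2
  rw [h3.fderiv]
  simp

/-- a smooth compactly supported field on space, from spatial and space-time pieces -/
theorem slice_field {u0 : Y → Fin 3 → ℝ} (h1 : ContDiff ℝ ∞ u0) (h2 : HasCompactSupport u0)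
    (h3 : tsupport u0 ⊆ Ω) {v : ℕ → X → Fin 3 → ℝ}
    (hv : ∀ k i, Cc (dom Ω T) (fun z => v k z i)) (t : ℝ) (k : ℕ) :
    ContDiff ℝ ∞ (fun x i => u0 x i + ∑ j ∈ Finset.range k, v j (t, x) i) ∧
    HasCompactSupport (fun x i => u0 x i + ∑ j ∈ Finset.range k, v j (t, x) i) ∧
    tsupport (fun x i => u0 x i + ∑ j ∈ Finset.range k, v j (t, x) i) ⊆ Ω ∧
    ∀ x l i, fderiv ℝ (fun x i => u0 x i + ∑ j ∈ Finset.range k, v j (t, x) i) x
      (Pi.single l 1) i = fderiv ℝ u0 x (Pi.single l 1) i +
        ∑ j ∈ Finset.range k, gr (v j) (t, x) i l := by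
  have hs : ContDiff ℝ ∞ (fun x i => u0 x i + ∑ j ∈ Finset.range k, v j (t, x) i) := by
    rw [contDiff_pi]
    intro i
    refine (contDiff_pi.1 h1 i).add (ContDiff.sum fun j _ => ?_)
    exact slice_smooth (hv j i).smooth t
  -- the compact set containing the support
  set K : Set Y := tsupport u0 ∪ ⋃ j ∈ Finset.range k, ⋃ i, (fun x : Y => ((t, x) : X)) ⁻¹'
    (tsupport (fun z => v j z i)) with hK
  have hKc : IsCompact K := by
    refine h2.isCompact.union ((Finset.range k).isCompact_biUnion fun j _ =>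
      isCompact_iUnion fun i => ?_)
    have hcl : Topology.IsClosedEmbedding (fun x : Y => ((t, x) : X)) := by
      refine Topology.IsClosedEmbedding.of_continuous_injective_isClosedMap (by fun_prop)
        (fun a b h => (Prod.ext_iff.1 h).2) ?_
      intro S hS
      have : (fun x : Y => ((t, x) : X)) '' S = {t} ×ˢ S := by
        ext z; constructor
        · rintro ⟨x, hx, rfl⟩; exact ⟨rfl, hx⟩
        · rintro ⟨h1, h2⟩
          exact ⟨z.2, h2, by rw [← show z.1 = t from h1]⟩
      rw [this]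
      exact isClosed_singleton.prod hS
    exact hcl.isCompact_preimage (hv j i).compact
  have hKΩ : K ⊆ Ω := by
    refine union_subset h3 (iUnion₂_subset fun j _ => iUnion_subset fun i => ?_)
    intro x hx
    exact ((hv j i).supp hx).2
  have hzero : ∀ x, x ∉ K → (fun i => u0 x i + ∑ j ∈ Finset.range k, v j (t, x) i) = 0 := by
    intro x hx
    have e0 : u0 x = 0 := image_eq_zero_of_notMem_tsupport (fun h => hx (Or.inl h))
    ext i
    simp only [e0, Pi.zero_apply, zero_add]
    refine Finset.sum_eq_zero fun j hj => ?_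
    have : ((t, x) : X) ∉ tsupport (fun z => v j z i) := by
      intro h
      apply hx
      right
      simp only [mem_iUnion, mem_preimage]
      exact ⟨j, hj, i, h⟩
    exact image_eq_zero_of_notMem_tsupport (f := fun z => v j z i) this
  have hsub : tsupport (fun x i => u0 x i + ∑ j ∈ Finset.range k, v j (t, x) i) ⊆ K := by
    refine closure_minimal ?_ hKc.isClosed
    intro x hx
    by_contra h
    exact hx (hzero x h)
  refine ⟨hs, hKc.of_isClosed_subset (isClosed_tsupport _) hsub, hsub.trans hKΩ, fun x l i => ?_⟩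
  have hd : DifferentiableAt ℝ (fun x i => u0 x i + ∑ j ∈ Finset.range k, v j (t, x) i) x :=
    hs.differentiable (by simp) x
  have e1 : fderiv ℝ (fun x i => u0 x i + ∑ j ∈ Finset.range k, v j (t, x) i) x
      (Pi.single l 1) i = fderiv ℝ (fun x => u0 x i + ∑ j ∈ Finset.range k, v j (t, x) i) x
      (Pi.single l 1) := (fderiv_comp_apply hs x _ i).symm
  have d0 : DifferentiableAt ℝ (fun x => u0 x i) x :=
    (contDiff_pi.1 h1 i).differentiable (by simp) x
  have dj : ∀ j ∈ Finset.range k, DifferentiableAt ℝ (fun x => v j (t, x) i) x := fun j _ =>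
    (slice_smooth (hv j i).smooth t).differentiable (by simp) x
  have e2 : fderiv ℝ (fun x => u0 x i + ∑ j ∈ Finset.range k, v j (t, x) i) x =
      fderiv ℝ (fun x => u0 x i) x + ∑ j ∈ Finset.range k, fderiv ℝ (fun x => v j (t, x) i) x := by
    have := fderiv_add d0 (DifferentiableAt.fun_sum dj)
    rw [fderiv_fun_sum dj] at this
    exact this
  rw [e1, e2]
  simp only [add_apply, sum_apply]
  rw [fderiv_comp_apply h1]
  congr 1
  refine Finset.sum_congr rfl fun j _ => ?_
  rw [slice_fderiv (hv j i).smooth]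
  rfl

end Pool.Agent.J6H20.LES
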