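import Pool.Agent.J6H20.LES.Slice

set_option autoImplicit false

open MeasureTheory Set Filter Topology
open scoped ContDiff ENNReal NNReal

namespace Pool.Agent.J6H20.LES

variable {Ω : Set Y} {T : ℝ}

theorem exists_shift (hb : Bornology.IsBounded Ω) : ∃ L : ℝ, 0 ≤ L ∧
    ∀ x ∈ Ω, ∀ i : Fin 3, x + L • (Pi.single i (1 : ℝ) : Fin 3 → ℝ) ∉ Ω := by
  obtain ⟨R, hR0, hR⟩ := hb.subset_closedBall_lt 0 (0 : Y)
  have key : ∀ x ∈ Ω, ∀ i, |x i| ≤ R := by
    intro x hx i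
    have h1 := hR hx
    rw [mem_closedBall_zero_iff] at h1
    exact (Real.norm_eq_abs (x i) ▸ norm_le_pi_norm x i).trans h1
  refine ⟨2 * R + 1, by linarith, fun x hx i hmem => ?_⟩
  have h1 := abs_le.1 (key x hx i)
  have h2 := abs_le.1 (key _ hmem i)
  simp only [Pi.add_apply, Pi.smul_apply, Pi.single_eq_same, smul_eq_mul, mul_one] at h2
  linarith [h1.1, h2.2]

theorem series_summable {v : ℕ → X → Fin 3 → ℝ} (hb : ∀ k z i, |v k z i| ≤ (1 / 4) ^ k)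
    (z : X) (i : Fin 3) : Summable (fun j => v j z i) := by
  refine Summable.of_norm_bounded (g := fun j : ℕ => ((1 : ℝ) / 4) ^ j)
    (summable_geometric_of_lt_one (by norm_num) (by norm_num)) fun j => ?_
  rw [Real.norm_eq_abs]; exact hb j z i

theorem series_bound {v : ℕ → X → Fin 3 → ℝ} (hb : ∀ k z i, |v k z i| ≤ (1 / 4) ^ k) (k : ℕ)
    (z : X) (i : Fin 3) :
    |(∑' j, v j z i) - ∑ j ∈ Finset.range k, v j z i| ≤ 4 / 3 * (1 / 4) ^ k := by
  have h1 := (series_summable hb z i).sum_add_tsum_nat_add k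
  rw [← h1, add_sub_cancel_left, ← Real.norm_eq_abs]
  have h2 : HasSum (fun j : ℕ => ((1 : ℝ) / 4) ^ (j + k)) (4 / 3 * (1 / 4) ^ k) := by
    have := (hasSum_geometric_of_lt_one (r := (1 : ℝ) / 4) (by norm_num) (by norm_num)).mul_right
      ((1 / 4) ^ k)
    have e1 : (1 - (1 : ℝ) / 4)⁻¹ = 4 / 3 := by norm_num
    rw [e1] at this
    simpa only [pow_add] using this
  refine tsum_of_norm_bounded h2 fun j => ?_
  rw [Real.norm_eq_abs]; exact hb _ z i

theorem series_cont {v : ℕ → X → Fin 3 → ℝ} (hb : ∀ k z i, |v k z i| ≤ (1 / 4) ^ k)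
    (hc : ∀ k i, Continuous (fun z => v k z i)) (i : Fin 3) :
    Continuous (fun z => ∑' j, v j z i) := by
  refine continuous_tsum (u := fun j : ℕ => ((1 : ℝ) / 4) ^ j) (fun j => hc j i)
    (summable_geometric_of_lt_one (by norm_num) (by norm_num)) fun j z => ?_
  rw [Real.norm_eq_abs]; exact hb j z i

/-- slices of an `L²` function are in `L²` for almost every time -/
theorem slice_memLp {g : X → ℝ} (hg : MemLp g 2) : ∀ᵐ t : ℝ, MemLp (fun x : Y => g (t, x)) 2 := by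
  have hm : AEStronglyMeasurable g ((volume : Measure ℝ).prod (volume : Measure Y)) := hg.1
  have hi : Integrable (fun z => g z ^ 2) ((volume : Measure ℝ).prod (volume : Measure Y)) :=
    (memLp_two_iff_integrable_sq hm).1 hg
  filter_upwards [hm.prodMk_left, hi.prod_right_ae] with t h1 h2
  exact (memLp_two_iff_integrable_sq h1).2 h2

theorem sq_eLpNorm {α : Type*} [MeasurableSpace α] {μ : Measure α} (g : α → ℝ) :
    eLpNorm g 2 μ ^ 2 = ∫⁻ z, ‖g z‖ₑ ^ 2 ∂μ := by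
  rw [eLpNorm_eq_lintegral_rpow_enorm_toReal (by simp) (by simp)]
  rw [← ENNReal.rpow_natCast, ← ENNReal.rpow_mul]
  simp

/-- fast convergence in `L²` gives convergence of almost every slice -/
theorem slice_conv {g : ℕ → X → ℝ} (hg : ∀ k, AEStronglyMeasurable (g k) volume) {C : ℝ}
    (hC : 0 ≤ C) (h : ∀ k, eLpNorm (g k) 2 volume ≤ ENNReal.ofReal (C * (1 / 2) ^ k)) :
    ∀ᵐ t : ℝ, Tendsto (fun k => eLpNorm (fun x : Y => g k (t, x)) 2 volume) atTop (𝓝 0) := by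
  have hm : ∀ k, AEMeasurable (fun z => ‖g k z‖ₑ ^ 2)
      ((volume : Measure ℝ).prod (volume : Measure Y)) := fun k => (hg k).enorm.pow_const 2
  have hm2 : ∀ k, AEMeasurable (fun t : ℝ => ∫⁻ x : Y, ‖g k (t, x)‖ₑ ^ 2) := fun k =>
    (hm k).lintegral_prod_right'
  have h1 : ∫⁻ t : ℝ, ∑' k, ∫⁻ x : Y, ‖g k (t, x)‖ₑ ^ 2 ≠ ⊤ := by
    rw [lintegral_tsum hm2]
    have e1 : ∀ k, ∫⁻ t : ℝ, ∫⁻ x : Y, ‖g k (t, x)‖ₑ ^ 2 ≤
        ENNReal.ofReal (C ^ 2) * (4⁻¹ : ℝ≥0∞) ^ k := by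
      intro k
      rw [← lintegral_prod _ (hm k)]
      have e2 : ∫⁻ z, ‖g k z‖ₑ ^ 2 ∂((volume : Measure ℝ).prod (volume : Measure Y)) =
        eLpNorm (g k) 2 volume ^ 2 := (sq_eLpNorm (g k)).symm
      rw [e2]
      calc eLpNorm (g k) 2 volume ^ 2 ≤ (ENNReal.ofReal (C * (1 / 2) ^ k)) ^ 2 :=
            pow_le_pow_left' (h k) 2
        _ = ENNReal.ofReal (C ^ 2) * (4⁻¹ : ℝ≥0∞) ^ k := by
            rw [← ENNReal.ofReal_pow (by positivity)]
            rw [show (C * (1 / 2 : ℝ) ^ k) ^ 2 = C ^ 2 * (1 / 4) ^ k by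
              rw [mul_pow, ← pow_mul, mul_comm k 2, pow_mul]; norm_num]
            have e4 : ENNReal.ofReal (1 / 4 : ℝ) = 4⁻¹ := by
              rw [one_div, ENNReal.ofReal_inv_of_pos (by norm_num)]
              simp
            rw [ENNReal.ofReal_mul (sq_nonneg C),
              ENNReal.ofReal_pow (show (0 : ℝ) ≤ 1 / 4 by norm_num), e4]
    refine ne_top_of_le_ne_top ?_ (ENNReal.tsum_le_tsum e1)
    rw [ENNReal.tsum_mul_left, ENNReal.tsum_geometric]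
    refine ENNReal.mul_ne_top ENNReal.ofReal_ne_top ?_
    rw [ENNReal.inv_ne_top]
    have : (4⁻¹ : ℝ≥0∞) < 1 := by rw [ENNReal.inv_lt_one]; norm_num
    exact (tsub_pos_of_lt this).ne'
  have h2 : ∀ᵐ t : ℝ, ∑' k, ∫⁻ x : Y, ‖g k (t, x)‖ₑ ^ 2 < ⊤ :=
    ae_lt_top' (AEMeasurable.tsum hm2) h1
  filter_upwards [h2] with t ht
  have h3 := ENNReal.tendsto_atTop_zero_of_tsum_ne_top ht.ne
  have h4 : ∀ k, eLpNorm (fun x : Y => g k (t, x)) 2 volume =
      (∫⁻ x : Y, ‖g k (t, x)‖ₑ ^ 2) ^ (1 / 2 : ℝ) := by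
    intro k
    rw [eLpNorm_eq_lintegral_rpow_enorm_toReal (by simp) (by simp)]
    simp
  simp only [h4]
  have := h3.ennrpow_const (1 / 2 : ℝ)
  simpa using this

end Pool.Agent.J6H20.LES
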