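import Pool.Agent.J6H20.LES.PieceF
import Pool.Agent.J6H20.LES.Decomp

set_option autoImplicit false

open MeasureTheory Set Filter Topology
open scoped ContDiff ENNReal NNReal

namespace Pool.Agent.J6H20.LES

variable {Ω : Set (Fin 3 → ℝ)} {T : ℝ}

theorem gr_add {D : Set X} {v1 v2 : X → Fin 3 → ℝ} (h1 : ∀ i, Cc D (fun z => v1 z i))
    (h2 : ∀ i, Cc D (fun z => v2 z i)) (z : X) (i m : Fin 3) :
    gr (fun z i => v1 z i + v2 z i) z i m = gr v1 z i m + gr v2 z i m := by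
  unfold gr
  exact dd_add (h1 i).differentiable (h2 i).differentiable _ _

theorem gr_zero (z : X) (i m : Fin 3) : gr (fun _ _ => (0 : ℝ)) z i m = 0 := by
  unfold gr dd; simp

theorem small_zero {ε : ℝ} (hε : 0 ≤ ε) : Small Ω T (fun _ => 0) ε := by
  refine ⟨fun _ _ _ => 0, ⟨fun _ _ => integrable_zero _ _ _, fun _ _ _ => rfl,
    fun _ _ _ _ => rfl⟩, ?_, fun φ _ => ?_⟩
  · unfold nrm; simpa using hε
  · unfold pair; simp

theorem pieces (hΩ : IsOpen Ω) (hb : Bornology.IsBounded Ω) {L : ℝ} (hL : 0 ≤ L)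
    (hLΩ : ∀ x ∈ Ω, ∀ i : Fin 3, x + L • (Pi.single i (1 : ℝ) : Fin 3 → ℝ) ∉ Ω)
    {ν κ : ℝ} (hν : 0 ≤ ν) (hκ : 0 < κ) {f : X → Fin 3 → ℝ}
    {ι : Type*} {a : ι → X → ℝ} (ha : ∀ p, Cc (dom Ω T) (a p)) {k : ι → Fin 3 → ℝ}
    (hk1 : ∀ p i, |k p i| ≤ 1) {l : ι → Fin 3} (hk : ∀ p, k p (l p) = 0) (s : Finset ι) :
    ∀ {w : X → Fin 3 → ℝ} {G : X → Fin 3 → Fin 3 → ℝ}, State Ω T w G → ∀ η : ℝ, 0 < η →
    ∃ v : X → Fin 3 → ℝ, (∀ i, Cc (dom Ω T) (fun z => v z i)) ∧ (∀ z, ∑ i, gr v z i i = 0) ∧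
      (∀ z i, |v z i| ≤ η) ∧
      (∀ i m, ∫ z, (gr v z i m) ^ 2 ≤ 2 ^ s.card * (κ⁻¹ * ∑ p ∈ s, ∫ z, a p z ^ 2) + η) ∧
      Small Ω T (fun ψ => Nf ν κ f (fun z i => w z i + v z i)
        (fun z i m => G z i m + gr v z i m) ψ - Nf ν κ f w G ψ +
        ∑ p ∈ s, pair (fun z i j => (a p z) ^ 2 * (k p i * k p j)) ψ) η := by
  classical
  induction s using Finset.induction_on with
  | empty =>
    intro w G h η hη
    refine ⟨fun _ _ => 0, fun _ => Cc.fzero _, fun z => by simp [gr_zero], fun z i => by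
      simpa using hη.le, fun i m => ?_, ?_⟩
    · simp only [gr_zero]
      simp
      exact hη.le
    · refine (small_zero hη.le).congr fun ψ _ => ?_
      simp [gr_zero]
  | insert p0 s hp0 ih =>
    intro w G h η hη
    obtain ⟨v1, c1, d1, b1, g1, s1⟩ := ih h (η / 4) (by positivity)
    obtain ⟨v2, c2, d2, b2, g2, s2⟩ := piece (f := f) hΩ hb hL hLΩ hν hκ (h.add c1) (ha p0)
      (hk1 p0) (hk p0) (η := η / 4) (by positivity)
    refine ⟨fun z i => v1 z i + v2 z i, fun i => (c1 i).add (c2 i), fun z => ?_, fun z i => ?_,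
      fun i m => ?_, ?_⟩
    · simp only [gr_add c1 c2, Finset.sum_add_distrib, d1, d2, add_zero]
    · refine (abs_add_le _ _).trans ?_
      have := b1 z i
      have := b2 z i
      linarith
    · have i1 : Integrable (fun z => (gr v1 z i m) ^ 2) := ((c1 i).dd (ex m)).memLp.integrable_sq
      have i2 : Integrable (fun z => (gr v2 z i m) ^ 2) := ((c2 i).dd (ex m)).memLp.integrable_sq
      have i3 : Integrable (fun z => (gr (fun z i => v1 z i + v2 z i) z i m) ^ 2) :=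
        (((c1 i).add (c2 i)).dd (ex m)).memLp.integrable_sq
      have e1 : ∫ z, (gr (fun z i => v1 z i + v2 z i) z i m) ^ 2 ≤
          2 * (∫ z, (gr v1 z i m) ^ 2) + 2 * ∫ z, (gr v2 z i m) ^ 2 := by
        rw [← integral_const_mul, ← integral_const_mul, ← integral_add (i1.const_mul _)
          (i2.const_mul _)]
        refine integral_mono i3 ((i1.const_mul _).add (i2.const_mul _)) fun z => ?_
        simp only
        rw [gr_add c1 c2]
        nlinarith [sq_nonneg (gr v1 z i m - gr v2 z i m)]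
      have e2 := g1 i m
      have e3 := g2 i m
      rw [Finset.card_insert_of_notMem hp0, Finset.sum_insert hp0]
      have e4 : 0 ≤ κ⁻¹ * ∫ z, a p0 z ^ 2 :=
        mul_nonneg (inv_nonneg.2 hκ.le) (integral_nonneg fun z => sq_nonneg _)
      have e5 : (1 : ℝ) ≤ 2 ^ s.card := one_le_pow₀ (by norm_num)
      have e6 : κ⁻¹ * ∫ z, a p0 z ^ 2 ≤ 2 ^ s.card * (κ⁻¹ * ∫ z, a p0 z ^ 2) := by nlinarith
      rw [pow_succ]
      nlinarith
    · refine ((s1.add s2).mono (by linarith)).congr fun ψ _ => ?_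
      rw [Finset.sum_insert hp0]
      have e1 : (fun z i => w z i + (v1 z i + v2 z i)) = fun z i => (w z i + v1 z i) + v2 z i := by
        ext z i; ring
      have e2 : (fun z i m => G z i m + gr (fun z i => v1 z i + v2 z i) z i m) =
          fun z i m => (G z i m + gr v1 z i m) + gr v2 z i m := by
        ext z i m; rw [gr_add c1 c2]; ring
      rw [e1, e2]
      ring

/-- One step of the iteration. -/
theorem step (hΩ : IsOpen Ω) (hb : Bornology.IsBounded Ω) {L : ℝ} (hL : 0 ≤ L)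
    (hLΩ : ∀ x ∈ Ω, ∀ i : Fin 3, x + L • (Pi.single i (1 : ℝ) : Fin 3 → ℝ) ∉ Ω)
    {ν κ : ℝ} (hν : 0 ≤ ν) (hκ : 0 < κ) {f : X → Fin 3 → ℝ} {b : (X → Fin 3 → ℝ) → ℝ}
    {w : X → Fin 3 → ℝ} {G : X → Fin 3 → Fin 3 → ℝ} (h : State Ω T w G) {ε0 : ℝ}
    (hs : Small Ω T (fun ψ => Nf ν κ f w G ψ - b ψ) ε0) {ε : ℝ} (hε : 0 < ε) :
    ∃ v : X → Fin 3 → ℝ, (∀ i, Cc (dom Ω T) (fun z => v z i)) ∧ (∀ z, ∑ i, gr v z i i = 0) ∧
      (∀ z i, |v z i| ≤ ε) ∧
      (∀ i m, ∫ z, (gr v z i m) ^ 2 ≤ 9216 * κ⁻¹ * (ε0 + ε) + ε) ∧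
      Small Ω T (fun ψ => Nf ν κ f (fun z i => w z i + v z i)
        (fun z i m => G z i m + gr v z i m) ψ - b ψ) ε := by
  obtain ⟨R, hR, hRn, hRe⟩ := hs
  obtain ⟨a, ha, ha2, hd⟩ := decomp hΩ hR (ε := ε / 2) (by positivity)
  obtain ⟨v, c1, d1, b1, g1, s1⟩ := pieces (f := f) hΩ hb hL hLΩ hν hκ ha (k := kv)
    (fun p i => kv_le p i) (l := lv) kv_lv Finset.univ h (ε / 2) (by positivity)
  refine ⟨v, c1, d1, fun z i => (b1 z i).trans (by linarith), fun i m => (g1 i m).trans ?_, ?_⟩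
  · have e1 : (Finset.univ : Finset (Fin 3 × Fin 3)).card = 9 := by decide
    rw [e1]
    have e2 : ∑ p : Fin 3 × Fin 3, ∫ z, a p z ^ 2 ≤ 9 * (2 * (ε0 + ε)) := by
      calc ∑ p : Fin 3 × Fin 3, ∫ z, a p z ^ 2 ≤ ∑ p : Fin 3 × Fin 3, 2 * (ε0 + ε) :=
            Finset.sum_le_sum fun p _ => (ha2 p).trans (by linarith)
        _ = _ := by rw [Finset.sum_const, e1]; norm_num
    have e3 := mul_le_mul_of_nonneg_left e2 (inv_nonneg.2 hκ.le)
    nlinarith
  · refine ((s1.add hd).mono (by linarith)).congr fun ψ hψ => ?_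
    rw [← hRe ψ hψ]
    ring

end Pool.Agent.J6H20.LES
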