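import Pool.Agent.J6H20.LES.Basic

set_option autoImplicit false

open MeasureTheory Set Filter Topology
open scoped ContDiff ENNReal NNReal

namespace Pool.Agent.J6H20.LES

/-- Test fields: smooth, compact support in `(-∞, T) × Ω`, divergence free for positive times. -/
structure Test (Ω : Set (Fin 3 → ℝ)) (T : ℝ) (φ : X → Fin 3 → ℝ) : Prop where
  smooth : ContDiff ℝ ∞ φ
  compact : HasCompactSupport φ
  supp : tsupport φ ⊆ Iio T ×ˢ Ω
  div : ∀ z : X, 0 < z.1 → ∑ i, dd (ex i) (fun y => φ y i) z = 0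

/-- the space-time domain `(0,T) × Ω` -/
def dom (Ω : Set (Fin 3 → ℝ)) (T : ℝ) : Set X := Ioo 0 T ×ˢ Ω

theorem measurableSet_dom {Ω : Set (Fin 3 → ℝ)} (hΩ : IsOpen Ω) (T : ℝ) :
    MeasurableSet (dom Ω T) := measurableSet_Ioo.prod hΩ.measurableSet

theorem isOpen_dom {Ω : Set (Fin 3 → ℝ)} (hΩ : IsOpen Ω) (T : ℝ) : IsOpen (dom Ω T) :=
  isOpen_Ioo.prod hΩ

theorem Test.comp {Ω : Set (Fin 3 → ℝ)} {T : ℝ} {φ : X → Fin 3 → ℝ} (h : Test Ω T φ) (i : Fin 3) :
    Cc (Iio T ×ˢ Ω) (fun z => φ z i) where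
  smooth := contDiff_pi.1 h.smooth i
  compact := by
    refine HasCompactSupport.intro (K := tsupport φ) h.compact ?_
    intro z hz
    have : φ z = 0 := image_eq_zero_of_notMem_tsupport hz
    rw [this]; rfl
  supp := by
    refine (closure_mono ?_).trans h.supp
    intro z hz
    simp only [Function.mem_support] at hz ⊢
    intro h0
    exact hz (by rw [h0]; rfl)

/-- Symmetric integrable stresses supported in the domain. -/
structure Stress (Ω : Set (Fin 3 → ℝ)) (T : ℝ) (R : X → Fin 3 → Fin 3 → ℝ) : Prop where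
  int : ∀ i j, Integrable (fun z => R z i j)
  symm : ∀ z i j, R z i j = R z j i
  supp : ∀ z, z ∉ dom Ω T → ∀ i j, R z i j = 0

/-- `L¹` size of a stress. -/
noncomputable def nrm (R : X → Fin 3 → Fin 3 → ℝ) : ℝ := ∑ i, ∑ j, ∫ z, |R z i j|

/-- Pairing of a stress with the gradient of a test field. -/
noncomputable def pair (R : X → Fin 3 → Fin 3 → ℝ) (φ : X → Fin 3 → ℝ) : ℝ :=
  ∑ i, ∑ j, ∫ z, R z i j * dd (ex j) (fun y => φ y i) z

/-- A functional on test fields given by a stress of size at most `ε`. -/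
def Small (Ω : Set (Fin 3 → ℝ)) (T : ℝ) (Λ : (X → Fin 3 → ℝ) → ℝ) (ε : ℝ) : Prop :=
  ∃ R, Stress Ω T R ∧ nrm R ≤ ε ∧ ∀ φ, Test Ω T φ → Λ φ = pair R φ

section
variable {Ω : Set (Fin 3 → ℝ)} {T : ℝ}

theorem integrable_mul_cc {D : Set X} {r u : X → ℝ} (hr : Integrable r) (hu : Cc D u) :
    Integrable (fun z => r z * u z) := by
  obtain ⟨C, _, hC⟩ := hu.bdd
  exact hr.mul_bdd (c := C) hu.continuous.aestronglyMeasurable
    (Eventually.of_forall fun z => by simpa [Real.norm_eq_abs] using hC z)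

theorem Small.mono {Λ : (X → Fin 3 → ℝ) → ℝ} {ε ε' : ℝ} (h : Small Ω T Λ ε) (hε : ε ≤ ε') :
    Small Ω T Λ ε' := by
  obtain ⟨R, h1, h2, h3⟩ := h
  exact ⟨R, h1, h2.trans hε, h3⟩

theorem Small.congr {Λ Λ' : (X → Fin 3 → ℝ) → ℝ} {ε : ℝ} (h : Small Ω T Λ ε)
    (hΛ : ∀ φ, Test Ω T φ → Λ' φ = Λ φ) : Small Ω T Λ' ε := by
  obtain ⟨R, h1, h2, h3⟩ := h
  exact ⟨R, h1, h2, fun φ hφ => (hΛ φ hφ).trans (h3 φ hφ)⟩

theorem nrm_nonneg (R : X → Fin 3 → Fin 3 → ℝ) : 0 ≤ nrm R := by
  unfold nrm
  exact Finset.sum_nonneg fun i _ => Finset.sum_nonneg fun j _ =>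
    integral_nonneg fun z => abs_nonneg _

theorem Small.nonneg {Λ : (X → Fin 3 → ℝ) → ℝ} {ε : ℝ} (h : Small Ω T Λ ε) : 0 ≤ ε := by
  obtain ⟨R, _, h2, _⟩ := h
  exact (nrm_nonneg R).trans h2

theorem nrm_add_le {R S : X → Fin 3 → Fin 3 → ℝ} (hR : ∀ i j, Integrable (fun z => R z i j))
    (hS : ∀ i j, Integrable (fun z => S z i j)) :
    nrm (fun z i j => R z i j + S z i j) ≤ nrm R + nrm S := by
  unfold nrm
  rw [← Finset.sum_add_distrib]
  refine Finset.sum_le_sum fun i _ => ?_
  rw [← Finset.sum_add_distrib]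
  refine Finset.sum_le_sum fun j _ => ?_
  rw [← integral_add (hR i j).abs (hS i j).abs]
  refine integral_mono ((hR i j).add (hS i j)).abs ((hR i j).abs.add (hS i j).abs) fun z => ?_
  exact abs_add_le _ _

theorem pair_add {R S : X → Fin 3 → Fin 3 → ℝ} (hR : ∀ i j, Integrable (fun z => R z i j))
    (hS : ∀ i j, Integrable (fun z => S z i j)) {φ : X → Fin 3 → ℝ} (hφ : Test Ω T φ) :
    pair (fun z i j => R z i j + S z i j) φ = pair R φ + pair S φ := by
  unfold pair
  rw [← Finset.sum_add_distrib]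
  refine Finset.sum_congr rfl fun i _ => ?_
  rw [← Finset.sum_add_distrib]
  refine Finset.sum_congr rfl fun j _ => ?_
  rw [← integral_add (integrable_mul_cc (hR i j) ((hφ.comp i).dd (ex j)))
    (integrable_mul_cc (hS i j) ((hφ.comp i).dd (ex j)))]
  congr 1
  ext z
  ring

theorem Small.add {Λ Λ' : (X → Fin 3 → ℝ) → ℝ} {ε ε' : ℝ} (h : Small Ω T Λ ε)
    (h' : Small Ω T Λ' ε') : Small Ω T (fun φ => Λ φ + Λ' φ) (ε + ε') := by
  obtain ⟨R, h1, h2, h3⟩ := h
  obtain ⟨S, h1', h2', h3'⟩ := h'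
  refine ⟨fun z i j => R z i j + S z i j, ?_, ?_, ?_⟩
  · exact ⟨fun i j => (h1.int i j).add (h1'.int i j), fun z i j => by rw [h1.symm, h1'.symm],
      fun z hz i j => by rw [h1.supp z hz, h1'.supp z hz, add_zero]⟩
  · exact (nrm_add_le h1.int h1'.int).trans (add_le_add h2 h2')
  · intro φ hφ
    show Λ φ + Λ' φ = _
    rw [pair_add h1.int h1'.int hφ, h3 φ hφ, h3' φ hφ]

theorem small_sym {R : X → Fin 3 → Fin 3 → ℝ} (hR : Stress Ω T R) :
    Small Ω T (pair R) (nrm R) := ⟨R, hR, le_rfl, fun _ _ => rfl⟩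

/-- bound for a pairing -/
theorem abs_pair_le {R : X → Fin 3 → Fin 3 → ℝ} (hR : Stress Ω T R) {φ : X → Fin 3 → ℝ}
    {C : ℝ} (hφ : Test Ω T φ)
    (hC : ∀ z i j, |dd (ex j) (fun y => φ y i) z| ≤ C) : |pair R φ| ≤ C * nrm R := by
  unfold pair nrm
  rw [Finset.mul_sum]
  refine (Finset.abs_sum_le_sum_abs _ _).trans (Finset.sum_le_sum fun i _ => ?_)
  rw [Finset.mul_sum]
  refine (Finset.abs_sum_le_sum_abs _ _).trans (Finset.sum_le_sum fun j _ => ?_)
  rw [← integral_const_mul]
  refine (abs_integral_le_integral_abs).trans ?_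
  refine integral_mono (integrable_mul_cc (hR.int i j) ((hφ.comp i).dd (ex j))).abs
    ((hR.int i j).abs.const_mul C) fun z => ?_
  simp only [abs_mul]
  rw [mul_comm C]
  exact mul_le_mul_of_nonneg_left (hC z i j) (abs_nonneg _)

/-- The one dimensional primitive. -/
theorem prim {r : X → ℝ} (hrm : StronglyMeasurable r) (hr : Integrable r) (v : X) {L : ℝ}
    (hL : 0 ≤ L) :
    Integrable (fun z => ∫ s in Ioc 0 L, r (z - s • v)) ∧
    ∫ z, |∫ s in Ioc 0 L, r (z - s • v)| ≤ L * ∫ z, |r z| ∧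
    ∀ ψ : X → ℝ, Continuous ψ → (∃ C, ∀ z, |ψ z| ≤ C) →
      ∫ z, r z * (∫ s in Ioc 0 L, ψ (z + s • v)) =
        ∫ z, (∫ s in Ioc 0 L, r (z - s • v)) * ψ z := by
  have hH := haarX
  set μ : Measure ℝ := volume.restrict (Ioc 0 L) with hμ
  have hfin : IsFiniteMeasure μ := by
    constructor
    rw [hμ, Measure.restrict_apply_univ, Real.volume_Ioc]
    exact ENNReal.ofReal_lt_top
  have hF : StronglyMeasurable (fun p : ℝ × X => r (p.2 - p.1 • v)) :=
    hrm.comp_measurable (by fun_prop)
  have hconst : ∀ s : ℝ, ∫ z, ‖r (z - s • v)‖ = ∫ z, ‖r z‖ := fun s =>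
    integral_sub_right_eq_self (fun z => ‖r z‖) (s • v)
  have hFi : Integrable (fun p : ℝ × X => r (p.2 - p.1 • v)) (μ.prod volume) := by
    rw [integrable_prod_iff hF.aestronglyMeasurable]
    refine ⟨Eventually.of_forall fun s => ?_, ?_⟩
    · exact hr.comp_sub_right (s • v)
    · simp only [hconst]
      exact integrable_const _
  refine ⟨hFi.integral_prod_right, ?_, ?_⟩
  · calc ∫ z, |∫ s in Ioc 0 L, r (z - s • v)|
        ≤ ∫ z, ∫ s in Ioc 0 L, |r (z - s • v)| := by
          refine integral_mono hFi.integral_prod_right.abs hFi.abs.integral_prod_right fun z => ?_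
          exact abs_integral_le_integral_abs
      _ = ∫ s in Ioc 0 L, ∫ z, |r (z - s • v)| := by
          have := integral_integral_swap (μ := μ) (ν := (volume : Measure X))
            (f := fun s z => |r (z - s • v)|) hFi.abs
          exact this.symm
      _ = L * ∫ z, |r z| := by
          have : ∀ s : ℝ, ∫ z, |r (z - s • v)| = ∫ z, |r z| := by
            intro s; simpa [Real.norm_eq_abs] using hconst s
          simp only [this]
          simp [hL]
  · rintro ψ hψ ⟨C, hC⟩
    have h1 : ∀ z, r z * (∫ s in Ioc 0 L, ψ (z + s • v)) = ∫ s in Ioc 0 L, r z * ψ (z + s • v) := by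
      intro z; rw [integral_const_mul]
    have h2 : ∀ z, (∫ s in Ioc 0 L, r (z - s • v)) * ψ z =
        ∫ s in Ioc 0 L, r (z - s • v) * ψ z := by
      intro z; rw [integral_mul_const]
    have h3 : ∫ z, r z * (∫ s in Ioc 0 L, ψ (z + s • v)) =
        ∫ z, ∫ s in Ioc 0 L, r z * ψ (z + s • v) := by
      congr 1; ext z; exact h1 z
    have h4 : ∫ z, (∫ s in Ioc 0 L, r (z - s • v)) * ψ z =
        ∫ z, ∫ s in Ioc 0 L, r (z - s • v) * ψ z := by
      congr 1; ext z; exact h2 z
    rw [h3, h4]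
    have hi1 : Integrable (fun p : ℝ × X => r p.2 * ψ (p.2 + p.1 • v)) (μ.prod volume) := by
      refine (hr.comp_snd μ).mul_bdd (c := C) ?_ ?_
      · exact (hψ.comp (by fun_prop)).aestronglyMeasurable
      · exact Eventually.of_forall fun p => by simpa [Real.norm_eq_abs] using hC _
    have hi2 : Integrable (fun p : ℝ × X => r (p.2 - p.1 • v) * ψ p.2) (μ.prod volume) := by
      refine hFi.mul_bdd (c := C) ?_ ?_
      · exact (hψ.comp continuous_snd).aestronglyMeasurable
      · exact Eventually.of_forall fun p => by simpa [Real.norm_eq_abs] using hC _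
    have e1 := integral_integral_swap (μ := μ) (ν := (volume : Measure X))
            (f := fun s z => r z * ψ (z + s • v)) hi1
    have e2 := integral_integral_swap (μ := μ) (ν := (volume : Measure X))
            (f := fun s z => r (z - s • v) * ψ z) hi2
    rw [← e1, ← e2]
    refine integral_congr_ae (Eventually.of_forall fun s => ?_)
    have := integral_sub_right_eq_self (μ := (volume : Measure X))
      (fun z => r z * ψ (z + s • v)) (s • v)
    simp only [sub_add_cancel] at this
    exact this.symm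

/-- the fundamental theorem of calculus along a direction -/
theorem ftc {D : Set X} {u : X → ℝ} (hu : Cc D u) (v z : X) {L : ℝ} (hL : 0 ≤ L)
    (h0 : u (z + L • v) = 0) : u z = - ∫ s in Ioc 0 L, dd v u (z + s • v) := by
  have hd : ∀ s ∈ uIcc (0 : ℝ) L, HasDerivAt (fun s : ℝ => u (z + s • v)) (dd v u (z + s • v)) s := by
    intro s _
    have h1 : HasFDerivAt u (fderiv ℝ u (z + s • v)) (z + s • v) :=
      (hu.differentiable _).hasFDerivAt
    have h2 : HasDerivAt (fun s : ℝ => z + s • v) v s := by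
      simpa using ((hasDerivAt_id s).smul_const v).const_add z
    exact h1.comp_hasDerivAt s h2
  have hc : Continuous (fun s : ℝ => dd v u (z + s • v)) :=
    (hu.dd v).continuous.comp (by fun_prop)
  have := intervalIntegral.integral_eq_sub_of_hasDerivAt hd (hc.intervalIntegrable 0 L)
  rw [intervalIntegral.integral_of_le hL] at this
  rw [this, h0]
  simp

/-- A vector field in `L¹` is the divergence of a small diagonal stress. -/
theorem small_vec (hΩ : IsOpen Ω) {L : ℝ} (hL : 0 ≤ L)
    (hLΩ : ∀ x ∈ Ω, ∀ i : Fin 3, x + L • (Pi.single i (1 : ℝ) : Fin 3 → ℝ) ∉ Ω)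
    {r : X → Fin 3 → ℝ} (hr : ∀ i, Integrable (fun z => r z i))
    (hs : ∀ z, z ∉ dom Ω T → ∀ i, r z i = 0) :
    Small Ω T (fun φ => ∑ i, ∫ z, r z i * φ z i) (L * ∑ i, ∫ z, |r z i|) := by
  classical
  set r' : Fin 3 → X → ℝ := fun i => (dom Ω T).indicator ((hr i).1.mk (fun z => r z i)) with hr'
  have hrm : ∀ i, StronglyMeasurable (r' i) := fun i =>
    (hr i).1.stronglyMeasurable_mk.indicator (measurableSet_dom hΩ T)
  have hae : ∀ i, (fun z => r z i) =ᵐ[volume] r' i := by
    intro i
    filter_upwards [(hr i).1.ae_eq_mk] with z hz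
    by_cases hzd : z ∈ dom Ω T
    · simp only [hr', indicator_of_mem hzd]; exact hz
    · simp only [hr', indicator_of_notMem hzd]; exact hs z hzd i
  have hri : ∀ i, Integrable (r' i) := fun i => (hr i).congr (hae i)
  set Q : Fin 3 → X → ℝ := fun i z => ∫ s in Ioc 0 L, r' i (z - s • ex i) with hQ
  have hP := fun i => prim (hrm i) (hri i) (ex i) hL
  have hQt : ∀ i (z : X), z.1 ∉ Ioo 0 T → Q i z = 0 := by
    intro i z hz
    have : ∀ s : ℝ, r' i (z - s • ex i) = 0 := by
      intro s
      have : z - s • ex i ∉ dom Ω T := by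
        intro hmem
        apply hz
        have := hmem.1
        simpa [ex] using this
      simp only [hr', indicator_of_notMem this]
    simp [hQ, this]
  refine ⟨fun z i j => if i = j then (dom Ω T).indicator (fun z => - Q i z) z else 0,
    ⟨?_, ?_, ?_⟩, ?_, ?_⟩
  · intro i j
    by_cases hij : i = j
    · simp only [hij, if_true]
      exact ((hP j).1.neg).indicator (measurableSet_dom hΩ T)
    · simp only [hij, if_false]
      exact integrable_zero _ _ _
  · intro z i j
    by_cases hij : i = j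
    · rw [hij]
    · simp only [hij, if_false, Ne.symm hij]
  · intro z hz i j
    simp [hz]
  · unfold nrm
    rw [Finset.mul_sum]
    refine Finset.sum_le_sum fun i _ => ?_
    rw [Finset.sum_eq_single i]
    · simp only [if_true]
      have e1 : ∫ z, |r z i| = ∫ z, |r' i z| :=
        integral_congr_ae ((hae i).mono fun z hz => by simp only [hz])
      rw [e1]
      refine le_trans ?_ (hP i).2.1
      refine integral_mono (((hP i).1.neg).indicator (measurableSet_dom hΩ T)).abs (hP i).1.abs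
        fun z => ?_
      by_cases hz : z ∈ dom Ω T
      · simp [indicator_of_mem hz, hQ]
      · simp only [indicator_of_notMem hz, abs_zero]; exact abs_nonneg _
    · intro j _ hj
      simp [Ne.symm hj]
    · simp
  · intro φ hφ
    unfold pair
    refine Finset.sum_congr rfl fun i _ => ?_
    rw [Finset.sum_eq_single i]
    rotate_left
    · intro j _ hj
      simp [Ne.symm hj]
    · simp
    simp only [if_true]
    have e1 : ∫ z, r z i * φ z i = ∫ z, r' i z * φ z i :=
      integral_congr_ae ((hae i).mono fun z hz => by simp only [hz])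
    have e2 : ∀ z, r' i z * φ z i =
        - (r' i z * ∫ s in Ioc 0 L, dd (ex i) (fun y => φ y i) (z + s • ex i)) := by
      intro z
      by_cases hz : z ∈ dom Ω T
      · have h0 : (fun y => φ y i) (z + L • ex i) = 0 := by
          apply (hφ.comp i).zero
          intro hmem
          have h2 := hmem.2
          have : (z + L • ex i).2 = z.2 + L • (Pi.single i (1 : ℝ) : Fin 3 → ℝ) := by
            simp [ex]
          rw [this] at h2
          exact hLΩ z.2 hz.2 i h2
        have h' : φ z i = - ∫ s in Ioc 0 L, dd (ex i) (fun y => φ y i) (z + s • ex i) :=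
          ftc (hφ.comp i) (ex i) z hL h0
        rw [h']; ring
      · simp only [hr', indicator_of_notMem hz]; ring
    have e3 : ∫ z, r' i z * φ z i =
        - ∫ z, r' i z * ∫ s in Ioc 0 L, dd (ex i) (fun y => φ y i) (z + s • ex i) := by
      rw [← integral_neg]; congr 1; ext z; exact e2 z
    have hcc := (hφ.comp i).dd (ex i)
    obtain ⟨C, _, hC⟩ := hcc.bdd
    rw [e1, e3, (hP i).2.2 _ hcc.continuous ⟨C, hC⟩, ← integral_neg]
    congr 1
    ext z
    by_cases hz : z ∈ dom Ω T
    · simp only [indicator_of_mem hz]; ring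
    · simp only [indicator_of_notMem hz, zero_mul, neg_eq_zero]
      by_cases hz1 : z.1 ∈ Ioo 0 T
      · have hz2 : z.2 ∉ Ω := fun h => hz ⟨hz1, h⟩
        have : dd (ex i) (fun y => φ y i) z = 0 := hcc.zero (fun h => hz2 h.2)
        rw [this, mul_zero]
      · have := hQt i z hz1
        simp only [hQ] at this
        rw [this, zero_mul]

end

end Pool.Agent.J6H20.LES
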