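import Pool.Agent.J6H20.LES.RL
import Pool.Agent.J6H20.LES.Profile

set_option autoImplicit false

open MeasureTheory Set Filter Topology
open scoped ContDiff ENNReal NNReal

namespace Pool.Agent.J6H20.LES

/-- lower order coefficient -/
noncomputable def cf (a : X → ℝ) (k : Fin 3 → ℝ) (l i : Fin 3) (z : X) : ℝ :=
  k i * dd (ex l) a z - (if i = l then dd (0, k) a z else 0)

/-- the oscillating field -/
noncomputable def vf (a : X → ℝ) (k : Fin 3 → ℝ) (l : Fin 3) (φ Φ : ℝ → ℝ) (n : ℝ)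
    (z : X) (i : Fin 3) : ℝ :=
  (1 / n) * (k i * a z * osc l n φ z) + (1 / n ^ 2) * (cf a k l i z * osc l n Φ z)

/-- error of the gradient -/
noncomputable def ef (a : X → ℝ) (k : Fin 3 → ℝ) (l : Fin 3) (φ Φ : ℝ → ℝ) (n : ℝ)
    (z : X) (i m : Fin 3) : ℝ :=
  (1 / n) * (k i * dd (ex m) a z * osc l n φ z) +
    (if m = l then (1 / n) * (cf a k l i z * osc l n φ z) else 0) +
    (1 / n ^ 2) * (dd (ex m) (cf a k l i) z * osc l n Φ z)

theorem cc_cf {D : Set X} {a : X → ℝ} (ha : Cc D a) (k : Fin 3 → ℝ) (l i : Fin 3) :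
    Cc D (cf a k l i) := by
  unfold cf
  by_cases hi : i = l
  · simp only [hi, if_true]
    exact ((ha.dd _).const_mul _).sub (ha.dd _)
  · simp only [hi, if_false, sub_zero]
    exact (ha.dd _).const_mul _

theorem cc_vf {D : Set X} {a : X → ℝ} (ha : Cc D a) (k : Fin 3 → ℝ) (l : Fin 3) {φ Φ : ℝ → ℝ}
    (hφ : ContDiff ℝ ∞ φ) (hΦ : ContDiff ℝ ∞ Φ) (n : ℝ) (i : Fin 3) :
    Cc D (fun z => vf a k l φ Φ n z i) := by
  unfold vf
  refine Cc.add ?_ ?_
  · exact (((ha.const_mul (k i)).mul (contDiff_osc l n hφ)).const_mul _)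
  · exact (((cc_cf ha k l i).mul (contDiff_osc l n hΦ)).const_mul _)

theorem ex_apply (m l : Fin 3) : (ex m).2 l = if m = l then 1 else 0 := by
  simp only [ex, Pi.single_apply]
  by_cases h : l = m
  · simp [h]
  · simp [h, Ne.symm h]

/-- derivative of a modulated oscillation -/
theorem dd_mod {u : X → ℝ} (hu : Differentiable ℝ u) (l : Fin 3) (n : ℝ) {h h' : ℝ → ℝ}
    (hh : ∀ s, HasDerivAt h (h' s) s) (v z : X) :
    dd v (fun z => u z * osc l n h z) z =
      dd v u z * osc l n h z + n * v.2 l * (u z * osc l n h' z) := by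
  rw [dd_mul hu (fun z => (hasFDerivAt_osc l n hh z).differentiableAt), dd_osc l n hh]
  ring

theorem dd_vf {D : Set X} {a : X → ℝ} (ha : Cc D a) (k : Fin 3 → ℝ) (l : Fin 3)
    {φ Φ θ : ℝ → ℝ} (hφ : ∀ s, HasDerivAt φ (θ s) s) (hΦ : ∀ s, HasDerivAt Φ (φ s) s)
    {n : ℝ} (hn : n ≠ 0) (i : Fin 3) (v z : X) :
    dd v (fun z => vf a k l φ Φ n z i) z =
      v.2 l * (k i * a z * osc l n θ z) +
      ((1 / n) * (k i * dd v a z * osc l n φ z) +
      v.2 l * ((1 / n) * (cf a k l i z * osc l n φ z)) +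
      (1 / n ^ 2) * (dd v (cf a k l i) z * osc l n Φ z)) := by
  have hdo : Differentiable ℝ (osc l n φ) := fun z => (hasFDerivAt_osc l n hφ z).differentiableAt
  have hdO : Differentiable ℝ (osc l n Φ) := fun z => (hasFDerivAt_osc l n hΦ z).differentiableAt
  have hka : Differentiable ℝ (fun z => k i * a z) := (ha.const_mul (k i)).differentiable
  have hcf : Differentiable ℝ (cf a k l i) := (cc_cf ha k l i).differentiable
  have e1 : Differentiable ℝ (fun z => k i * a z * osc l n φ z) := hka.mul hdo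
  have e2 : Differentiable ℝ (fun z => cf a k l i z * osc l n Φ z) := hcf.mul hdO
  unfold vf
  rw [dd_add (e1.const_mul _) (e2.const_mul _), dd_const_mul e1, dd_const_mul e2,
    dd_mod hka l n hφ, dd_mod hcf l n hΦ, dd_const_mul ha.differentiable]
  field_simp
  ring

theorem grad_vf {D : Set X} {a : X → ℝ} (ha : Cc D a) (k : Fin 3 → ℝ) (l : Fin 3)
    {φ Φ θ : ℝ → ℝ} (hφ : ∀ s, HasDerivAt φ (θ s) s) (hΦ : ∀ s, HasDerivAt Φ (φ s) s)
    {n : ℝ} (hn : n ≠ 0) (i m : Fin 3) (z : X) :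
    dd (ex m) (fun z => vf a k l φ Φ n z i) z =
      (if m = l then k i * a z * osc l n θ z else 0) + ef a k l φ Φ n z i m := by
  rw [dd_vf ha k l hφ hΦ hn, ex_apply]
  unfold ef
  by_cases h : m = l
  · simp only [h, if_true]; ring
  · simp only [h, if_false]; ring

theorem dt_vf {D : Set X} {a : X → ℝ} (ha : Cc D a) (k : Fin 3 → ℝ) (l : Fin 3)
    {φ Φ θ : ℝ → ℝ} (hφ : ∀ s, HasDerivAt φ (θ s) s) (hΦ : ∀ s, HasDerivAt Φ (φ s) s)
    {n : ℝ} (hn : n ≠ 0) (i : Fin 3) (z : X) :
    dd et (fun z => vf a k l φ Φ n z i) z =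
      (1 / n) * (k i * dd et a z * osc l n φ z) +
      (1 / n ^ 2) * (dd et (cf a k l i) z * osc l n Φ z) := by
  rw [dd_vf ha k l hφ hΦ hn]
  simp [et]

theorem dd_k {u : X → ℝ} (k : Fin 3 → ℝ) (z : X) :
    dd (0, k) u z = ∑ j, k j * dd (ex j) u z := by
  unfold dd
  have h1 : ((0 : ℝ), k) = ∑ j, k j • ex j := by
    ext
    · simp [ex, Prod.fst_sum]
    · rename_i x
      simp only [ex, Prod.snd_sum, Prod.smul_snd, Finset.sum_apply, Pi.smul_apply, Pi.single_apply,
        smul_eq_mul, mul_ite, mul_one, mul_zero, Finset.sum_ite_eq, Finset.mem_univ, if_true]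
  rw [h1, map_sum]
  simp

theorem div_vf {D : Set X} {a : X → ℝ} (ha : Cc D a) {k : Fin 3 → ℝ} {l : Fin 3} (hk : k l = 0)
    {φ Φ θ : ℝ → ℝ} (hφ : ∀ s, HasDerivAt φ (θ s) s) (hΦ : ∀ s, HasDerivAt Φ (φ s) s)
    {n : ℝ} (hn : n ≠ 0) (z : X) :
    ∑ i, dd (ex i) (fun z => vf a k l φ Φ n z i) z = 0 := by
  have h1 : ∀ i, dd (ex i) (fun z => vf a k l φ Φ n z i) z =
      (if i = l then (k i * a z * osc l n θ z + (1 / n) * (cf a k l i z * osc l n φ z)) else 0) +
      ((1 / n) * (k i * dd (ex i) a z * osc l n φ z) +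
      (1 / n ^ 2) * (dd (ex i) (cf a k l i) z * osc l n Φ z)) := by
    intro i
    rw [grad_vf ha k l hφ hΦ hn]
    unfold ef
    by_cases h : i = l
    · simp only [h, if_true]; ring
    · simp only [h, if_false]; ring
  simp only [h1]
  rw [Finset.sum_add_distrib, Finset.sum_ite_eq' Finset.univ l, if_pos (Finset.mem_univ _),
    Finset.sum_add_distrib]
  have h2 : ∑ i, (1 / n) * (k i * dd (ex i) a z * osc l n φ z) =
      (1 / n) * (dd (0, k) a z * osc l n φ z) := by
    rw [dd_k, Finset.sum_mul, Finset.mul_sum]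
  have h3 : ∑ i, (1 / n ^ 2) * (dd (ex i) (cf a k l i) z * osc l n Φ z) = 0 := by
    have h4 : ∀ i, dd (ex i) (cf a k l i) z =
        k i * dd (ex l) (dd (ex i) a) z - (if i = l then dd (ex l) (dd (0, k) a) z else 0) := by
      intro i
      by_cases hi : i = l
      · have e1 : cf a k l i = fun z => k i * dd (ex l) a z + (-1) * dd (0, k) a z := by
          ext z; simp only [cf, hi, if_true]; ring
        rw [e1, dd_add ((ha.dd _).differentiable.const_mul _) ((ha.dd _).differentiable.const_mul _),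
          dd_const_mul (ha.dd _).differentiable, dd_const_mul (ha.dd _).differentiable,
          dd_comm ha.smooth (ex i) (ex l)]
        simp only [hi, if_true]; ring
      · have e1 : cf a k l i = fun z => k i * dd (ex l) a z := by
          ext z; simp only [cf, hi, if_false, sub_zero]
        rw [e1, dd_const_mul (ha.dd _).differentiable, dd_comm ha.smooth (ex i) (ex l)]
        simp only [hi, if_false, sub_zero]
    have h5 : ∑ i, dd (ex i) (cf a k l i) z = 0 := by
      simp only [h4]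
      rw [Finset.sum_sub_distrib, Finset.sum_ite_eq' Finset.univ l, if_pos (Finset.mem_univ _)]
      have h6 : dd (ex l) (dd (0, k) a) z = ∑ i, k i * dd (ex l) (dd (ex i) a) z := by
        have e2 : dd (0, k) a = fun z => ∑ j, k j * dd (ex j) a z := by
          ext z; exact dd_k k z
        rw [e2, dd_sum _ (fun i _ => (ha.dd _).differentiable.const_mul _)]
        refine Finset.sum_congr rfl fun i _ => ?_
        rw [dd_const_mul (ha.dd _).differentiable]
      rw [h6]; ring
    rw [← Finset.mul_sum, ← Finset.sum_mul, h5]; ring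
  rw [h2, h3]
  have h7 : cf a k l l z = - dd (0, k) a z := by
    simp [cf, hk]
  rw [h7, hk]
  ring

end Pool.Agent.J6H20.LES
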